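import Mathlib
import Pool.Agent.N576.MX3.D

/-!
# Project MX3 (helper576), parts DER, GROW, CHAIN (helper910)
-/

set_option autoImplicit false

namespace Pool.Agent.N910.MX3

open Finset Pool.Agent.N576.MX3

theorem chain : CHAIN := by
  intro q L p m1 m2 k x
  unfold Q3.ph
  refine HasDerivAt.fun_sum fun l _ => ?_
  have h1 : HasDerivAt (fun y : ℝ => Real.exp (y * q.om l)) (Real.exp (x * q.om l) * q.om l) x := by
    have h2 : HasDerivAt (fun y : ℝ => y * q.om l) (q.om l) x := by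
      simpa using (hasDerivAt_id x).mul_const (q.om l)
    exact h2.exp
  refine (h1.const_mul (p l * (q.g1 l : ℝ) ^ m1 * (q.g2 l : ℝ) ^ m2 * q.om l ^ k)).congr_deriv ?_
  ring

theorem logb {a d H : ℕ} (ha : 1 ≤ a ∧ a ≤ H) (hd : 1 ≤ d ∧ d ≤ H) :
    |Real.log ((a : ℝ) / d)| ≤ Real.log H := by
  have ha1 : (1 : ℝ) ≤ a := by exact_mod_cast ha.1
  have hd1 : (1 : ℝ) ≤ d := by exact_mod_cast hd.1
  have ha2 : (a : ℝ) ≤ H := by exact_mod_cast ha.2
  have hd2 : (d : ℝ) ≤ H := by exact_mod_cast hd.2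
  rw [Real.log_div (by linarith) (by linarith)]
  have h1 := Real.log_nonneg ha1
  have h2 := Real.log_nonneg hd1
  have h3 := Real.log_le_log (by linarith) ha2
  have h4 := Real.log_le_log (by linarith) hd2
  rw [abs_le]
  constructor <;> linarith

theorem logH {H : ℕ} (hH : 3 ≤ H) : 1 ≤ Real.log H := by
  rw [Real.le_log_iff_exp_le (by have : 0 < H := by omega
                                 exact_mod_cast this)]
  have h1 := Real.exp_one_lt_d9
  have h2 : (3 : ℝ) ≤ H := by exact_mod_cast hH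
  linarith

theorem b3_one {q : Q3} {H : ℕ} (hq : q.Ok H) : (1 : ℝ) ≤ |(q.b3 : ℝ)| := by
  have := Int.one_le_abs hq.ne
  exact_mod_cast this

theorem ph_expand {q : Q3} {H : ℕ} (hq : q.Ok H) (L : ℕ) (p : ℕ × ℕ × ℕ → ℤ) (m1 m2 k : ℕ) (x : ℝ) :
    q.ph L p m1 m2 k x = (∑ i ∈ range (k + 1), q.l1 ^ i * q.l2 ^ (k - i) * (k.choose i : ℝ) *
      q.ph L p (m1 + i) (m2 + (k - i)) 0 x) / (q.b3 : ℝ) ^ k := by
  have hb : (q.b3 : ℝ) ≠ 0 := by exact_mod_cast hq.ne
  unfold Q3.ph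
  simp only [mul_sum]
  rw [sum_comm, sum_div]
  refine sum_congr rfl fun l _ => ?_
  have h1 : q.om l ^ k = (∑ i ∈ range (k + 1), ((q.g1 l : ℝ) * q.l1) ^ i *
      ((q.g2 l : ℝ) * q.l2) ^ (k - i) * (k.choose i : ℝ)) / (q.b3 : ℝ) ^ k := by
    unfold Q3.om
    rw [div_pow, add_pow]
  rw [h1, mul_div_assoc', div_mul_eq_mul_div]
  congr 1
  rw [mul_sum, sum_mul]
  refine sum_congr rfl fun i _ => ?_
  rw [mul_pow, mul_pow, pow_add, pow_add, pow_zero]
  ring

theorem der : DER := by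
  intro q H L p m1 m2 k x ε hq hH h
  have hε : 0 ≤ ε := (abs_nonneg _).trans (h 0 k (by omega))
  have hb := b3_one hq
  have hl1 : |q.l1| ≤ Real.log H := logb hq.a1 hq.d1
  have hl2 : |q.l2| ≤ Real.log H := logb hq.a2 hq.d2
  rw [ph_expand hq, abs_div, abs_pow]
  have hbk : 1 ≤ |(q.b3 : ℝ)| ^ k := one_le_pow₀ hb
  refine (div_le_self (abs_nonneg _) hbk).trans ?_
  refine (abs_sum_le_sum_abs _ _).trans ?_
  have h1 : ∀ i ∈ range (k + 1), |q.l1 ^ i * q.l2 ^ (k - i) * (k.choose i : ℝ) *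
      q.ph L p (m1 + i) (m2 + (k - i)) 0 x| ≤
      (Real.log H) ^ i * (Real.log H) ^ (k - i) * (k.choose i : ℝ) * ε := by
    intro i hi
    rw [mem_range] at hi
    rw [abs_mul, abs_mul, abs_mul, abs_pow, abs_pow, Nat.abs_cast]
    have hlog : 0 ≤ Real.log H := (abs_nonneg _).trans hl1
    have h2 : |q.l1| ^ i ≤ (Real.log H) ^ i := pow_le_pow_left₀ (abs_nonneg _) hl1 i
    have h3 : |q.l2| ^ (k - i) ≤ (Real.log H) ^ (k - i) := pow_le_pow_left₀ (abs_nonneg _) hl2 _
    have h4 := h i (k - i) (by omega)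
    refine mul_le_mul (mul_le_mul_of_nonneg_right (mul_le_mul h2 h3 (by positivity)
      (by positivity)) (by positivity)) h4 (abs_nonneg _) (by positivity)
  refine (sum_le_sum h1).trans ?_
  rw [← sum_mul, ← add_pow, ← two_mul]

theorem grow : GROW := by
  intro q H L T N p P m1 m2 x X hq hH hL hm1 hm2 hp hLam hx
  have hP : 0 ≤ P := (abs_nonneg _).trans (hp (0, 0, 0))
  have hX : 0 ≤ X := (abs_nonneg _).trans hx
  have hb := b3_one hq
  have hb0 : (q.b3 : ℝ) ≠ 0 := by exact_mod_cast hq.ne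
  have hlog := logH hH
  have hl1 : |q.l1| ≤ Real.log H := logb hq.a1 hq.d1
  have hl2 : |q.l2| ≤ Real.log H := logb hq.a2 hq.d2
  have hl3 : |q.l3| ≤ Real.log H := logb hq.a3 hq.d3
  have hL1 : (1 : ℝ) ≤ L := by exact_mod_cast hL
  have hH1 : (3 : ℝ) ≤ H := by exact_mod_cast hH
  have hB1 : |(q.b1 : ℝ)| ≤ H := by exact_mod_cast hq.b1
  have hB2 : |(q.b2 : ℝ)| ≤ H := by exact_mod_cast hq.b2
  have hB3 : |(q.b3 : ℝ)| ≤ H := by exact_mod_cast hq.b3
  have hterm : ∀ l ∈ Cu L, |p l * (q.g1 l : ℝ) ^ m1 * (q.g2 l : ℝ) ^ m2 * q.om l ^ N *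
      Real.exp (x * q.om l)| ≤ P * (2 * H * L) ^ (2 * T) * (4 * L * Real.log H) ^ N *
        Real.exp (4 * L * Real.log H * X) := by
    intro l hl
    unfold Cu at hl
    rw [mem_product, mem_product, mem_range, mem_range, mem_range] at hl
    obtain ⟨hx1, hx2, hx3⟩ := hl
    have hx1' : (l.1 : ℝ) ≤ L := by exact_mod_cast hx1.le
    have hx2' : (l.2.1 : ℝ) ≤ L := by exact_mod_cast hx2.le
    have hx3' : (l.2.2 : ℝ) ≤ L := by exact_mod_cast hx3.le
    have hy1 : (0 : ℝ) ≤ l.1 := Nat.cast_nonneg _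
    have hy2 : (0 : ℝ) ≤ l.2.1 := Nat.cast_nonneg _
    have hy3 : (0 : ℝ) ≤ l.2.2 := Nat.cast_nonneg _
    have hg1 : |(q.g1 l : ℝ)| ≤ 2 * H * L := by
      unfold Q3.g1
      push_cast
      refine (abs_sub _ _).trans ?_
      rw [abs_mul, abs_mul, Nat.abs_cast, Nat.abs_cast]
      have h1 := mul_le_mul hB3 hx1' hy1 (by linarith)
      have h2 := mul_le_mul hB1 hx3' hy3 (by linarith)
      linarith
    have hg2 : |(q.g2 l : ℝ)| ≤ 2 * H * L := by
      unfold Q3.g2
      push_cast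
      refine (abs_sub _ _).trans ?_
      rw [abs_mul, abs_mul, Nat.abs_cast, Nat.abs_cast]
      have h1 := mul_le_mul hB3 hx2' hy2 (by linarith)
      have h2 := mul_le_mul hB2 hx3' hy3 (by linarith)
      linarith
    have hom : |q.om l| ≤ 4 * L * Real.log H := by
      have e1 : q.om l = q.E l - l.2.2 * q.Lam / q.b3 := by
        unfold Q3.om Q3.E Q3.Lam Q3.g1 Q3.g2
        push_cast
        field_simp
        ring
      rw [e1]
      refine (abs_sub _ _).trans ?_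
      have h1 : |q.E l| ≤ 3 * (L * Real.log H) := by
        unfold Q3.E
        refine (abs_add_three _ _ _).trans ?_
        rw [abs_mul, abs_mul, abs_mul, Nat.abs_cast, Nat.abs_cast, Nat.abs_cast]
        have h2 := mul_le_mul hx1' hl1 (abs_nonneg _) (by linarith)
        have h3 := mul_le_mul hx2' hl2 (abs_nonneg _) (by linarith)
        have h4 := mul_le_mul hx3' hl3 (abs_nonneg _) (by linarith)
        linarith
      have h5 : |l.2.2 * q.Lam / (q.b3 : ℝ)| ≤ L := by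
        rw [abs_div, abs_mul, Nat.abs_cast]
        refine (div_le_self (by positivity) hb).trans ?_
        calc (l.2.2 : ℝ) * |q.Lam| ≤ L * 1 := mul_le_mul hx3' hLam (abs_nonneg _) (by linarith)
          _ = L := mul_one _
      nlinarith
    have h2HL : 1 ≤ 2 * (H : ℝ) * L := by nlinarith
    have hgp : |(q.g1 l : ℝ)| ^ m1 * |(q.g2 l : ℝ)| ^ m2 ≤ (2 * H * L) ^ (2 * T) := by
      calc |(q.g1 l : ℝ)| ^ m1 * |(q.g2 l : ℝ)| ^ m2 ≤ (2 * H * L) ^ m1 * (2 * H * L) ^ m2 :=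
            mul_le_mul (pow_le_pow_left₀ (abs_nonneg _) hg1 _)
              (pow_le_pow_left₀ (abs_nonneg _) hg2 _) (by positivity) (by positivity)
        _ = (2 * H * L) ^ (m1 + m2) := (pow_add _ _ _).symm
        _ ≤ (2 * H * L) ^ (2 * T) := pow_le_pow_right₀ h2HL (by omega)
    have hexp : Real.exp (x * q.om l) ≤ Real.exp (4 * L * Real.log H * X) := by
      apply Real.exp_le_exp.2
      calc x * q.om l ≤ |x * q.om l| := le_abs_self _
        _ = |x| * |q.om l| := abs_mul _ _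
        _ ≤ X * (4 * L * Real.log H) := mul_le_mul hx hom (abs_nonneg _) hX
        _ = _ := mul_comm _ _
    rw [abs_mul, abs_mul, abs_mul, abs_mul, abs_pow, abs_pow, abs_pow,
      abs_of_pos (Real.exp_pos _)]
    have homN : |q.om l| ^ N ≤ (4 * L * Real.log H) ^ N := pow_le_pow_left₀ (abs_nonneg _) hom N
    have h1 : |(p l : ℝ)| * |(q.g1 l : ℝ)| ^ m1 * |(q.g2 l : ℝ)| ^ m2 ≤
        P * (2 * H * L) ^ (2 * T) := by
      rw [mul_assoc]
      exact mul_le_mul (hp l) hgp (by positivity) hP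
    exact mul_le_mul (mul_le_mul h1 homN (by positivity) (by positivity)) hexp (by positivity)
      (by positivity)
  unfold Q3.ph
  refine (abs_sum_le_sum_abs _ _).trans ((sum_le_card_nsmul _ _ _ hterm).trans ?_)
  rw [nsmul_eq_mul]
  have hc : ((Cu L).card : ℝ) = (L : ℝ) ^ 3 := by
    unfold Cu
    rw [card_product, card_product, card_range]
    push_cast
    ring
  rw [hc]
  exact le_of_eq (by ring)

end Pool.Agent.N910.MX3
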