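import Mathlib
import Pool.Agent.N604.MW.Stm12
import Pool.Agent.N457.KW_DVDC
import Pool.Agent.N559.KV_L2
import Pool.Agent.N499.AD_AL2
import Pool.Agent.N700.KV_Char

/-!
# Project AK (helper604), part KL2 (helper910): second moment of one exponential sum
-/

set_option autoImplicit false

namespace Pool.Agent.N910.AK

open Finset MeasureTheory

/-- the `m`-th derivative of `c x ^ (d+1) + ∑ θ_l x ^ (l+1)` -/
noncomputable def Fm (d : ℕ) (c : ℝ) (θ : Fin d → ℝ) (m : ℕ) (x : ℝ) : ℝ :=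
  c * (((d + 1).descFactorial m : ℝ) * x ^ (d + 1 - m)) +
    ∑ l : Fin d, θ l * ((((l : ℕ) + 1).descFactorial m : ℝ) * x ^ ((l : ℕ) + 1 - m))

theorem desc_der (n m : ℕ) (x : ℝ) :
    HasDerivAt (fun x : ℝ => (n.descFactorial m : ℝ) * x ^ (n - m))
      ((n.descFactorial (m + 1) : ℝ) * x ^ (n - (m + 1))) x := by
  have h := (hasDerivAt_pow (n - m) x).const_mul (n.descFactorial m : ℝ)
  refine h.congr_deriv ?_
  rw [Nat.descFactorial_succ, Nat.cast_mul, Nat.sub_sub]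
  ring

theorem Fm_der (d : ℕ) (c : ℝ) (θ : Fin d → ℝ) (m : ℕ) (x : ℝ) :
    HasDerivAt (Fm d c θ m) (Fm d c θ (m + 1) x) x := by
  have h1 := (desc_der (d + 1) m x).const_mul c
  have h2 : HasDerivAt
      (fun x : ℝ => ∑ l : Fin d, θ l * ((((l : ℕ) + 1).descFactorial m : ℝ) * x ^ ((l : ℕ) + 1 - m)))
      (∑ l : Fin d, θ l * ((((l : ℕ) + 1).descFactorial (m + 1) : ℝ) *
        x ^ ((l : ℕ) + 1 - (m + 1)))) x :=
    HasDerivAt.fun_sum fun l _ => (desc_der ((l : ℕ) + 1) m x).const_mul (θ l)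
  exact h1.add h2

theorem low_bd {d : ℕ} {θ : Fin d → ℝ} {B : ℝ} (hB : 0 ≤ B) (hθ : ∀ l, |θ l| ≤ B) (m : ℕ)
    {x : ℝ} (hx : 1 ≤ x) :
    |∑ l : Fin d, θ l * ((((l : ℕ) + 1).descFactorial m : ℝ) * x ^ ((l : ℕ) + 1 - m))| ≤
      d * B * (((d + 1).descFactorial m : ℝ) * x ^ (d - m)) := by
  refine (abs_sum_le_sum_abs _ _).trans ?_
  have h1 : ∀ l ∈ (univ : Finset (Fin d)),
      |θ l * ((((l : ℕ) + 1).descFactorial m : ℝ) * x ^ ((l : ℕ) + 1 - m))| ≤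
      B * (((d + 1).descFactorial m : ℝ) * x ^ (d - m)) := by
    intro l _
    have hx0 : 0 ≤ x := by linarith
    rw [abs_mul, abs_of_nonneg (a := (((l : ℕ) + 1).descFactorial m : ℝ) * _) (by positivity)]
    have h2 : (((l : ℕ) + 1).descFactorial m : ℝ) ≤ ((d + 1).descFactorial m : ℝ) := by
      exact_mod_cast Nat.descFactorial_le m (by have := l.2; omega)
    have h3 : x ^ ((l : ℕ) + 1 - m) ≤ x ^ (d - m) :=
      pow_le_pow_right₀ hx (by have := l.2; omega)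
    exact mul_le_mul (hθ l) (mul_le_mul h2 h3 (by positivity) (by positivity)) (by positivity) hB
  refine (sum_le_card_nsmul _ _ _ h1).trans ?_
  rw [card_univ, Fintype.card_fin, nsmul_eq_mul]
  exact le_of_eq (by ring)

theorem Fm_bd {d : ℕ} {c B : ℝ} (hB : 0 ≤ B) {θ : Fin d → ℝ} (hθ : ∀ l, |θ l| ≤ B)
    {m : ℕ} (hm : m ≤ d) {x : ℝ} (hx : 1 ≤ x) (hx2 : 2 * (d * B) ≤ c * x) :
    c / 2 * (((d + 1).descFactorial m : ℝ) * x ^ (d + 1 - m)) ≤ Fm d c θ m x ∧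
      Fm d c θ m x ≤ 3 * c / 2 * (((d + 1).descFactorial m : ℝ) * x ^ (d + 1 - m)) := by
  have h1 := abs_le.1 (low_bd hB hθ m hx)
  have e1 : x ^ (d + 1 - m) = x * x ^ (d - m) := by
    rw [show d + 1 - m = (d - m) + 1 by omega, pow_succ]
    ring
  have h2 : 0 ≤ ((d + 1).descFactorial m : ℝ) * x ^ (d - m) := by
    have : 0 ≤ x := by linarith
    positivity
  have h3 : d * B * (((d + 1).descFactorial m : ℝ) * x ^ (d - m)) ≤
      c / 2 * (((d + 1).descFactorial m : ℝ) * x ^ (d + 1 - m)) := by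
    rw [e1]
    nlinarith
  have h4 : Fm d c θ m x = c * (((d + 1).descFactorial m : ℝ) * x ^ (d + 1 - m)) +
    ∑ l : Fin d, θ l * ((((l : ℕ) + 1).descFactorial m : ℝ) * x ^ ((l : ℕ) + 1 - m)) := rfl
  constructor <;> rw [h4] <;> linarith [h1.1, h1.2]

/-- the phase and its derivatives -/
noncomputable def ph (d : ℕ) (c : ℝ) (θ : Fin d → ℝ) (B0 J : ℝ) (m : ℕ) (t : ℝ) : ℝ :=
  (-1) ^ (m + 1) * Fm d c θ m (B0 + J - t) / J ^ (d + 1)

theorem ph_der (d : ℕ) (c : ℝ) (θ : Fin d → ℝ) (B0 J : ℝ) (m : ℕ) (t : ℝ) :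
    HasDerivAt (ph d c θ B0 J m) (ph d c θ B0 J (m + 1) t) t := by
  have h2 : HasDerivAt (fun t : ℝ => B0 + J - t) (-1) t := by
    simpa using (hasDerivAt_id t).const_sub (B0 + J)
  have h3 := (((Fm_der d c θ m (B0 + J - t)).comp t h2).const_mul
    ((-1 : ℝ) ^ (m + 1))).div_const (J ^ (d + 1))
  refine h3.congr_deriv ?_
  unfold ph
  ring

theorem ph_hyp {d : ℕ} (hd : 4 ≤ d) {c B : ℝ} (hc : 0 < c) (hB : 0 ≤ B) {θ : Fin d → ℝ}
    (hθ : ∀ l, |θ l| ≤ B) {B0 J : ℝ} (hJ : 1 ≤ J) (hJ2 : 2 * (d * B) ≤ c * J) (h1 : 3 * J ≤ B0)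
    (h2 : B0 ≤ 10 * J) :
    Pool.Agent.H221R2.FB.Hyp (2 + 2) J (c / 2)
      (max 1 (3 * c / 2 * ((((d + 1 : ℕ) : ℝ) ^ (d + 1)) * 10 ^ (d + 1)))) (ph d c θ B0 J) := by
  refine ⟨fun m _ t _ => ph_der d c θ B0 J m t, fun m hm1 hm2 t ht => ?_⟩
  have hJ0 : 0 < J := by linarith
  set x : ℝ := B0 + J - t with hx
  have hx1 : J ≤ x := by rw [hx]; linarith [ht.2]
  have hx2 : x ≤ 10 * J := by rw [hx]; linarith [ht.1]
  have hmd : m ≤ d := by omega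
  have hF := Fm_bd (c := c) hB hθ hmd (x := x) (by linarith)
    (by nlinarith)
  have e1 : (-1) ^ (m + 1) * ph d c θ B0 J m t * J ^ m = Fm d c θ m x * J ^ m / J ^ (d + 1) := by
    unfold ph
    have h3 : ((-1 : ℝ) ^ (m + 1)) * (-1) ^ (m + 1) = 1 := by
      rw [← mul_pow]; norm_num
    calc _ = (((-1 : ℝ) ^ (m + 1)) * (-1) ^ (m + 1)) * (Fm d c θ m (B0 + J - t)) * J ^ m /
          J ^ (d + 1) := by ring
      _ = _ := by rw [h3, one_mul]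
  have e2 : J ^ (d + 1) = J ^ (d + 1 - m) * J ^ m := by
    rw [← pow_add]
    congr 1
    omega
  have e3 : Fm d c θ m x * J ^ m / J ^ (d + 1) = Fm d c θ m x / J ^ (d + 1 - m) := by
    rw [e2]
    field_simp
  rw [e1, e3]
  have hJp : 0 < J ^ (d + 1 - m) := by positivity
  have hd1 : (1 : ℝ) ≤ ((d + 1).descFactorial m : ℝ) := by
    exact_mod_cast Nat.descFactorial_pos.2 (by omega : m ≤ d + 1)
  have hd2 : ((d + 1).descFactorial m : ℝ) ≤ ((d + 1 : ℕ) : ℝ) ^ (d + 1) := by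
    have h5 : (d + 1).descFactorial m ≤ (d + 1) ^ m := Nat.descFactorial_le_pow (d + 1) m
    have h6 : (d + 1) ^ m ≤ (d + 1) ^ (d + 1) := Nat.pow_le_pow_right (by omega) (by omega)
    exact_mod_cast h5.trans h6
  have hp1 : J ^ (d + 1 - m) ≤ x ^ (d + 1 - m) := pow_le_pow_left₀ hJ0.le hx1 _
  have hp2 : x ^ (d + 1 - m) ≤ 10 ^ (d + 1) * J ^ (d + 1 - m) := by
    calc x ^ (d + 1 - m) ≤ (10 * J) ^ (d + 1 - m) := pow_le_pow_left₀ (by linarith) hx2 _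
      _ = 10 ^ (d + 1 - m) * J ^ (d + 1 - m) := mul_pow _ _ _
      _ ≤ 10 ^ (d + 1) * J ^ (d + 1 - m) := by
        refine mul_le_mul_of_nonneg_right ?_ hJp.le
        exact pow_le_pow_right₀ (by norm_num) (Nat.sub_le _ _)
  constructor
  · rw [le_div_iff₀ hJp]
    refine le_trans ?_ hF.1
    have : J ^ (d + 1 - m) ≤ ((d + 1).descFactorial m : ℝ) * x ^ (d + 1 - m) := by
      calc J ^ (d + 1 - m) = 1 * J ^ (d + 1 - m) := (one_mul _).symm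
        _ ≤ _ := mul_le_mul hd1 hp1 hJp.le (by positivity)
    exact mul_le_mul_of_nonneg_left this (by positivity)
  · refine le_trans ?_ (le_max_right _ _)
    rw [div_le_iff₀ hJp]
    refine hF.2.trans ?_
    have : ((d + 1).descFactorial m : ℝ) * x ^ (d + 1 - m) ≤
        ((d + 1 : ℕ) : ℝ) ^ (d + 1) * (10 ^ (d + 1) * J ^ (d + 1 - m)) :=
      mul_le_mul hd2 hp2 (by have : 0 ≤ x := by linarith
                             positivity) (by positivity)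
    calc 3 * c / 2 * (((d + 1).descFactorial m : ℝ) * x ^ (d + 1 - m)) ≤ 3 * c / 2 *
          (((d + 1 : ℕ) : ℝ) ^ (d + 1) * (10 ^ (d + 1) * J ^ (d + 1 - m))) :=
          mul_le_mul_of_nonneg_left this (by positivity)
      _ = _ := by ring


theorem flip' (g : ℕ → ℂ) (X : ℕ) :
    ∑ x ∈ Ico X (2 * X), g x = ∑ n ∈ range X, g (2 * X - 1 - n) := by
  refine sum_bij' (fun x _ => 2 * X - 1 - x) (fun n _ => 2 * X - 1 - n) ?_ ?_ ?_ ?_ ?_
  · intro x hx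
    rw [mem_Ico] at hx
    rw [mem_range]
    omega
  · intro n hn
    rw [mem_range] at hn
    rw [mem_Ico]
    omega
  · intro x hx
    rw [mem_Ico] at hx
    show 2 * X - 1 - (2 * X - 1 - x) = x
    omega
  · intro n hn
    rw [mem_range] at hn
    show 2 * X - 1 - (2 * X - 1 - n) = n
    omega
  · intro x hx
    rw [mem_Ico] at hx
    show g x = g (2 * X - 1 - (2 * X - 1 - x))
    congr 1
    omega

open Pool.Agent.H469R2.NK (norm_e norm_sum_neg)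
open Pool.Agent.N457.KW (exp_sum_boundE blocks e_eq)

/-- van der Corput's bound for one block -/
theorem vdc {d : ℕ} (hd : 4 ≤ d) {c B : ℝ} (hc : 0 < c) (hB : 0 < B) :
    ∃ C : ℝ, 0 < C ∧ ∃ X0 : ℕ, ∀ (X : ℕ) (θ : Fin d → ℝ) (t : ℝ), X0 ≤ X → (∀ l, |θ l| ≤ B) →
      0 < |t| → |t| * (X : ℝ) ^ (d - 1) ≤ 1 →
      ‖∑ x ∈ Ico X (2 * X), Pool.Agent.N604.MW.e (t * Fm d c θ 0 x)‖ ≤
        C * ((X : ℝ) ^ (31 / 32 : ℝ) + 1 / (|t| * (X : ℝ) ^ d)) := by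
  obtain ⟨C, hC, hmain⟩ := exp_sum_boundE 2 (by omega) (c / 2)
    (max 1 (3 * c / 2 * ((((d + 1 : ℕ) : ℝ) ^ (d + 1)) * 10 ^ (d + 1)))) (by positivity)
    (le_max_left _ _)
  obtain ⟨J0, hJ0'⟩ := exists_nat_ge (2 * (d * B) / c)
  refine ⟨6 * C * 5 ^ (d + 1) + 5 ^ (d + 1), by positivity, 16 + 5 * J0,
    fun X θ t hX hθ ht0 ht1 => ?_⟩
  have hX16 : 16 ≤ X := by omega
  have hXr : (16 : ℝ) ≤ X := by exact_mod_cast hX16
  have hX0 : (0 : ℝ) < X := by linarith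
  set J : ℕ := X / 4 with hJ
  have hJ1 : 4 * J ≤ X := by omega
  have hJ2 : X ≤ 4 * J + 3 := by omega
  have hJ4 : 4 ≤ J := by omega
  have hJJ0 : J0 ≤ J := by omega
  have hJr1 : 4 * (J : ℝ) ≤ X := by exact_mod_cast hJ1
  have hJr2 : (X : ℝ) ≤ 4 * J + 3 := by exact_mod_cast hJ2
  have hJr4 : (4 : ℝ) ≤ J := by exact_mod_cast hJ4
  have hJ0 : (0 : ℝ) < J := by linarith
  have hX5J : (X : ℝ) ≤ 5 * J := by linarith
  have hJB : 2 * (d * B) ≤ c * J := by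
    rw [div_le_iff₀ hc] at hJ0'
    have : (J0 : ℝ) ≤ J := by exact_mod_cast hJJ0
    nlinarith
  have h5k : (1 : ℝ) ≤ 5 ^ (d + 1) := one_le_pow₀ (by norm_num)
  have hXk : (0 : ℝ) < (X : ℝ) ^ (d + 1) := by positivity
  have hJk : (0 : ℝ) < (J : ℝ) ^ (d + 1) := by positivity
  have hXJk : (X : ℝ) ^ (d + 1) ≤ 5 ^ (d + 1) * (J : ℝ) ^ (d + 1) := by
    rw [← mul_pow]
    exact pow_le_pow_left₀ hX0.le hX5J (d + 1)
  set V : ℝ := 1 / (|t| * (X : ℝ) ^ d) with hV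
  have hV0 : 0 < V := by rw [hV]; positivity
  have hVX : V * (|t| * (X : ℝ) ^ (d + 1)) = X := by
    rw [hV, pow_succ]
    field_simp
  set Y : ℝ := (X : ℝ) ^ (31 / 32 : ℝ) with hY
  have hY0 : 0 < Y := by rw [hY]; positivity
  rw [flip']
  rcases lt_or_ge (|t| * (J : ℝ) ^ (d + 1)) 1 with hZ | hZ
  · -- trivial bound
    have h1 : ‖∑ n ∈ range X, Pool.Agent.N604.MW.e
        (t * Fm d c θ 0 ((2 * X - 1 - n : ℕ) : ℝ))‖ ≤ X := by
      refine (norm_sum_le _ _).trans ?_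
      simp only [e_eq, norm_e, sum_const, card_range, nsmul_eq_mul, mul_one]
      exact le_rfl
    have h2 : (X : ℝ) ≤ 5 ^ (d + 1) * V := by
      have h3 : |t| * (X : ℝ) ^ (d + 1) ≤ 5 ^ (d + 1) := by
        calc |t| * (X : ℝ) ^ (d + 1) ≤ |t| * (5 ^ (d + 1) * (J : ℝ) ^ (d + 1)) := by gcongr
          _ = 5 ^ (d + 1) * (|t| * (J : ℝ) ^ (d + 1)) := by ring
          _ ≤ 5 ^ (d + 1) * 1 := by gcongr
          _ = 5 ^ (d + 1) := mul_one _
      calc (X : ℝ) = V * (|t| * (X : ℝ) ^ (d + 1)) := hVX.symm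
        _ ≤ V * 5 ^ (d + 1) := by gcongr
        _ = _ := by ring
    refine h1.trans (h2.trans ?_)
    have h3 : 0 ≤ 6 * C * 5 ^ (d + 1) * (Y + V) := by positivity
    have h4 : 0 ≤ 5 ^ (d + 1) * Y := by positivity
    nlinarith
  · -- van der Corput
    have hZ2 : |t| * (J : ℝ) ^ (d + 1) ≤ (J : ℝ) ^ 2 := by
      have e1 : (J : ℝ) ^ (d + 1) = (J : ℝ) ^ (d - 1) * (J : ℝ) ^ 2 := by
        rw [← pow_add]
        congr 1
        omega
      have h1 : (J : ℝ) ^ (d - 1) ≤ (X : ℝ) ^ (d - 1) :=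
        pow_le_pow_left₀ hJ0.le (by linarith) _
      calc |t| * (J : ℝ) ^ (d + 1) = (|t| * (J : ℝ) ^ (d - 1)) * (J : ℝ) ^ 2 := by rw [e1]; ring
        _ ≤ (|t| * (X : ℝ) ^ (d - 1)) * (J : ℝ) ^ 2 := by gcongr
        _ ≤ 1 * (J : ℝ) ^ 2 := by gcongr
        _ = _ := one_mul _
    have hW : 0 ≤ C * 5 ^ (d + 1) * (Y + V) := by positivity
    have hb := blocks (fun n => Pool.Agent.N604.MW.e
      (t * Fm d c θ 0 ((2 * X - 1 - n : ℕ) : ℝ))) J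
      (C * 5 ^ (d + 1) * (Y + V)) hW 6 X (by omega) ?_
    · refine hb.trans ?_
      have : 0 ≤ 5 ^ (d + 1) * (Y + V) := by positivity
      push_cast
      linarith
    · intro a L hL haL
      have hB1 : 3 * (J : ℝ) ≤ ((2 * X - 1 - a : ℕ) : ℝ) := by
        exact_mod_cast (by omega : 3 * J ≤ 2 * X - 1 - a)
      have hB2 : ((2 * X - 1 - a : ℕ) : ℝ) ≤ 10 * (J : ℝ) := by
        exact_mod_cast (by omega : 2 * X - 1 - a ≤ 10 * J)
      have h1 := hmain J L J (|t| * (J : ℝ) ^ (d + 1)) (ph d c θ ((2 * X - 1 - a : ℕ) : ℝ) J)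
        (by omega) le_rfl hL
        (by
          have : (L : ℝ) ≤ J := by exact_mod_cast hL
          linarith) (ph_hyp hd hc hB.le hθ (by linarith) hJB hB1 hB2) hZ hZ2
      have h2 : ∀ n ∈ range L, (|t| * (J : ℝ) ^ (d + 1)) *
          ph d c θ ((2 * X - 1 - a : ℕ) : ℝ) J 0 (J + n) =
          -(|t| * Fm d c θ 0 ((2 * X - 1 - (a + n) : ℕ) : ℝ)) := by
        intro n hn
        rw [mem_range] at hn
        unfold ph
        have h3 : ((2 * X - 1 - (a + n) : ℕ) : ℝ) = ((2 * X - 1 - a : ℕ) : ℝ) - n := by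
          rw [show 2 * X - 1 - (a + n) = (2 * X - 1 - a) - n by omega, Nat.cast_sub (by omega)]
        rw [h3, zero_add, pow_one,
          show ((2 * X - 1 - a : ℕ) : ℝ) + J - (J + n) = ((2 * X - 1 - a : ℕ) : ℝ) - n by ring]
        field_simp
      have h4 : ‖∑ n ∈ range L, Pool.Agent.N604.MW.e
            (t * Fm d c θ 0 ((2 * X - 1 - (a + n) : ℕ) : ℝ))‖ =
          ‖∑ n ∈ range L, Pool.Agent.H469R2.NK.e ((|t| * (J : ℝ) ^ (d + 1)) *
            ph d c θ ((2 * X - 1 - a : ℕ) : ℝ) J 0 (J + n))‖ := by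
        have h5 : ∑ n ∈ range L, Pool.Agent.H469R2.NK.e ((|t| * (J : ℝ) ^ (d + 1)) *
            ph d c θ ((2 * X - 1 - a : ℕ) : ℝ) J 0 (J + n)) =
            ∑ n ∈ range L, Pool.Agent.H469R2.NK.e
              (-(|t| * Fm d c θ 0 ((2 * X - 1 - (a + n) : ℕ) : ℝ))) :=
          sum_congr rfl fun n hn => by rw [h2 n hn]
        rw [h5]
        simp only [e_eq]
        rcases le_or_gt 0 t with h | h
        · rw [abs_of_nonneg h, norm_sum_neg]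
        · rw [abs_of_neg h]
          congr 1
          refine sum_congr rfl fun n _ => ?_
          congr 1
          ring
      show ‖∑ n ∈ range L, Pool.Agent.N604.MW.e
        (t * Fm d c θ 0 ((2 * X - 1 - (a + n) : ℕ) : ℝ))‖ ≤ _
      rw [h4]
      refine h1.trans ?_
      have hY1 : (J : ℝ) ^ (1 - 1 / (4 * ((2 : ℕ) : ℝ) * 2 ^ 2)) ≤ Y := by
        have hexp : (1 : ℝ) - 1 / (4 * ((2 : ℕ) : ℝ) * 2 ^ 2) = 31 / 32 := by norm_num
        rw [hexp]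
        exact Real.rpow_le_rpow hJ0.le (by linarith) (by norm_num)
      have hV1 : (J : ℝ) / (|t| * (J : ℝ) ^ (d + 1)) ≤ 5 ^ (d + 1) * V := by
        rw [div_le_iff₀ (by positivity)]
        calc (J : ℝ) ≤ X := by linarith
          _ = V * (|t| * (X : ℝ) ^ (d + 1)) := hVX.symm
          _ ≤ V * (|t| * (5 ^ (d + 1) * (J : ℝ) ^ (d + 1))) := by gcongr
          _ = _ := by ring
      have hY2 : Y ≤ 5 ^ (d + 1) * Y := le_mul_of_one_le_left hY0.le h5k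
      calc C * ((J : ℝ) ^ (1 - 1 / (4 * ((2 : ℕ) : ℝ) * 2 ^ 2)) +
            (J : ℝ) / (|t| * (J : ℝ) ^ (d + 1))) ≤
            C * (5 ^ (d + 1) * Y + 5 ^ (d + 1) * V) := by
              gcongr
              exact hY1.trans hY2
        _ = _ := by ring


/-- the deterministic bound -/
theorem det {d : ℕ} (hd : 64 ≤ d) {c B : ℝ} (hc : 0 < c) (hB : 0 < B) :
    ∃ C : ℝ, 0 < C ∧ ∀ (X : ℕ) (θ : Fin d → ℝ) (t x0 : ℝ), (∀ l, |θ l| ≤ B) → 0 < |t| → 1 ≤ x0 →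
      |t| * x0 ^ (d + 1) = 1 → |t| * (X : ℝ) ^ (d - 1) ≤ 1 →
      ‖∑ x ∈ Ico X (2 * X), Pool.Agent.N604.MW.e (t * Fm d c θ 0 x)‖ ≤ C * x0 := by
  obtain ⟨C, hC, X0, hmain⟩ := vdc (d := d) (by omega) hc hB
  refine ⟨X0 + 1 + 2 * C, by positivity, fun X θ t x0 hθ ht hx0 hx h1 => ?_⟩
  have hX' : (0 : ℝ) ≤ X := Nat.cast_nonneg X
  have hX0' : (0 : ℝ) ≤ X0 := Nat.cast_nonneg X0
  have htriv : ‖∑ x ∈ Ico X (2 * X), Pool.Agent.N604.MW.e (t * Fm d c θ 0 x)‖ ≤ X := by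
    refine (norm_sum_le _ _).trans ?_
    simp only [e_eq, norm_e, sum_const, Nat.card_Ico, nsmul_eq_mul, mul_one]
    exact_mod_cast (by omega : 2 * X - X ≤ X)
  have hx00 : 0 < x0 := by linarith
  rcases lt_or_ge X X0 with hX | hX
  · have h2 : (X : ℝ) ≤ X0 := by exact_mod_cast hX.le
    nlinarith
  rcases le_or_gt (X : ℝ) x0 with h2 | h2
  · nlinarith
  have hXp : (0 : ℝ) < X := hx00.trans h2
  have hX1 : (1 : ℝ) ≤ X := hx0.trans h2.le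
  have h3 := hmain X θ t hX hθ ht h1
  have h4 : (X : ℝ) ^ (31 / 32 : ℝ) ≤ x0 := by
    have h5 : (X : ℝ) ^ (d - 1) ≤ x0 ^ (d + 1) := by
      have : |t| * (X : ℝ) ^ (d - 1) ≤ |t| * x0 ^ (d + 1) := by rw [hx]; exact h1
      exact le_of_mul_le_mul_left this ht
    have h6 : ((X : ℝ) ^ (31 / 32 : ℝ)) ^ (32 * (d - 1)) ≤ x0 ^ (32 * (d - 1)) := by
      have e1 : ((X : ℝ) ^ (31 / 32 : ℝ)) ^ (32 * (d - 1)) = ((X : ℝ) ^ (d - 1)) ^ 31 := by
        rw [← Real.rpow_natCast, ← Real.rpow_mul hX', ← pow_mul, ← Real.rpow_natCast]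
        congr 1
        push_cast
        ring
      rw [e1]
      calc ((X : ℝ) ^ (d - 1)) ^ 31 ≤ (x0 ^ (d + 1)) ^ 31 := pow_le_pow_left₀ (by positivity) h5 31
        _ = x0 ^ ((d + 1) * 31) := (pow_mul _ _ _).symm
        _ ≤ x0 ^ (32 * (d - 1)) := pow_le_pow_right₀ hx0 (by omega)
    exact le_of_pow_le_pow_left₀ (by omega) hx00.le h6
  have h7 : 1 / (|t| * (X : ℝ) ^ d) ≤ x0 := by
    rw [div_le_iff₀ (by positivity)]
    calc (1 : ℝ) = |t| * x0 ^ (d + 1) := hx.symm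
      _ = x0 * (|t| * x0 ^ d) := by ring
      _ ≤ x0 * (|t| * (X : ℝ) ^ d) := by gcongr
  nlinarith

open Pool.Agent.N604.MW (SG BX ZB Blk pk GM GMs e_continuous e_norm e_neg)

/-- the square of the absolute value of the sum over one signed block -/
theorem norm_sq' (d : ℕ) (c : ℝ) (X : ℕ) (s : ℤ) (t : ℝ) (θ : Fin d → ℝ) :
    ((‖∑ x ∈ Ico X (2 * X), Pool.Agent.N604.MW.e (t * pk d c θ (s * x))‖ ^ 2 : ℝ) : ℂ) =
    ∑ x ∈ Ico X (2 * X), ∑ y ∈ Ico X (2 * X),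
      Pool.Agent.N604.MW.e (t * (c * |((s * (x : ℤ) : ℤ) : ℝ)| ^ (d + 1) -
        c * |((s * (y : ℤ) : ℤ) : ℝ)| ^ (d + 1))) *
      Pool.Agent.N604.MW.e (∑ l : Fin d, θ l * (t * (((s * (x : ℤ) : ℤ) : ℝ) ^ ((l : ℕ) + 1) -
        ((s * (y : ℤ) : ℤ) : ℝ) ^ ((l : ℕ) + 1)))) := by
  have h1 : ((‖∑ x ∈ Ico X (2 * X), Pool.Agent.N604.MW.e (t * pk d c θ (s * x))‖ ^ 2 : ℝ) : ℂ) =
      (∑ x ∈ Ico X (2 * X), Pool.Agent.N604.MW.e (t * pk d c θ (s * x))) *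
        (starRingEnd ℂ) (∑ x ∈ Ico X (2 * X), Pool.Agent.N604.MW.e (t * pk d c θ (s * x))) := by
    rw [Complex.mul_conj, Complex.normSq_eq_norm_sq]
  rw [h1, map_sum, sum_mul_sum]
  refine sum_congr rfl fun x _ => sum_congr rfl fun y _ => ?_
  rw [← e_neg, ← Pool.Agent.N559.KV.e_add, ← Pool.Agent.N559.KV.e_add]
  congr 1
  unfold pk
  have h3 : ∑ l : Fin d, θ l * (t * (((s * (x : ℤ) : ℤ) : ℝ) ^ ((l : ℕ) + 1) -
        ((s * (y : ℤ) : ℤ) : ℝ) ^ ((l : ℕ) + 1))) =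
      t * ∑ l : Fin d, θ l * ((s * (x : ℤ) : ℤ) : ℝ) ^ ((l : ℕ) + 1) -
        t * ∑ l : Fin d, θ l * ((s * (y : ℤ) : ℤ) : ℝ) ^ ((l : ℕ) + 1) := by
    rw [mul_sum, mul_sum, ← sum_sub_distrib]
    exact sum_congr rfl fun l _ => by ring
  rw [h3]
  ring

theorem pk_cont (d : ℕ) (c : ℝ) (x : ℤ) : Continuous fun θ : Fin d → ℝ => pk d c θ x := by
  unfold pk; fun_prop

theorem blk_cont (d : ℕ) (c : ℝ) (A : Finset ℤ) (t : ℝ) :
    Continuous fun θ : Fin d → ℝ => SG A (pk d c θ) t := by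
  unfold SG
  exact continuous_finsetSum _ fun x _ => e_continuous.comp (continuous_const.mul (pk_cont d c x))

theorem sum_cont (d : ℕ) (c : ℝ) (X : ℕ) (s : ℤ) (t : ℝ) :
    Continuous fun θ : Fin d → ℝ => ∑ x ∈ Ico X (2 * X), Pool.Agent.N604.MW.e (t * pk d c θ (s * x)) :=
  continuous_finsetSum _ fun x _ => e_continuous.comp (continuous_const.mul (pk_cont d c _))

theorem gauss (h1 : Pool.Agent.N604.MW.S_CHAR) {d X : ℕ} (hd : 1 ≤ d) (hX : 1 ≤ X) (c : ℝ)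
    {s : ℤ} (hs : s = 1 ∨ s = -1) {t : ℝ} (ht : 1 ≤ |t| * (X : ℝ) ^ (d - 1)) :
    ∫⁻ θ, ENNReal.ofReal (‖∑ x ∈ Ico X (2 * X), Pool.Agent.N604.MW.e (t * pk d c θ (s * x))‖ ^ 2)
      ∂(GM d) ≤ ENNReal.ofReal (6 * X) := by
  have hX1 : (1 : ℝ) ≤ X := by exact_mod_cast hX
  have hprob : IsProbabilityMeasure (GM d) := by unfold GM; infer_instance
  have hcont := sum_cont d c X s t
  have hbd : ∀ θ, ‖(‖∑ x ∈ Ico X (2 * X), Pool.Agent.N604.MW.e (t * pk d c θ (s * x))‖ ^ 2 : ℝ)‖ ≤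
      (X : ℝ) ^ 2 := by
    intro θ
    rw [Real.norm_of_nonneg (by positivity)]
    refine pow_le_pow_left₀ (norm_nonneg _) ?_ 2
    refine (norm_sum_le _ _).trans ?_
    simp only [e_norm, sum_const, Nat.card_Ico, nsmul_eq_mul, mul_one]
    exact_mod_cast (by omega : 2 * X - X ≤ X)
  have hint : Integrable (fun θ => ‖∑ x ∈ Ico X (2 * X),
      Pool.Agent.N604.MW.e (t * pk d c θ (s * x))‖ ^ 2) (GM d) :=
    Integrable.of_bound (hcont.norm.pow 2).aestronglyMeasurable _ (Filter.Eventually.of_forall hbd)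
  rw [← ofReal_integral_eq_lintegral_ofReal hint (Filter.Eventually.of_forall fun θ => by positivity)]
  apply ENNReal.ofReal_le_ofReal
  set A : ℝ := |t| * (X : ℝ) ^ (d - 1) with hA
  have hA0 : 0 < A := by linarith
  have e1 : ((∫ θ, ‖∑ x ∈ Ico X (2 * X),
      Pool.Agent.N604.MW.e (t * pk d c θ (s * x))‖ ^ 2 ∂(GM d) : ℝ) : ℂ) =
      ∑ x ∈ Ico X (2 * X), ∑ y ∈ Ico X (2 * X),
      Pool.Agent.N604.MW.e (t * (c * |((s * (x : ℤ) : ℤ) : ℝ)| ^ (d + 1) -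
        c * |((s * (y : ℤ) : ℤ) : ℝ)| ^ (d + 1))) * ((Real.exp (-(2 * Real.pi ^ 2 *
        ∑ l : Fin d, (t * (((s * (x : ℤ) : ℤ) : ℝ) ^ ((l : ℕ) + 1) -
        ((s * (y : ℤ) : ℤ) : ℝ) ^ ((l : ℕ) + 1))) ^ 2)) : ℝ) : ℂ) := by
    rw [← integral_complex_ofReal]
    have e2 : ∀ x y : ℕ, Integrable (fun θ : Fin d → ℝ =>
        Pool.Agent.N604.MW.e (t * (c * |((s * (x : ℤ) : ℤ) : ℝ)| ^ (d + 1) -
        c * |((s * (y : ℤ) : ℤ) : ℝ)| ^ (d + 1))) *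
      Pool.Agent.N604.MW.e (∑ l : Fin d, θ l * (t * (((s * (x : ℤ) : ℤ) : ℝ) ^ ((l : ℕ) + 1) -
        ((s * (y : ℤ) : ℤ) : ℝ) ^ ((l : ℕ) + 1))))) (GM d) := by
      intro x y
      refine Integrable.const_mul ?_ _
      exact Integrable.of_bound (e_continuous.comp (by fun_prop)).aestronglyMeasurable 1
        (Filter.Eventually.of_forall fun _ => (e_norm _).le)
    simp only [norm_sq']
    rw [integral_finsetSum _ fun x _ => integrable_finsetSum _ fun y _ => e2 x y]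
    refine sum_congr rfl fun x _ => ?_
    rw [integral_finsetSum _ fun y _ => e2 x y]
    refine sum_congr rfl fun y _ => ?_
    rw [integral_const_mul, h1 d]
  have h3 : ∫ θ, ‖∑ x ∈ Ico X (2 * X),
      Pool.Agent.N604.MW.e (t * pk d c θ (s * x))‖ ^ 2 ∂(GM d) ≤
      ‖((∫ θ, ‖∑ x ∈ Ico X (2 * X),
      Pool.Agent.N604.MW.e (t * pk d c θ (s * x))‖ ^ 2 ∂(GM d) : ℝ) : ℂ)‖ := by
    rw [Complex.norm_real]
    exact le_abs_self _
  refine h3.trans ?_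
  rw [e1]
  refine (norm_sum_le _ _).trans ?_
  have h4 : ∀ x ∈ Ico X (2 * X), ∀ y ∈ Ico X (2 * X),
      ‖Pool.Agent.N604.MW.e (t * (c * |((s * (x : ℤ) : ℤ) : ℝ)| ^ (d + 1) -
        c * |((s * (y : ℤ) : ℤ) : ℝ)| ^ (d + 1))) * ((Real.exp (-(2 * Real.pi ^ 2 *
        ∑ l : Fin d, (t * (((s * (x : ℤ) : ℤ) : ℝ) ^ ((l : ℕ) + 1) -
        ((s * (y : ℤ) : ℤ) : ℝ) ^ ((l : ℕ) + 1))) ^ 2)) : ℝ) : ℂ)‖ ≤
      1 / (1 + (A * |(x : ℝ) - y|) ^ 2) := by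
    intro x hx y hy
    rw [mem_Ico] at hx hy
    rw [norm_mul, e_norm, one_mul, Complex.norm_real, Real.norm_of_nonneg (Real.exp_pos _).le]
    have h6 : (t * (((s * (x : ℤ) : ℤ) : ℝ) ^ d - ((s * (y : ℤ) : ℤ) : ℝ) ^ d)) ^ 2 ≤
        ∑ l : Fin d, (t * (((s * (x : ℤ) : ℤ) : ℝ) ^ ((l : ℕ) + 1) -
        ((s * (y : ℤ) : ℤ) : ℝ) ^ ((l : ℕ) + 1))) ^ 2 := by
      have h7 := single_le_sum (f := fun l : Fin d =>
        (t * (((s * (x : ℤ) : ℤ) : ℝ) ^ ((l : ℕ) + 1) -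
        ((s * (y : ℤ) : ℤ) : ℝ) ^ ((l : ℕ) + 1))) ^ 2)
        (fun l _ => sq_nonneg _) (mem_univ (⟨d - 1, by omega⟩ : Fin d))
      have h8 : d - 1 + 1 = d := by omega
      simp only [h8] at h7
      exact h7
    have h6' : (t * (((s * (x : ℤ) : ℤ) : ℝ) ^ d - ((s * (y : ℤ) : ℤ) : ℝ) ^ d)) ^ 2 =
        (t * ((x : ℝ) ^ d - (y : ℝ) ^ d)) ^ 2 := by
      have e3 : ((s : ℝ) ^ d) ^ 2 = 1 := by
        rcases hs with h | h
        · rw [h]; simp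
        · rw [h, ← pow_mul, mul_comm, pow_mul]; simp
      have e4 : ((s * (x : ℤ) : ℤ) : ℝ) ^ d - ((s * (y : ℤ) : ℤ) : ℝ) ^ d =
          (s : ℝ) ^ d * ((x : ℝ) ^ d - (y : ℝ) ^ d) := by
        push_cast
        rw [mul_pow, mul_pow]
        ring
      rw [e4]
      calc (t * ((s : ℝ) ^ d * ((x : ℝ) ^ d - (y : ℝ) ^ d))) ^ 2 =
          ((s : ℝ) ^ d) ^ 2 * (t * ((x : ℝ) ^ d - (y : ℝ) ^ d)) ^ 2 := by ring
        _ = _ := by rw [e3, one_mul]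
    have h9 : (A * |(x : ℝ) - y|) ^ 2 ≤ (t * ((x : ℝ) ^ d - (y : ℝ) ^ d)) ^ 2 := by
      rw [← sq_abs (t * _), abs_mul]
      refine pow_le_pow_left₀ (by positivity) ?_ 2
      rw [hA, mul_assoc]
      exact mul_le_mul_of_nonneg_left (Pool.Agent.N559.KV.pow_diff_abs hd hx.1 hy.1)
        (abs_nonneg _)
    have hpi : 1 ≤ 2 * Real.pi ^ 2 := by nlinarith [Real.pi_gt_three]
    rw [Real.exp_neg, ← one_div]
    apply one_div_le_one_div_of_le (by positivity)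
    have h10 := Real.add_one_le_exp (2 * Real.pi ^ 2 *
      ∑ l : Fin d, (t * (((s * (x : ℤ) : ℤ) : ℝ) ^ ((l : ℕ) + 1) -
        ((s * (y : ℤ) : ℤ) : ℝ) ^ ((l : ℕ) + 1))) ^ 2)
    have h11 : (A * |(x : ℝ) - y|) ^ 2 ≤ 2 * Real.pi ^ 2 *
      ∑ l : Fin d, (t * (((s * (x : ℤ) : ℤ) : ℝ) ^ ((l : ℕ) + 1) -
        ((s * (y : ℤ) : ℤ) : ℝ) ^ ((l : ℕ) + 1))) ^ 2 := by
      have h12 := (h9.trans h6'.ge).trans h6
      have h13 : (0 : ℝ) ≤ (A * |(x : ℝ) - y|) ^ 2 := sq_nonneg _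
      nlinarith
    linarith
  have h14 : ∀ x ∈ Ico X (2 * X), ‖∑ y ∈ Ico X (2 * X),
      Pool.Agent.N604.MW.e (t * (c * |((s * (x : ℤ) : ℤ) : ℝ)| ^ (d + 1) -
        c * |((s * (y : ℤ) : ℤ) : ℝ)| ^ (d + 1))) * ((Real.exp (-(2 * Real.pi ^ 2 *
        ∑ l : Fin d, (t * (((s * (x : ℤ) : ℤ) : ℝ) ^ ((l : ℕ) + 1) -
        ((s * (y : ℤ) : ℤ) : ℝ) ^ ((l : ℕ) + 1))) ^ 2)) : ℝ) : ℂ)‖ ≤ 6 := by
    intro x hx
    refine (norm_sum_le _ _).trans ?_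
    refine (sum_le_sum fun y hy => h4 x hx y hy).trans ?_
    have hx' : x ∈ Icc X (2 * X) := by
      rw [mem_Ico] at hx
      rw [mem_Icc]
      omega
    have hsub : Ico X (2 * X) ⊆ Icc X (2 * X) := Ico_subset_Icc_self
    refine (sum_le_sum_of_subset_of_nonneg hsub fun y _ _ => by positivity).trans ?_
    refine (Pool.Agent.N559.KV.sum_y hA0 hx').trans ?_
    have : 2 / A ≤ 2 := by
      rw [div_le_iff₀ hA0]
      linarith
    linarith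
  refine (sum_le_card_nsmul _ _ _ h14).trans ?_
  rw [Nat.card_Ico, nsmul_eq_mul]
  have h15 : ((2 * X - X : ℕ) : ℝ) ≤ X := by
    exact_mod_cast (by omega : 2 * X - X ≤ X)
  linarith


/-- the integers of absolute value less than `P` -/
theorem sum_Ioo (P : ℕ) (g : ℤ → ℂ) : ∑ x ∈ Ioo (-(P : ℤ)) P, g x =
    ∑ n ∈ range P, g n + ∑ n ∈ Ico 1 P, g (-(n : ℤ)) := by
  have h1 : Ioo (-(P : ℤ)) P = (range P).image (fun n : ℕ => (n : ℤ)) ∪
      (Ico 1 P).image (fun n : ℕ => -(n : ℤ)) := by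
    ext x
    simp only [mem_Ioo, mem_union, mem_image, mem_range, mem_Ico]
    constructor
    · intro h
      rcases le_or_gt 0 x with h2 | h2
      · left
        exact ⟨x.toNat, by omega, by omega⟩
      · right
        exact ⟨(-x).toNat, by omega, by omega⟩
    · rintro (⟨n, h, rfl⟩ | ⟨n, h, rfl⟩) <;> omega
  rw [h1, sum_union, sum_image, sum_image]
  · intro a _ b _ hab
    simp only at hab
    omega
  · intro a _ b _ hab
    simp only at hab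
    omega
  · rw [disjoint_left]
    intro x hx hx2
    rw [mem_image] at hx hx2
    obtain ⟨a, _, ha⟩ := hx
    obtain ⟨b, hb, hb'⟩ := hx2
    rw [mem_Ico] at hb
    omega

theorem dyad (G : ℕ → ℂ) (ν : ℕ) :
    ∑ n ∈ Ico 1 (2 ^ ν), G n = ∑ a ∈ range ν, ∑ n ∈ Ico (2 ^ a) (2 * 2 ^ a), G n := by
  induction ν with
  | zero => simp
  | succ ν ih =>
    have h1 : 1 ≤ 2 ^ ν := Nat.one_le_two_pow
    rw [sum_range_succ, ← ih, pow_succ, mul_comm (2 ^ ν) 2]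
    exact (sum_Ico_consecutive G h1 (by omega)).symm

/-- the sum over one signed block -/
noncomputable def Tb (d : ℕ) (c t : ℝ) (s : ℤ) (a : ℕ) (θ : Fin d → ℝ) : ℂ :=
  ∑ x ∈ Ico (2 ^ a) (2 * 2 ^ a), Pool.Agent.N604.MW.e (t * pk d c θ (s * (x : ℕ)))

theorem SG_eq (d : ℕ) (c t : ℝ) (ν : ℕ) (θ : Fin d → ℝ) : SG (BX ν) (pk d c θ) t =
    Pool.Agent.N604.MW.e (t * pk d c θ 0) + ∑ a ∈ range ν, (Tb d c t 1 a θ + Tb d c t (-1) a θ) := by
  unfold SG BX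
  have hP : (2 ^ ν : ℤ) = ((2 ^ ν : ℕ) : ℤ) := by push_cast; rfl
  have h1 : 1 ≤ 2 ^ ν := Nat.one_le_two_pow
  rw [hP, sum_Ioo (2 ^ ν) fun x => Pool.Agent.N604.MW.e (t * pk d c θ x), sum_add_distrib]
  have e1 : ∑ n ∈ range (2 ^ ν), Pool.Agent.N604.MW.e (t * pk d c θ (n : ℤ)) =
      Pool.Agent.N604.MW.e (t * pk d c θ 0) +
        ∑ n ∈ Ico (1 : ℕ) (2 ^ ν), Pool.Agent.N604.MW.e (t * pk d c θ (n : ℤ)) := by
    rw [range_eq_Ico, sum_eq_sum_Ico_succ_bot (by omega)]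
    simp
  rw [e1, dyad, dyad, add_assoc]
  unfold Tb
  simp only [one_mul, neg_mul]

theorem pk_eq (d : ℕ) (c : ℝ) (θ : Fin d → ℝ) {s : ℤ} (hs : s = 1 ∨ s = -1) (x : ℕ) :
    pk d c θ (s * (x : ℕ)) = Fm d c (fun l => θ l * (s : ℝ) ^ ((l : ℕ) + 1)) 0 x := by
  unfold pk Fm
  have hs1 : |(s : ℝ)| = 1 := by
    rcases hs with h | h <;> rw [h] <;> simp
  congr 1
  · push_cast
    rw [abs_mul, hs1, one_mul, Nat.abs_cast]
    simp
  · refine sum_congr rfl fun l _ => ?_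
    push_cast
    rw [mul_pow, Nat.descFactorial_zero, Nat.cast_one]
    ring

theorem Tb_int (h1 : Pool.Agent.N604.MW.S_CHAR) {d : ℕ} (hd : 64 ≤ d) {c B : ℝ} (hc : 0 < c)
    (hB : 0 < B) : ∃ C : ℝ, 1 ≤ C ∧ ∀ (ν a : ℕ) (s : ℤ) (t x0 : ℝ), a < ν → (s = 1 ∨ s = -1) →
      0 < |t| → 1 ≤ x0 → |t| * x0 ^ (d + 1) = 1 →
      ∫⁻ θ in {θ : Fin d → ℝ | ∀ l, |θ l| ≤ B}, ENNReal.ofReal (‖Tb d c t s a θ‖ ^ 2) ∂(GM d) ≤
        ENNReal.ofReal (C * ((2 : ℝ) ^ ν + x0 ^ 2)) := by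
  obtain ⟨C, hC, hdet⟩ := det hd hc hB
  have hprob : IsProbabilityMeasure (GM d) := by unfold GM; infer_instance
  refine ⟨6 + C ^ 2, by nlinarith [sq_nonneg C], fun ν a s t x0 ha hs ht hx0 hx => ?_⟩
  have h2a : (1 : ℝ) ≤ 2 ^ a := one_le_pow₀ (by norm_num)
  have h2ν : (2 : ℝ) ^ a ≤ 2 ^ ν := pow_le_pow_right₀ (by norm_num) ha.le
  rcases le_or_gt (|t| * (((2 ^ a : ℕ) : ℝ)) ^ (d - 1)) 1 with h2 | h2
  · have hS : MeasurableSet {θ : Fin d → ℝ | ∀ l, |θ l| ≤ B} := by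
      have : {θ : Fin d → ℝ | ∀ l, |θ l| ≤ B} = ⋂ l, {θ : Fin d → ℝ | |θ l| ≤ B} := by
        ext θ; simp
      rw [this]
      exact MeasurableSet.iInter fun l =>
        measurableSet_le (by fun_prop) measurable_const
    have h3 : ∀ θ ∈ {θ : Fin d → ℝ | ∀ l, |θ l| ≤ B}, ENNReal.ofReal (‖Tb d c t s a θ‖ ^ 2) ≤
        ENNReal.ofReal (C ^ 2 * x0 ^ 2) := by
      intro θ hθ
      apply ENNReal.ofReal_le_ofReal
      rw [← mul_pow]
      refine pow_le_pow_left₀ (norm_nonneg _) ?_ 2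
      have h4 := hdet (2 ^ a) (fun l => θ l * (s : ℝ) ^ ((l : ℕ) + 1)) t x0 ?_ ht hx0 hx h2
      · unfold Tb
        simp only [pk_eq d c θ hs]
        exact h4
      · intro l
        have hs1 : |(s : ℝ)| = 1 := by
          rcases hs with h | h <;> rw [h] <;> simp
        rw [abs_mul, abs_pow, hs1, one_pow, mul_one]
        exact hθ l
    refine (setLIntegral_mono' hS h3).trans ?_
    rw [setLIntegral_const]
    refine (mul_le_mul' le_rfl prob_le_one).trans ?_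
    rw [mul_one]
    apply ENNReal.ofReal_le_ofReal
    have h5 : (0 : ℝ) ≤ 2 ^ ν := by positivity
    nlinarith [sq_nonneg C, sq_nonneg x0]
  · refine (setLIntegral_le_lintegral _ _).trans ?_
    have h3 := gauss h1 (d := d) (X := 2 ^ a) (by omega) Nat.one_le_two_pow c hs h2.le
    refine h3.trans (ENNReal.ofReal_le_ofReal ?_)
    push_cast
    nlinarith [sq_nonneg C, sq_nonneg x0]

theorem Tb_cont (d : ℕ) (c t : ℝ) (s : ℤ) (a : ℕ) : Continuous fun θ => Tb d c t s a θ :=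
  sum_cont d c (2 ^ a) s t

/-- the part AK/KL2 -/
theorem kl2 : Pool.Agent.N604.MW.S_KL2 := by
  intro d c B hd hc hB
  obtain ⟨C, hC, hT⟩ := Tb_int Pool.Agent.N700.KVChar.charT hd hc hB
  refine ⟨8 * C, by positivity, fun ν t ht ht1 => ?_⟩
  have hprob : IsProbabilityMeasure (GM d) := by unfold GM; infer_instance
  set x0 : ℝ := |t| ^ (-(1 / ((d : ℝ) + 1))) with hx0def
  have hd0 : (0 : ℝ) < (d : ℝ) + 1 := by positivity
  have hx0 : 1 ≤ x0 := by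
    rw [hx0def]
    exact Real.one_le_rpow_of_pos_of_le_one_of_nonpos ht ht1 (by
      have : 0 < 1 / ((d : ℝ) + 1) := by positivity
      linarith)
  have hx : |t| * x0 ^ (d + 1) = 1 := by
    rw [hx0def, ← Real.rpow_natCast, ← Real.rpow_mul ht.le]
    have : -(1 / ((d : ℝ) + 1)) * ((d + 1 : ℕ) : ℝ) = -1 := by
      push_cast
      field_simp
    rw [this, Real.rpow_neg_one, mul_inv_cancel₀ ht.ne']
  have hx2 : x0 ^ 2 = |t| ^ (-(2 / ((d : ℝ) + 1))) := by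
    rw [hx0def, ← Real.rpow_natCast, ← Real.rpow_mul ht.le]
    congr 1
    push_cast
    ring
  rw [← hx2]
  set S : Set (Fin d → ℝ) := {θ : Fin d → ℝ | ∀ l, |θ l| ≤ B} with hS
  set M : ℝ := C * ((2 : ℝ) ^ ν + x0 ^ 2) with hM
  have hM1 : 1 ≤ M := by
    rw [hM]
    have h1 : (1 : ℝ) ≤ 2 ^ ν := one_le_pow₀ (by norm_num)
    nlinarith [sq_nonneg x0]
  have hM0 : 0 ≤ M := by linarith
  -- the pointwise bound
  have hpt : ∀ θ, ENNReal.ofReal (‖SG (BX ν) (pk d c θ) t‖ ^ 2) ≤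
      ENNReal.ofReal (2 * ((ν : ℝ) + 1)) * (1 + ∑ a ∈ range ν,
        (ENNReal.ofReal (‖Tb d c t 1 a θ‖ ^ 2) + ENNReal.ofReal (‖Tb d c t (-1) a θ‖ ^ 2))) := by
    intro θ
    have h1 : ‖SG (BX ν) (pk d c θ) t‖ ^ 2 ≤ (2 * ((ν : ℝ) + 1)) * (1 + ∑ a ∈ range ν,
        (‖Tb d c t 1 a θ‖ ^ 2 + ‖Tb d c t (-1) a θ‖ ^ 2)) := by
      have h2 : ‖SG (BX ν) (pk d c θ) t‖ ≤ 1 + ∑ a ∈ range ν,
          (‖Tb d c t 1 a θ‖ + ‖Tb d c t (-1) a θ‖) := by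
        rw [SG_eq]
        refine (norm_add_le _ _).trans ?_
        rw [e_norm]
        refine add_le_add le_rfl ((norm_sum_le _ _).trans (sum_le_sum fun a _ => norm_add_le _ _))
      have h3 := sq_sum_le_card_mul_sum_sq (s := range ν)
        (f := fun a => ‖Tb d c t 1 a θ‖ + ‖Tb d c t (-1) a θ‖)
      rw [card_range] at h3
      have h4 : ∑ a ∈ range ν, (‖Tb d c t 1 a θ‖ + ‖Tb d c t (-1) a θ‖) ^ 2 ≤
          2 * ∑ a ∈ range ν, (‖Tb d c t 1 a θ‖ ^ 2 + ‖Tb d c t (-1) a θ‖ ^ 2) := by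
        rw [mul_sum]
        refine sum_le_sum fun a _ => ?_
        nlinarith [sq_nonneg (‖Tb d c t 1 a θ‖ - ‖Tb d c t (-1) a θ‖)]
      have h5 : (0 : ℝ) ≤ ν := Nat.cast_nonneg ν
      have h6 : ‖SG (BX ν) (pk d c θ) t‖ ^ 2 ≤ (1 + ∑ a ∈ range ν,
          (‖Tb d c t 1 a θ‖ + ‖Tb d c t (-1) a θ‖)) ^ 2 := pow_le_pow_left₀ (norm_nonneg _) h2 2
      set q := ∑ a ∈ range ν, (‖Tb d c t 1 a θ‖ + ‖Tb d c t (-1) a θ‖) with hq
      set r := ∑ a ∈ range ν, (‖Tb d c t 1 a θ‖ ^ 2 + ‖Tb d c t (-1) a θ‖ ^ 2) with hr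
      have h7 : q ^ 2 ≤ ν * (2 * r) := h3.trans (mul_le_mul_of_nonneg_left h4 h5)
      have hr0 : 0 ≤ r := sum_nonneg fun a _ => by positivity
      have h8 : (1 + q) ^ 2 ≤ (ν + 1) * (1 + 2 * r) := by
        rcases Nat.eq_zero_or_pos ν with h9 | h9
        · have : q = 0 := by rw [hq, h9]; simp
          rw [this]
          nlinarith
        · have h9' : (1 : ℝ) ≤ ν := by exact_mod_cast h9
          have h10 : (ν : ℝ) * (1 + q) ^ 2 ≤ ν * ((ν + 1) * (1 + 2 * r)) := by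
            nlinarith [sq_nonneg (q - ν)]
          exact le_of_mul_le_mul_left h10 (by linarith)
      refine h6.trans (h8.trans ?_)
      nlinarith
    refine (ENNReal.ofReal_le_ofReal h1).trans ?_
    rw [ENNReal.ofReal_mul (by positivity), ENNReal.ofReal_add (by norm_num)
      (sum_nonneg fun a _ => by positivity), ENNReal.ofReal_one,
      ENNReal.ofReal_sum_of_nonneg fun a _ => by positivity]
    refine mul_le_mul' le_rfl (add_le_add le_rfl (sum_le_sum fun a _ => ?_))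
    rw [ENNReal.ofReal_add (by positivity) (by positivity)]
  have hm : ∀ (s : ℤ) (a : ℕ), Measurable fun θ => ENNReal.ofReal (‖Tb d c t s a θ‖ ^ 2) := fun s a =>
    ((Tb_cont d c t s a).norm.measurable.pow_const 2).ennreal_ofReal
  have hm2 : ∀ a : ℕ, Measurable fun θ => ENNReal.ofReal (‖Tb d c t 1 a θ‖ ^ 2) +
      ENNReal.ofReal (‖Tb d c t (-1) a θ‖ ^ 2) := fun a => (hm 1 a).add (hm (-1) a)
  calc ∫⁻ θ in S, ENNReal.ofReal (‖SG (BX ν) (pk d c θ) t‖ ^ 2) ∂(GM d)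
      ≤ ∫⁻ θ in S, ENNReal.ofReal (2 * ((ν : ℝ) + 1)) * (1 + ∑ a ∈ range ν,
        (ENNReal.ofReal (‖Tb d c t 1 a θ‖ ^ 2) + ENNReal.ofReal (‖Tb d c t (-1) a θ‖ ^ 2)))
          ∂(GM d) := lintegral_mono hpt
    _ = ENNReal.ofReal (2 * ((ν : ℝ) + 1)) * (∫⁻ θ in S, 1 ∂(GM d) + ∑ a ∈ range ν,
        (∫⁻ θ in S, ENNReal.ofReal (‖Tb d c t 1 a θ‖ ^ 2) ∂(GM d) +
          ∫⁻ θ in S, ENNReal.ofReal (‖Tb d c t (-1) a θ‖ ^ 2) ∂(GM d))) := by
        rw [lintegral_const_mul' _ _ ENNReal.ofReal_ne_top, lintegral_add_left measurable_const,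
          lintegral_finsetSum _ fun a _ => hm2 a]
        congr 2
        refine sum_congr rfl fun a _ => ?_
        rw [lintegral_add_left (hm 1 a)]
    _ ≤ ENNReal.ofReal (2 * ((ν : ℝ) + 1)) * (ENNReal.ofReal M + ∑ a ∈ range ν,
        (ENNReal.ofReal M + ENNReal.ofReal M)) := by
        refine mul_le_mul' le_rfl (add_le_add ?_ (sum_le_sum fun a ha => ?_))
        · rw [setLIntegral_const, one_mul]
          refine prob_le_one.trans ?_
          rw [← ENNReal.ofReal_one]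
          exact ENNReal.ofReal_le_ofReal hM1
        · rw [mem_range] at ha
          exact add_le_add (hT ν a 1 t x0 ha (Or.inl rfl) ht hx0 hx)
            (hT ν a (-1) t x0 ha (Or.inr rfl) ht hx0 hx)
    _ = ENNReal.ofReal (2 * ((ν : ℝ) + 1) * (M + ν * (M + M))) := by
        rw [ENNReal.ofReal_mul (p := 2 * ((ν : ℝ) + 1)) (q := M + ν * (M + M)) (by positivity),
          ENNReal.ofReal_add hM0 (by positivity),
          ENNReal.ofReal_mul (p := (ν : ℝ)) (by positivity), ENNReal.ofReal_add hM0 hM0, sum_const,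
          card_range, nsmul_eq_mul, ENNReal.ofReal_natCast]
    _ ≤ ENNReal.ofReal (8 * C * ((ν : ℝ) + 1) ^ 4 * ((2 : ℝ) ^ ν + x0 ^ 2)) := by
        apply ENNReal.ofReal_le_ofReal
        have h5 : (0 : ℝ) ≤ ν := Nat.cast_nonneg ν
        have e1 : 8 * C * ((ν : ℝ) + 1) ^ 4 * ((2 : ℝ) ^ ν + x0 ^ 2) = 8 * ((ν : ℝ) + 1) ^ 4 * M := by
          rw [hM]; ring
        rw [e1]
        have h6 : ((ν : ℝ) + 1) ^ 2 ≤ ((ν : ℝ) + 1) ^ 4 := pow_le_pow_right₀ (by linarith) (by norm_num)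
        have h7 : 2 * ((ν : ℝ) + 1) * (M + ν * (M + M)) ≤ 8 * ((ν : ℝ) + 1) ^ 2 * M := by
          have : 2 * ((ν : ℝ) + 1) * (M + ν * (M + M)) = 2 * ((ν : ℝ) + 1) * (1 + 2 * ν) * M := by ring
          rw [this]
          refine mul_le_mul_of_nonneg_right ?_ hM0
          nlinarith
        refine h7.trans (mul_le_mul_of_nonneg_right ?_ hM0)
        linarith

end Pool.Agent.N910.AK
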