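import Pool.Agent.N910.HalfTurnDefs

set_option autoImplicit false
set_option linter.unusedSectionVars false

/-!
3-graphs on `Fin k × E` (`k` layers, each a copy of the finite abelian group `E`) which are
invariant under all half-turns `(i, x) ↦ (i, s - x)`.
-/

namespace Pool.Agent.N910.HalfTurn

open Finset

section Basic

variable {V : Type} [DecidableEq V]

lemma ne_of_mem {H : Finset (Finset V)} (h3 : ThreeGraph H) {a b c : V}
    (h : ({a, b, c} : Finset V) ∈ H) : a ≠ b ∧ a ≠ c ∧ b ≠ c := by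
  have h1 := h3 _ h
  exact Finset.card_eq_three_iff_ne h1
where
  Finset.card_eq_three_iff_ne {a b c : V} (h1 : ({a, b, c} : Finset V).card = 3) :
      a ≠ b ∧ a ≠ c ∧ b ≠ c := by
    refine ⟨?_, ?_, ?_⟩
    · rintro rfl
      have : ({a, a, c} : Finset V) = {a, c} := by simp
      rw [this] at h1
      have := Finset.card_le_two (a := a) (b := c)
      omega
    · rintro rfl
      have : ({a, b, a} : Finset V) = {a, b} := by
        ext x; simp only [mem_insert, mem_singleton]; tauto
      rw [this] at h1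
      have := Finset.card_le_two (a := a) (b := b)
      omega
    · rintro rfl
      have : ({a, b, b} : Finset V) = {a, b} := by simp
      rw [this] at h1
      have := Finset.card_le_two (a := a) (b := b)
      omega

lemma swap12 (a b c : V) : ({a, b, c} : Finset V) = {b, a, c} := by
  ext x; simp only [mem_insert, mem_singleton]; tauto

lemma swap23 (a b c : V) : ({a, b, c} : Finset V) = {a, c, b} := by
  ext x; simp only [mem_insert, mem_singleton]; tauto

lemma rev (a b c : V) : ({a, b, c} : Finset V) = {c, b, a} := by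
  ext x; simp only [mem_insert, mem_singleton]; tauto

lemma noK4 {H : Finset (Finset V)} (h3 : ThreeGraph H) (hK : K43Free H) {a b c d : V}
    (h1 : ({a, b, c} : Finset V) ∈ H) (h2 : ({a, b, d} : Finset V) ∈ H)
    (h4 : ({a, c, d} : Finset V) ∈ H) (h5 : ({b, c, d} : Finset V) ∈ H) : False := by
  obtain ⟨hab, hac, hbc⟩ := ne_of_mem h3 h1
  obtain ⟨-, had, hbd⟩ := ne_of_mem h3 h2
  obtain ⟨-, -, hcd⟩ := ne_of_mem h3 h4
  have hS : ({a, b, c, d} : Finset V).card = 4 := by
    rw [Finset.card_insert_of_notMem, Finset.card_insert_of_notMem, Finset.card_insert_of_notMem,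
      Finset.card_singleton]
    · simpa using hcd
    · simp [hbc, hbd]
    · simp [hab, hac, had]
  obtain ⟨e, heS, he3, heH⟩ := hK _ hS
  have hne : ∃ x ∈ ({a, b, c, d} : Finset V), x ∉ e := by
    by_contra hcon
    push Not at hcon
    have := Finset.card_le_card (fun x hx => hcon x hx : ({a, b, c, d} : Finset V) ⊆ e)
    omega
  obtain ⟨x, hx, hxe⟩ := hne
  have hee : e = ({a, b, c, d} : Finset V).erase x := by
    apply Finset.eq_of_subset_of_card_le
    · intro y hy
      exact Finset.mem_erase.2 ⟨fun h => hxe (h ▸ hy), heS hy⟩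
    · rw [Finset.card_erase_of_mem hx, hS, he3]
  simp only [mem_insert, mem_singleton] at hx
  apply heH
  rw [hee]
  rcases hx with rfl | rfl | rfl | rfl
  · have : ({x, b, c, d} : Finset V).erase x = {b, c, d} := by
      ext y; simp only [mem_erase, mem_insert, mem_singleton]
      constructor
      · tauto
      · rintro (rfl | rfl | rfl) <;> simp_all
    rw [this]; exact h5
  · have : ({a, x, c, d} : Finset V).erase x = {a, c, d} := by
      ext y; simp only [mem_erase, mem_insert, mem_singleton]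
      constructor
      · tauto
      · rintro (rfl | rfl | rfl)
        · exact ⟨hab, by tauto⟩
        · exact ⟨Ne.symm hbc, by tauto⟩
        · exact ⟨Ne.symm hbd, by tauto⟩
    rw [this]; exact h4
  · have : ({a, b, x, d} : Finset V).erase x = {a, b, d} := by
      ext y; simp only [mem_erase, mem_insert, mem_singleton]
      constructor
      · tauto
      · rintro (rfl | rfl | rfl)
        · exact ⟨hac, by tauto⟩
        · exact ⟨hbc, by tauto⟩
        · exact ⟨Ne.symm hcd, by tauto⟩
    rw [this]; exact h2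
  · have : ({a, b, c, x} : Finset V).erase x = {a, b, c} := by
      ext y; simp only [mem_erase, mem_insert, mem_singleton]
      constructor
      · tauto
      · rintro (rfl | rfl | rfl)
        · exact ⟨had, by tauto⟩
        · exact ⟨hbd, by tauto⟩
        · exact ⟨hcd, by tauto⟩
    rw [this]; exact h1

/-- Each triple has six ordered forms. -/
lemma six [Fintype V] (e : Finset V) (he : e.card = 3) :
    (∑ a : V, ∑ b : V, ∑ c : V, if ({a, b, c} : Finset V) = e then 1 else 0) = 6 := by
  have key : ∀ a b c : V, (({a, b, c} : Finset V) = e) ↔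
      (a ∈ e ∧ b ∈ e.erase a ∧ c ∈ (e.erase a).erase b) := by
    intro a b c
    constructor
    · intro h
      have h3 : ({a, b, c} : Finset V).card = 3 := by rw [h, he]
      obtain ⟨hab, hac, hbc⟩ := ne_of_mem.Finset.card_eq_three_iff_ne h3
      subst h
      refine ⟨by simp, ?_, ?_⟩
      · simp [Ne.symm hab]
      · simp [Ne.symm hac, Ne.symm hbc]
    · rintro ⟨ha, hb, hc⟩
      simp only [mem_erase] at hb hc
      apply Finset.eq_of_subset_of_card_le
      · intro x hx
        simp only [mem_insert, mem_singleton] at hx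
        rcases hx with rfl | rfl | rfl
        · exact ha
        · exact hb.2
        · exact hc.2.2
      · rw [he, Finset.card_insert_of_notMem, Finset.card_insert_of_notMem,
          Finset.card_singleton]
        · simpa using Ne.symm hc.1
        · simp [Ne.symm hb.1, Ne.symm hc.2.1]
  have h1 : ∀ a ∈ e, (∑ b : V, ∑ c : V, if ({a, b, c} : Finset V) = e then 1 else 0) = 2 := by
    intro a ha
    have h2 : ∀ b : V, (∑ c : V, if ({a, b, c} : Finset V) = e then 1 else 0) =
        if b ∈ e.erase a then 1 else 0 := by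
      intro b
      by_cases hb : b ∈ e.erase a
      · rw [if_pos hb]
        have : (∑ c : V, if ({a, b, c} : Finset V) = e then 1 else 0) =
            ∑ c : V, if c ∈ (e.erase a).erase b then 1 else 0 := by
          apply Finset.sum_congr rfl
          intro c _
          by_cases hc : c ∈ (e.erase a).erase b
          · rw [if_pos hc, if_pos ((key a b c).2 ⟨ha, hb, hc⟩)]
          · rw [if_neg hc, if_neg (fun h => hc ((key a b c).1 h).2.2)]
        rw [this, Finset.sum_boole]
        simp only [Finset.filter_univ_mem, Nat.cast_id]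
        rw [Finset.card_erase_of_mem hb, Finset.card_erase_of_mem ha, he]
      · rw [if_neg hb]
        apply Finset.sum_eq_zero
        intro c _
        rw [if_neg (fun h => hb ((key a b c).1 h).2.1)]
    rw [Finset.sum_congr rfl (fun b _ => h2 b), Finset.sum_boole]
    simp only [Finset.filter_univ_mem, Nat.cast_id]
    rw [Finset.card_erase_of_mem ha, he]
  have h2 : ∀ a : V, (∑ b : V, ∑ c : V, if ({a, b, c} : Finset V) = e then 1 else 0) =
      if a ∈ e then 2 else 0 := by
    intro a
    by_cases ha : a ∈ e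
    · rw [if_pos ha, h1 a ha]
    · rw [if_neg ha]
      apply Finset.sum_eq_zero
      intro b _
      apply Finset.sum_eq_zero
      intro c _
      rw [if_neg (fun h => ha ((key a b c).1 h).1)]
  rw [Finset.sum_congr rfl (fun a _ => h2 a), ← Finset.sum_filter]
  simp [he]

/-- Six times the number of edges is the number of ordered edges. -/
lemma six_card [Fintype V] {H : Finset (Finset V)} (h3 : ThreeGraph H) :
    (∑ a : V, ∑ b : V, ∑ c : V, if ({a, b, c} : Finset V) ∈ H then 1 else 0) = 6 * H.card := by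
  have h : ∀ a b c : V, (if ({a, b, c} : Finset V) ∈ H then 1 else 0) =
      ∑ e ∈ H, if ({a, b, c} : Finset V) = e then 1 else 0 := by
    intro a b c
    rw [Finset.sum_ite_eq]
  simp only [h]
  have h4 : (∑ a : V, ∑ b : V, ∑ c : V, ∑ e ∈ H, if ({a, b, c} : Finset V) = e then 1 else 0) =
      ∑ e ∈ H, ∑ a : V, ∑ b : V, ∑ c : V, if ({a, b, c} : Finset V) = e then 1 else 0 := by
    calc _ = ∑ a : V, ∑ b : V, ∑ e ∈ H, ∑ c : V, (if ({a, b, c} : Finset V) = e then 1 else 0) :=
          Finset.sum_congr rfl fun a _ => Finset.sum_congr rfl fun b _ => Finset.sum_comm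
      _ = ∑ a : V, ∑ e ∈ H, ∑ b : V, ∑ c : V, (if ({a, b, c} : Finset V) = e then 1 else 0) :=
          Finset.sum_congr rfl fun a _ => Finset.sum_comm
      _ = _ := Finset.sum_comm
  rw [h4, Finset.sum_congr rfl (fun e he => six e (h3 e he))]
  simp [mul_comm]

end Basic


section Layers

variable {k : ℕ} {E : Type} [AddCommGroup E] [Fintype E] [DecidableEq E]

/-- The number of ordered edges with layers `i, j, l`. -/
def S (H : Finset (Finset (Fin k × E))) (i j l : Fin k) : ℕ :=
  ∑ x : E, ∑ y : E, ∑ z : E, if ({(i, x), (j, y), (l, z)} : Finset (Fin k × E)) ∈ H then 1 else 0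

lemma sum_layers (H : Finset (Finset (Fin k × E))) :
    (∑ a : Fin k × E, ∑ b : Fin k × E, ∑ c : Fin k × E,
      if ({a, b, c} : Finset (Fin k × E)) ∈ H then 1 else 0) =
      ∑ i : Fin k, ∑ j : Fin k, ∑ l : Fin k, S H i j l := by
  simp only [Fintype.sum_prod_type]
  apply Finset.sum_congr rfl
  intro i _
  rw [Finset.sum_comm]
  apply Finset.sum_congr rfl
  intro j _
  unfold S
  have h : ∀ x : E, (∑ y : E, ∑ l : Fin k, ∑ z : E,
      if ({(i, x), (j, y), (l, z)} : Finset (Fin k × E)) ∈ H then 1 else 0) =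
      ∑ l : Fin k, ∑ y : E, ∑ z : E,
      if ({(i, x), (j, y), (l, z)} : Finset (Fin k × E)) ∈ H then 1 else 0 :=
    fun x => Finset.sum_comm
  rw [Finset.sum_congr rfl (fun x _ => h x), Finset.sum_comm]

lemma S_swap12 (H : Finset (Finset (Fin k × E))) (i j l : Fin k) : S H i j l = S H j i l := by
  unfold S
  rw [Finset.sum_comm]
  refine Finset.sum_congr rfl fun y _ => Finset.sum_congr rfl fun x _ =>
    Finset.sum_congr rfl fun z _ => ?_
  rw [swap12]

lemma S_swap23 (H : Finset (Finset (Fin k × E))) (i j l : Fin k) : S H i j l = S H i l j := by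
  unfold S
  refine Finset.sum_congr rfl fun x _ => ?_
  rw [Finset.sum_comm]
  refine Finset.sum_congr rfl fun z _ => Finset.sum_congr rfl fun y _ => ?_
  rw [swap23]

lemma S_le (H : Finset (Finset (Fin k × E))) (i j l : Fin k) :
    S H i j l ≤ Fintype.card E ^ 3 := by
  unfold S
  calc _ ≤ ∑ x : E, ∑ y : E, ∑ z : E, 1 := by
        refine Finset.sum_le_sum fun x _ => Finset.sum_le_sum fun y _ =>
          Finset.sum_le_sum fun z _ => ?_
        split_ifs <;> simp
    _ = _ := by simp [pow_succ, mul_assoc]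

lemma turn {H : Finset (Finset (Fin k × E))} (hT : HalfTurnInvariant H) (s : E)
    {i j l : Fin k} {x y z : E}
    (h : ({(i, x), (j, y), (l, z)} : Finset (Fin k × E)) ∈ H) :
    ({(i, s - x), (j, s - y), (l, s - z)} : Finset (Fin k × E)) ∈ H := by
  have := hT s _ h
  simpa [halfTurn, Finset.image_insert, Finset.image_singleton] using this

/-- The pointwise parallelogram inequality. -/
lemma par {H : Finset (Finset (Fin k × E))} (h3 : ThreeGraph H) (hK : K43Free H)
    (hT : HalfTurnInvariant H) (i j : Fin k) (x x' y : E)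
    (h1 : ({(i, x), (i, x'), (j, y)} : Finset (Fin k × E)) ∈ H)
    (h2 : ({(j, y), (j, x + x' - y), (i, x)} : Finset (Fin k × E)) ∈ H) : False := by
  have h1' := turn hT (x + x') h1
  have h2' := turn hT (x + x') h2
  have e1 : x + x' - x = x' := by abel
  have e2 : x + x' - x' = x := by abel
  have e3 : x + x' - (x + x' - y) = y := by abel
  rw [e1, e2] at h1'
  rw [e1, e3] at h2'
  -- a = (i,x), b = (i,x'), c = (j,y), d = (j,x+x'-y)
  apply noK4 h3 hK (a := (i, x)) (b := (i, x')) (c := (j, y)) (d := (j, x + x' - y)) h1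
  · rw [swap12]; exact h1'
  · rw [swap12, swap23]; exact h2
  · rw [rev]; exact h2'

/-- `S j j i` re-indexed along the parallelograms. -/
lemma S_par (H : Finset (Finset (Fin k × E))) (i j : Fin k) :
    S H j j i = ∑ x : E, ∑ x' : E, ∑ y : E,
      if ({(j, y), (j, x + x' - y), (i, x)} : Finset (Fin k × E)) ∈ H then 1 else 0 := by
  unfold S
  have h1 : ∀ y : E, (∑ q : E, ∑ x : E,
      if ({(j, y), (j, q), (i, x)} : Finset (Fin k × E)) ∈ H then 1 else 0) =
      ∑ x : E, ∑ x' : E,
      if ({(j, y), (j, x + x' - y), (i, x)} : Finset (Fin k × E)) ∈ H then 1 else 0 := by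
    intro y
    rw [Finset.sum_comm]
    refine Finset.sum_congr rfl fun x _ => ?_
    have h2 := Equiv.sum_comp (Equiv.addLeft (x - y)) (fun q : E =>
      if ({(j, y), (j, q), (i, x)} : Finset (Fin k × E)) ∈ H then (1 : ℕ) else 0)
    rw [← h2]
    refine Finset.sum_congr rfl fun x' _ => ?_
    have h3 : (Equiv.addLeft (x - y)) x' = x + x' - y := by
      simp only [Equiv.coe_addLeft]; abel
    rw [h3]
  rw [Finset.sum_congr rfl (fun y _ => h1 y), Finset.sum_comm]
  refine Finset.sum_congr rfl fun x _ => ?_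
  rw [Finset.sum_comm]

lemma S_add_le {H : Finset (Finset (Fin k × E))} (h3 : ThreeGraph H) (hK : K43Free H)
    (hT : HalfTurnInvariant H) (i j : Fin k) :
    S H i i j + S H j j i ≤ Fintype.card E ^ 3 := by
  rw [S_par H i j]
  unfold S
  simp only [← Finset.sum_add_distrib]
  calc _ ≤ ∑ x : E, ∑ x' : E, ∑ y : E, 1 := by
        refine Finset.sum_le_sum fun x _ => Finset.sum_le_sum fun x' _ =>
          Finset.sum_le_sum fun y _ => ?_
        have := par h3 hK hT i j x x' y
        split_ifs with h1 h2 <;> first | omega | exact (this h1 h2).elim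
    _ = _ := by simp [pow_succ, mul_assoc]

lemma sum_ne : (∑ x : E, ∑ x' : E, ∑ _y : E, if x = x' then 0 else 1) =
    Fintype.card E ^ 2 * (Fintype.card E - 1) := by
  have h : ∀ x : E, (∑ x' : E, ∑ _y : E, if x = x' then 0 else 1) =
      Fintype.card E * (Fintype.card E - 1) := by
    intro x
    have h1 : ∀ x' : E, (∑ _y : E, if x = x' then 0 else 1) =
        if x' ≠ x then Fintype.card E else 0 := by
      intro x'
      by_cases hx : x = x'
      · simp [hx]
      · simp [hx, Ne.symm hx]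
    rw [Finset.sum_congr rfl (fun x' _ => h1 x'), ← Finset.sum_filter, Finset.sum_const,
      Finset.filter_ne', Finset.card_erase_of_mem (Finset.mem_univ x), Finset.card_univ,
      smul_eq_mul, mul_comm]
  rw [Finset.sum_congr rfl (fun x _ => h x), Finset.sum_const, Finset.card_univ, smul_eq_mul]
  ring

section Two

variable (h2 : ∀ x : E, x + x = 0)

include h2

lemma sub_eq (x y : E) : x - y = x + y := by
  have := h2 y
  rw [sub_eq_add_neg, neg_eq_of_add_eq_zero_left this]

/-- In the case of exponent two the sum of the two indicators vanishes on the diagonal. -/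
lemma pt_le {H : Finset (Finset (Fin k × E))} (h3 : ThreeGraph H) (hK : K43Free H)
    (hT : HalfTurnInvariant H) (i j : Fin k) (x x' y : E) :
    ((if ({(i, x), (i, x'), (j, y)} : Finset (Fin k × E)) ∈ H then 1 else 0) +
      (if ({(j, y), (j, x + x' - y), (i, x)} : Finset (Fin k × E)) ∈ H then 1 else 0)) ≤
      if x = x' then 0 else 1 := by
  have hp := par h3 hK hT i j x x' y
  by_cases hx : x = x'
  · subst hx
    have h4 : ({(i, x), (i, x), (j, y)} : Finset (Fin k × E)) ∉ H := fun h =>
      (ne_of_mem h3 h).1 rfl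
    have e : x + x - y = y := by rw [sub_eq h2, h2, zero_add]
    have h5 : ({(j, y), (j, x + x - y), (i, x)} : Finset (Fin k × E)) ∉ H := fun h =>
      (ne_of_mem h3 h).1 (by rw [e])
    rw [if_neg h4, if_neg h5]; simp
  · rw [if_neg hx]
    split_ifs with h1 h2 <;> first | omega | exact (hp h1 h2).elim

lemma S_add_le_two {H : Finset (Finset (Fin k × E))} (h3 : ThreeGraph H) (hK : K43Free H)
    (hT : HalfTurnInvariant H) (i j : Fin k) :
    S H i i j + S H j j i ≤ Fintype.card E ^ 2 * (Fintype.card E - 1) := by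
  rw [S_par H i j, ← sum_ne]
  unfold S
  simp only [← Finset.sum_add_distrib]
  exact Finset.sum_le_sum fun x _ => Finset.sum_le_sum fun x' _ =>
          Finset.sum_le_sum fun y _ => pt_le h2 h3 hK hT i j x x' y

/-- Equality forces exactly one of the two triples for every `x ≠ x'`. -/
lemma pt_eq {H : Finset (Finset (Fin k × E))} (h3 : ThreeGraph H) (hK : K43Free H)
    (hT : HalfTurnInvariant H) (i j : Fin k)
    (hS : S H i i j + S H j j i = Fintype.card E ^ 2 * (Fintype.card E - 1)) (x x' y : E) :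
    ((if ({(i, x), (i, x'), (j, y)} : Finset (Fin k × E)) ∈ H then 1 else 0) +
      (if ({(j, y), (j, x + x' - y), (i, x)} : Finset (Fin k × E)) ∈ H then 1 else 0)) =
      if x = x' then 0 else 1 := by
  rw [S_par H i j, ← sum_ne] at hS
  unfold S at hS
  simp only [← Finset.sum_add_distrib] at hS
  have h1 := (Finset.sum_eq_sum_iff_of_le (fun x _ => Finset.sum_le_sum fun x' _ =>
          Finset.sum_le_sum fun y _ => pt_le h2 h3 hK hT i j x x' y)).1 hS x (Finset.mem_univ x)
  have h4 := (Finset.sum_eq_sum_iff_of_le (fun x' _ =>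
          Finset.sum_le_sum fun y _ => pt_le h2 h3 hK hT i j x x' y)).1 h1 x' (Finset.mem_univ x')
  exact (Finset.sum_eq_sum_iff_of_le (fun y _ => pt_le h2 h3 hK hT i j x x' y)).1 h4 y
    (Finset.mem_univ y)

/-- Translations. -/
lemma trans_mem {H : Finset (Finset (Fin k × E))} (hT : HalfTurnInvariant H) (t : E)
    {i j l : Fin k} {x y z : E}
    (h : ({(i, x), (j, y), (l, z)} : Finset (Fin k × E)) ∈ H) :
    ({(i, t + x), (j, t + y), (l, t + z)} : Finset (Fin k × E)) ∈ H := by
  have := turn hT t h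
  rwa [sub_eq h2, sub_eq h2, sub_eq h2] at this

/-- No edge lies inside a layer. -/
lemma indep_two {H : Finset (Finset (Fin k × E))} (h3 : ThreeGraph H) (hK : K43Free H)
    (hT : HalfTurnInvariant H) (i : Fin k) (x y z : E) :
    ({(i, x), (i, y), (i, z)} : Finset (Fin k × E)) ∉ H := by
  intro h
  have key : ∀ u v : E, u + v + u = v := fun u v => by
    rw [add_comm u v, add_assoc, h2, add_zero]
  have h4 := trans_mem h2 hT (x + y) h
  have h5 := trans_mem h2 hT (x + z) h
  have h6 := trans_mem h2 hT (y + z) h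
  have a1 : x + y + x = y := key x y
  have a2 : x + y + y = x := by rw [add_assoc, h2, add_zero]
  have a3 : x + z + x = z := key x z
  have a4 : x + z + z = x := by rw [add_assoc, h2, add_zero]
  have a5 : y + z + y = z := key y z
  have a6 : y + z + z = y := by rw [add_assoc, h2, add_zero]
  have a7 : x + z + y = x + y + z := by abel
  have a8 : y + z + x = x + y + z := by abel
  rw [a1, a2] at h4
  rw [a3, a4, a7] at h5
  rw [a5, a6, a8] at h6
  refine noK4 h3 hK (a := (i, x)) (b := (i, y)) (c := (i, z)) (d := (i, x + y + z)) h ?_ ?_ ?_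
  · rw [swap12]; exact h4
  · rw [swap12, swap23]; exact h5
  · rw [rev]; exact h6

end Two

end Layers

section Turan

variable {E : Type} [AddCommGroup E] [Fintype E] [DecidableEq E]

/-- How often `t` occurs among `i, j, l`. -/
def cnt (i j l t : Fin 3) : ℕ :=
  (if i = t then 1 else 0) + (if j = t then 1 else 0) + (if l = t then 1 else 0)

/-- The layer patterns of the edges of `turan δ`. -/
def psi (δ i j l : Fin 3) : Prop :=
  (∀ t, cnt i j l t = 1) ∨ ∃ t, cnt i j l t = 2 ∧ cnt i j l (t + δ) = 1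

instance (δ i j l : Fin 3) : Decidable (psi δ i j l) := by unfold psi; infer_instance

lemma layerCount_triple {a b c : Fin 3 × E} (hab : a ≠ b) (hac : a ≠ c) (hbc : b ≠ c)
    (i : Fin 3) : layerCount {a, b, c} i = cnt a.1 b.1 c.1 i := by
  unfold layerCount cnt
  rw [Finset.card_filter, Finset.sum_insert (by simp [hab, hac]), Finset.sum_insert (by simp [hbc]),
    Finset.sum_singleton]
  ring

lemma card_triple {V : Type} [DecidableEq V] {a b c : V} (hab : a ≠ b) (hac : a ≠ c)
    (hbc : b ≠ c) : ({a, b, c} : Finset V).card = 3 := by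
  rw [Finset.card_eq_three]; exact ⟨a, b, c, hab, hac, hbc, rfl⟩

lemma mem_turan (δ : Fin 3) {a b c : Fin 3 × E} (hab : a ≠ b) (hac : a ≠ c) (hbc : b ≠ c) :
    ({a, b, c} : Finset (Fin 3 × E)) ∈ turan E δ ↔ psi δ a.1 b.1 c.1 := by
  unfold turan psi
  simp only [Finset.mem_filter, Finset.mem_univ, true_and, card_triple hab hac hbc,
    layerCount_triple hab hac hbc]

lemma turan_three (δ : Fin 3) : ThreeGraph (turan E δ) := fun e he => by
  unfold turan at he
  exact (Finset.mem_filter.1 he).2.1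

lemma exists_four {V : Type} [DecidableEq V] {T : Finset V} (hT : T.card = 4) :
    ∃ a b c d : V, a ≠ b ∧ a ≠ c ∧ a ≠ d ∧ b ≠ c ∧ b ≠ d ∧ c ≠ d ∧ T = {a, b, c, d} := by
  obtain ⟨a, t, hat, rfl, ht⟩ := Finset.card_eq_succ.1 hT
  obtain ⟨b, c, d, hbc, hbd, hcd, rfl⟩ := Finset.card_eq_three.1 ht
  simp only [mem_insert, mem_singleton, not_or] at hat
  exact ⟨a, b, c, d, hat.1, hat.2.1, hat.2.2, hbc, hbd, hcd, rfl⟩

lemma turan_free (δ : Fin 3) (hδ : δ ≠ 0) : K43Free (turan E δ) := by
  intro T hT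
  obtain ⟨a, b, c, d, hab, hac, had, hbc, hbd, hcd, rfl⟩ := exists_four hT
  have key : ∀ δ i j l m : Fin 3, δ ≠ 0 → ¬ psi δ i j l ∨ ¬ psi δ i j m ∨ ¬ psi δ i l m ∨
      ¬ psi δ j l m := by decide
  rcases key δ a.1 b.1 c.1 d.1 hδ with h | h | h | h
  · refine ⟨{a, b, c}, ?_, card_triple hab hac hbc, fun hc => h ((mem_turan δ hab hac hbc).1 hc)⟩
    intro x hx; simp only [mem_insert, mem_singleton] at hx ⊢; tauto
  · refine ⟨{a, b, d}, ?_, card_triple hab had hbd, fun hc => h ((mem_turan δ hab had hbd).1 hc)⟩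
    intro x hx; simp only [mem_insert, mem_singleton] at hx ⊢; tauto
  · refine ⟨{a, c, d}, ?_, card_triple hac had hcd, fun hc => h ((mem_turan δ hac had hcd).1 hc)⟩
    intro x hx; simp only [mem_insert, mem_singleton] at hx ⊢; tauto
  · refine ⟨{b, c, d}, ?_, card_triple hbc hbd hcd, fun hc => h ((mem_turan δ hbc hbd hcd).1 hc)⟩
    intro x hx; simp only [mem_insert, mem_singleton] at hx ⊢; tauto

lemma halfTurn_inj (s : E) : Function.Injective (halfTurn (k := 3) s) := by
  intro p q h
  unfold halfTurn at h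
  simp only [Prod.mk.injEq, sub_right_inj] at h
  exact Prod.ext h.1 h.2

lemma turan_turn (δ : Fin 3) : HalfTurnInvariant (turan E δ) := by
  intro s e he
  unfold turan at he ⊢
  simp only [Finset.mem_filter, Finset.mem_univ, true_and] at he ⊢
  have h : ∀ i, layerCount (e.image (halfTurn s)) i = layerCount e i := by
    intro i
    unfold layerCount
    rw [Finset.filter_image, Finset.card_image_of_injective _ (halfTurn_inj s)]
    rfl
  rw [Finset.card_image_of_injective _ (halfTurn_inj s)]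
  simpa only [h] using he

lemma turan_indep (δ : Fin 3) : IndependentLayers (turan E δ) := by
  intro i e he
  by_contra hcon
  push Not at hcon
  have h3 := turan_three δ e he
  have hc : ∀ j, layerCount e j = if j = i then 3 else 0 := by
    intro j
    unfold layerCount
    by_cases hj : j = i
    · subst hj
      rw [if_pos rfl, Finset.filter_true_of_mem hcon, h3]
    · rw [if_neg hj, Finset.card_eq_zero, Finset.filter_eq_empty_iff]
      intro p hp hpj
      exact hj (by rw [← hpj, hcon p hp])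
  unfold turan at he
  rcases (Finset.mem_filter.1 he).2.2 with h | ⟨j, h, -⟩
  · have := h i
    rw [hc, if_pos rfl] at this
    omega
  · rw [hc] at h
    split_ifs at h; omega

lemma S_zero_of (δ i j l : Fin 3) (h : ¬ psi δ i j l) : S (turan E δ) i j l = 0 := by
  unfold S
  refine Finset.sum_eq_zero fun x _ => Finset.sum_eq_zero fun y _ =>
    Finset.sum_eq_zero fun z _ => ?_
  rw [if_neg]
  intro hm
  obtain ⟨hab, hac, hbc⟩ := ne_of_mem (turan_three δ) hm
  exact h ((mem_turan δ hab hac hbc).1 hm)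

lemma S_rainbow (δ i j l : Fin 3) (h : psi δ i j l) (hij : i ≠ j) (hil : i ≠ l) (hjl : j ≠ l) :
    S (turan E δ) i j l = Fintype.card E ^ 3 := by
  unfold S
  have h1 : ∀ x y z : E, (if ({(i, x), (j, y), (l, z)} : Finset (Fin 3 × E)) ∈ turan E δ
      then 1 else 0) = 1 := by
    intro x y z
    rw [if_pos]
    exact (mem_turan δ (by simp [hij]) (by simp [hil]) (by simp [hjl])).2 h
  simp only [h1]
  simp [pow_succ, mul_assoc]

lemma S_two (δ i l : Fin 3) (h : psi δ i i l) (hil : i ≠ l) :
    S (turan E δ) i i l = Fintype.card E ^ 2 * (Fintype.card E - 1) := by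
  rw [← sum_ne]
  unfold S
  refine Finset.sum_congr rfl fun x _ => Finset.sum_congr rfl fun y _ =>
    Finset.sum_congr rfl fun z _ => ?_
  by_cases hxy : x = y
  · subst hxy
    rw [if_neg, if_pos rfl]
    intro hm
    exact (ne_of_mem (turan_three δ) hm).1 rfl
  · rw [if_pos, if_neg hxy]
    exact (mem_turan δ (by simp [hxy]) (by simp [hil]) (by simp [hil])).2 h

/-- The sum over layers of a 3-graph on three layers without edges inside a layer. -/
lemma total {H : Finset (Finset (Fin 3 × E))} (h3 : ThreeGraph H)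
    (h0 : ∀ i, S H i i i = 0) :
    6 * H.card = 3 * (S H 0 0 1 + S H 1 1 0) + 3 * (S H 1 1 2 + S H 2 2 1) +
      3 * (S H 2 2 0 + S H 0 0 2) + 6 * S H 0 1 2 := by
  rw [← six_card h3, sum_layers]
  simp only [Fin.sum_univ_three]
  rw [h0 0, h0 1, h0 2]
  have a1 : S H 0 1 0 = S H 0 0 1 := S_swap23 H 0 1 0
  have a2 : S H 1 0 0 = S H 0 0 1 := by rw [S_swap12, a1]
  have a3 : S H 1 0 1 = S H 1 1 0 := S_swap23 H 1 0 1
  have a4 : S H 0 1 1 = S H 1 1 0 := by rw [S_swap12, a3]
  have b1 : S H 0 2 0 = S H 0 0 2 := S_swap23 H 0 2 0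
  have b2 : S H 2 0 0 = S H 0 0 2 := by rw [S_swap12, b1]
  have b3 : S H 2 0 2 = S H 2 2 0 := S_swap23 H 2 0 2
  have b4 : S H 0 2 2 = S H 2 2 0 := by rw [S_swap12, b3]
  have c1 : S H 1 2 1 = S H 1 1 2 := S_swap23 H 1 2 1
  have c2 : S H 2 1 1 = S H 1 1 2 := by rw [S_swap12, c1]
  have c3 : S H 2 1 2 = S H 2 2 1 := S_swap23 H 2 1 2
  have c4 : S H 1 2 2 = S H 2 2 1 := by rw [S_swap12, c3]
  have d1 : S H 0 2 1 = S H 0 1 2 := S_swap23 H 0 2 1
  have d2 : S H 1 0 2 = S H 0 1 2 := S_swap12 H 1 0 2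
  have d3 : S H 1 2 0 = S H 0 1 2 := by rw [S_swap23, d2]
  have d4 : S H 2 0 1 = S H 0 1 2 := by rw [S_swap12, d1]
  have d5 : S H 2 1 0 = S H 0 1 2 := by rw [S_swap12, d3]
  rw [a1, a2, a3, a4, b1, b2, b3, b4, c1, c2, c3, c4, d1, d2, d3, d4, d5]
  ring

lemma arith (m : ℕ) : 3 * (m ^ 2 * (m - 1)) + 2 * m ^ 3 = m ^ 2 * (5 * m - 3) := by
  rcases m with _ | n
  · simp
  · have h1 : n + 1 - 1 = n := by omega
    have h2 : 5 * (n + 1) - 3 = 5 * n + 2 := by omega
    rw [h1, h2]; ring

lemma turan_card (δ : Fin 3) (hδ : δ ≠ 0) :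
    2 * (turan E δ).card = Fintype.card E ^ 2 * (5 * Fintype.card E - 3) := by
  have h := total (turan_three (E := E) δ) (fun i => S_zero_of δ i i i (by revert δ i; decide))
  have ha := arith (Fintype.card E)
  have hR : S (turan E δ) 0 1 2 = Fintype.card E ^ 3 :=
    S_rainbow δ 0 1 2 ((by decide : ∀ δ : Fin 3, psi δ 0 1 2) δ) (by decide) (by decide) (by decide)
  have hcase : δ = 1 ∨ δ = 2 := (by decide : ∀ δ : Fin 3, δ ≠ 0 → δ = 1 ∨ δ = 2) δ hδ
  rcases hcase with rfl | rfl
  · rw [hR, S_two 1 0 1 (by decide) (by decide), S_zero_of 1 1 1 0 (by decide),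
      S_two 1 1 2 (by decide) (by decide), S_zero_of 1 2 2 1 (by decide),
      S_two 1 2 0 (by decide) (by decide), S_zero_of 1 0 0 2 (by decide)] at h
    omega
  · rw [hR, S_zero_of 2 0 0 1 (by decide), S_two 2 1 0 (by decide) (by decide),
      S_zero_of 2 1 1 2 (by decide), S_two 2 2 1 (by decide) (by decide),
      S_zero_of 2 2 2 0 (by decide), S_two 2 0 2 (by decide) (by decide)] at h
    omega

end Turan


section Main

variable {E : Type} [AddCommGroup E] [Fintype E] [DecidableEq E]

/-- One or two layers. -/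
theorem few {k : ℕ} {H : Finset (Finset (Fin k × E))} (h3 : ThreeGraph H) (hK : K43Free H)
    (hT : HalfTurnInvariant H) (hk : k ≤ 2) :
    12 * H.card ≤ (k * Fintype.card E) ^ 3 := by
  have h := six_card h3
  rw [sum_layers] at h
  have hk' : k = 0 ∨ k = 1 ∨ k = 2 := by omega
  rcases hk' with rfl | rfl | rfl
  · simp at h
    simp [h]
  · simp only [Fin.sum_univ_one] at h
    have := S_add_le h3 hK hT 0 0
    have e : (1 * Fintype.card E) ^ 3 = Fintype.card E ^ 3 := by ring
    rw [e]
    change S H 0 0 0 = _ at h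
    omega
  · simp only [Fin.sum_univ_two] at h
    have a1 : S H 0 1 0 = S H 0 0 1 := S_swap23 H 0 1 0
    have a2 : S H 1 0 0 = S H 0 0 1 := by rw [S_swap12, a1]
    have a3 : S H 1 0 1 = S H 1 1 0 := S_swap23 H 1 0 1
    have a4 : S H 0 1 1 = S H 1 1 0 := by rw [S_swap12, a3]
    rw [a1, a2, a3, a4] at h
    have b1 := S_add_le h3 hK hT 0 0
    have b2 := S_add_le h3 hK hT 1 1
    have b3 := S_add_le h3 hK hT 0 1
    have e : (2 * Fintype.card E) ^ 3 = 8 * Fintype.card E ^ 3 := by ring
    rw [e]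
    omega

lemma S_indep {k : ℕ} {H : Finset (Finset (Fin k × E))} (hI : IndependentLayers H) (i : Fin k) :
    S H i i i = 0 := by
  unfold S
  refine Finset.sum_eq_zero fun x _ => Finset.sum_eq_zero fun y _ =>
    Finset.sum_eq_zero fun z _ => ?_
  rw [if_neg]
  intro hm
  obtain ⟨p, hp, hpi⟩ := hI i _ hm
  simp only [mem_insert, mem_singleton] at hp
  rcases hp with rfl | rfl | rfl <;> exact hpi rfl

/-- Three independent layers. -/
theorem three {H : Finset (Finset (Fin 3 × E))} (h3 : ThreeGraph H) (hK : K43Free H)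
    (hT : HalfTurnInvariant H) (hI : IndependentLayers H) :
    54 * H.card ≤ 5 * (3 * Fintype.card E) ^ 3 := by
  have h := total h3 (S_indep hI)
  have b1 := S_add_le h3 hK hT 0 1
  have b2 := S_add_le h3 hK hT 1 2
  have b3 := S_add_le h3 hK hT 2 0
  have b4 := S_le H 0 1 2
  have e : (3 * Fintype.card E) ^ 3 = 27 * Fintype.card E ^ 3 := by ring
  rw [e]
  omega

section Two

variable (h2 : ∀ x : E, x + x = 0)

include h2

lemma S_indep_two {H : Finset (Finset (Fin 3 × E))} (h3 : ThreeGraph H) (hK : K43Free H)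
    (hT : HalfTurnInvariant H) (i : Fin 3) : S H i i i = 0 := by
  unfold S
  refine Finset.sum_eq_zero fun x _ => Finset.sum_eq_zero fun y _ =>
    Finset.sum_eq_zero fun z _ => ?_
  rw [if_neg (indep_two h2 h3 hK hT i x y z)]

/-- The exact bound. -/
theorem exact_bound {H : Finset (Finset (Fin 3 × E))} (h3 : ThreeGraph H) (hK : K43Free H)
    (hT : HalfTurnInvariant H) :
    2 * H.card ≤ Fintype.card E ^ 2 * (5 * Fintype.card E - 3) := by
  have h := total h3 (S_indep_two h2 h3 hK hT)
  have b1 := S_add_le_two h2 h3 hK hT 0 1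
  have b2 := S_add_le_two h2 h3 hK hT 1 2
  have b3 := S_add_le_two h2 h3 hK hT 2 0
  have b4 := S_le H 0 1 2
  have ha := arith (Fintype.card E)
  omega

/-- `a` is a pair in layer `i` with difference `u`, completed by a vertex of layer `j`. -/
def A (H : Finset (Finset (Fin 3 × E))) (i j : Fin 3) (u v : E) : Prop :=
  ({(i, 0), (i, u), (j, v)} : Finset (Fin 3 × E)) ∈ H

lemma A_iff {H : Finset (Finset (Fin 3 × E))} (hT : HalfTurnInvariant H) (i j : Fin 3)
    (x y z : E) : ({(i, x), (i, y), (j, z)} : Finset (Fin 3 × E)) ∈ H ↔ A H i j (x + y) (x + z) := by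
  unfold A
  constructor
  · intro h
    have := trans_mem h2 hT x h
    rwa [h2] at this
  · intro h
    have := trans_mem h2 hT x h
    rwa [add_zero, ← add_assoc, h2, zero_add, ← add_assoc, h2, zero_add] at this

/-- The structure of an extremal 3-graph. -/
lemma extremal_struct {H : Finset (Finset (Fin 3 × E))} (h3 : ThreeGraph H) (hK : K43Free H)
    (_hT : HalfTurnInvariant H)
    (hX : ∀ i j : Fin 3, i ≠ j → ∀ u v : E, u ≠ 0 → (A H i j u v ↔ ¬ A H j i u v))
    (hR : ∀ i j l : Fin 3, i ≠ j → i ≠ l → j ≠ l → ∀ x y z : E,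
      ({(i, x), (j, y), (l, z)} : Finset (Fin 3 × E)) ∈ H) :
    ∃ δ : Fin 3, δ ≠ 0 ∧ ∀ u : E, u ≠ 0 → ∀ (i : Fin 3) (v : E),
      A H i (i + δ) u v ∧ ¬ A H i (i + 2 * δ) u v := by
  -- two different layers cannot both complete pairs of difference `u`
  have hY : ∀ i j l : Fin 3, i ≠ j → i ≠ l → j ≠ l → ∀ u v w : E, A H i j u v → ¬ A H i l u w := by
    intro i j l hij hil hjl u v w h4 h5
    unfold A at h4 h5
    exact noK4 h3 hK h4 h5 (hR i j l hij hil hjl _ _ _) (hR i j l hij hil hjl _ _ _)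
  have hstep : ∀ u : E, u ≠ 0 → ∀ i : Fin 3, (∃ v, A H i (i + 1) u v) →
      ∀ w, A H (i + 2) (i + 2 + 1) u w := by
    intro u hu i ⟨v, hv⟩ w
    have e1 : i + 2 + 1 = i := (by decide : ∀ i : Fin 3, i + 2 + 1 = i) i
    rw [e1]
    have hne : i ≠ i + 2 := (by decide : ∀ i : Fin 3, i ≠ i + 2) i
    rw [hX (i + 2) i (Ne.symm hne) u w hu]
    exact hY i (i + 1) (i + 2) ((by decide : ∀ i : Fin 3, i ≠ i + 1) i) hne
      ((by decide : ∀ i : Fin 3, i + 1 ≠ i + 2) i) u v w hv
  have hor : ∀ u : E, u ≠ 0 → (∀ (i : Fin 3) (v : E), A H i (i + 1) u v) ∨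
      (∀ (i : Fin 3) (v : E), A H i (i + 2) u v) := by
    intro u hu
    by_cases h : ∃ (i : Fin 3) (v : E), A H i (i + 1) u v
    · left
      obtain ⟨i, v, hv⟩ := h
      have s1 := hstep u hu i ⟨v, hv⟩
      have s2 := hstep u hu (i + 2) ⟨0, s1 0⟩
      have s3 := hstep u hu (i + 2 + 2) ⟨0, s2 0⟩
      intro j w
      have hj : j = i + 2 ∨ j = i + 2 + 2 ∨ j = i + 2 + 2 + 2 :=
        (by decide : ∀ i j : Fin 3, j = i + 2 ∨ j = i + 2 + 2 ∨ j = i + 2 + 2 + 2) i j
      rcases hj with rfl | rfl | rfl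
      · exact s1 w
      · exact s2 w
      · exact s3 w
    · right
      intro i v
      push Not at h
      have e1 : i + 2 + 1 = i := (by decide : ∀ i : Fin 3, i + 2 + 1 = i) i
      have h4 := h (i + 2) v
      rw [e1] at h4
      rw [hX i (i + 2) ((by decide : ∀ i : Fin 3, i ≠ i + 2) i) u v hu]
      exact h4
  have hglob : (∀ u : E, u ≠ 0 → ∀ (i : Fin 3) (v : E), A H i (i + 1) u v) ∨
      (∀ u : E, u ≠ 0 → ∀ (i : Fin 3) (v : E), A H i (i + 2) u v) := by
    by_contra hcon
    push Not at hcon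
    obtain ⟨⟨u, hu, i, v, hv⟩, ⟨w, hw, j, z, hz⟩⟩ := hcon
    have hu' := (hor u hu).resolve_left (fun h => hv (h i v))
    have hw' := (hor w hw).resolve_right (fun h => hz (h j z))
    have f1 : ({(0, 0), (0, w), (1, 0)} : Finset (Fin 3 × E)) ∈ H := hw' 0 0
    have f2 : ({(0, 0), (0, w), (1, u)} : Finset (Fin 3 × E)) ∈ H := hw' 0 u
    have f3 : ({(1, 0), (1, u), (0, 0)} : Finset (Fin 3 × E)) ∈ H := hu' 1 0
    have f4 : ({(1, 0), (1, u), (0, w)} : Finset (Fin 3 × E)) ∈ H := hu' 1 w
    refine noK4 h3 hK f1 f2 ?_ ?_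
    · rw [swap12, swap23]; exact f3
    · rw [swap12, swap23]; exact f4
  rcases hglob with h | h
  · refine ⟨1, by decide, fun u hu i v => ⟨h u hu i v, ?_⟩⟩
    have e : i + 2 * 1 = i + 2 := by rw [mul_one]
    rw [e]
    exact hY i (i + 1) (i + 2) ((by decide : ∀ i : Fin 3, i ≠ i + 1) i)
      ((by decide : ∀ i : Fin 3, i ≠ i + 2) i)
      ((by decide : ∀ i : Fin 3, i + 1 ≠ i + 2) i) u v v (h u hu i v)
  · refine ⟨2, by decide, fun u hu i v => ⟨h u hu i v, ?_⟩⟩
    have e : i + 2 * 2 = i + 1 := (by decide : ∀ i : Fin 3, i + 2 * 2 = i + 1) i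
    rw [e]
    exact hY i (i + 2) (i + 1) ((by decide : ∀ i : Fin 3, i ≠ i + 2) i)
      ((by decide : ∀ i : Fin 3, i ≠ i + 1) i)
      ((by decide : ∀ i : Fin 3, i + 2 ≠ i + 1) i) u v v (h u hu i v)

/-- Uniqueness of the extremal 3-graph. -/
theorem unique {H : Finset (Finset (Fin 3 × E))} (h3 : ThreeGraph H) (hK : K43Free H)
    (hT : HalfTurnInvariant H)
    (hcard : 2 * H.card = Fintype.card E ^ 2 * (5 * Fintype.card E - 3)) :
    H = turan E 1 ∨ H = turan E 2 := by
  have h := total h3 (S_indep_two h2 h3 hK hT)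
  have b1 := S_add_le_two h2 h3 hK hT 0 1
  have b2 := S_add_le_two h2 h3 hK hT 1 2
  have b3 := S_add_le_two h2 h3 hK hT 2 0
  have b4 := S_le H 0 1 2
  have ha := arith (Fintype.card E)
  have c1 : S H 0 0 1 + S H 1 1 0 = Fintype.card E ^ 2 * (Fintype.card E - 1) := by omega
  have c2 : S H 1 1 2 + S H 2 2 1 = Fintype.card E ^ 2 * (Fintype.card E - 1) := by omega
  have c3 : S H 2 2 0 + S H 0 0 2 = Fintype.card E ^ 2 * (Fintype.card E - 1) := by omega
  have c4 : S H 0 1 2 = Fintype.card E ^ 3 := by omega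
  have hpair : ∀ i j : Fin 3, i ≠ j →
      S H i i j + S H j j i = Fintype.card E ^ 2 * (Fintype.card E - 1) := by
    intro i j hij
    have hc := (by decide : ∀ i j : Fin 3, i ≠ j → (i = 0 ∧ j = 1) ∨ (i = 1 ∧ j = 0) ∨
      (i = 1 ∧ j = 2) ∨ (i = 2 ∧ j = 1) ∨ (i = 2 ∧ j = 0) ∨ (i = 0 ∧ j = 2)) i j hij
    rcases hc with ⟨rfl, rfl⟩ | ⟨rfl, rfl⟩ | ⟨rfl, rfl⟩ | ⟨rfl, rfl⟩ | ⟨rfl, rfl⟩ | ⟨rfl, rfl⟩
    · exact c1
    · rw [add_comm]; exact c1
    · exact c2
    · rw [add_comm]; exact c2
    · exact c3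
    · rw [add_comm]; exact c3
  have hX : ∀ i j : Fin 3, i ≠ j → ∀ u v : E, u ≠ 0 → (A H i j u v ↔ ¬ A H j i u v) := by
    intro i j hij u v hu
    have := pt_eq h2 h3 hK hT i j (hpair i j hij) 0 u v
    rw [if_neg (Ne.symm hu)] at this
    have e : (({(j, v), (j, 0 + u - v), (i, 0)} : Finset (Fin 3 × E)) ∈ H) ↔ A H j i u v := by
      rw [A_iff h2 hT, zero_add, sub_eq h2, add_zero]
      have : v + (u + v) = u := by
        rw [add_comm u v, ← add_assoc, h2, zero_add]
      rw [this]
    constructor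
    · intro h4 h5
      rw [if_pos (show ({(i, 0), (i, u), (j, v)} : Finset (Fin 3 × E)) ∈ H from h4),
        if_pos (e.2 h5)] at this
      omega
    · intro h5
      by_contra h4
      rw [if_neg (show ({(i, 0), (i, u), (j, v)} : Finset (Fin 3 × E)) ∉ H from h4),
        if_neg (fun hh => h5 (e.1 hh))] at this
      omega
  have hS : ∀ i j l : Fin 3, i ≠ j → i ≠ l → j ≠ l → S H i j l = Fintype.card E ^ 3 := by
    have d1 : S H 0 2 1 = S H 0 1 2 := S_swap23 H 0 2 1
    have d2 : S H 1 0 2 = S H 0 1 2 := S_swap12 H 1 0 2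
    have d3 : S H 1 2 0 = S H 0 1 2 := by rw [S_swap23, d2]
    have d4 : S H 2 0 1 = S H 0 1 2 := by rw [S_swap12, d1]
    have d5 : S H 2 1 0 = S H 0 1 2 := by rw [S_swap12, d3]
    intro i j l hij hil hjl
    have hc := (by decide : ∀ i j l : Fin 3, i ≠ j → i ≠ l → j ≠ l →
      (i = 0 ∧ j = 1 ∧ l = 2) ∨ (i = 0 ∧ j = 2 ∧ l = 1) ∨ (i = 1 ∧ j = 0 ∧ l = 2) ∨
      (i = 1 ∧ j = 2 ∧ l = 0) ∨ (i = 2 ∧ j = 0 ∧ l = 1) ∨ (i = 2 ∧ j = 1 ∧ l = 0))
      i j l hij hil hjl
    rcases hc with ⟨rfl, rfl, rfl⟩ | ⟨rfl, rfl, rfl⟩ | ⟨rfl, rfl, rfl⟩ | ⟨rfl, rfl, rfl⟩ |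
      ⟨rfl, rfl, rfl⟩ | ⟨rfl, rfl, rfl⟩
    · exact c4
    · exact d1.trans c4
    · exact d2.trans c4
    · exact d3.trans c4
    · exact d4.trans c4
    · exact d5.trans c4
  have hR : ∀ i j l : Fin 3, i ≠ j → i ≠ l → j ≠ l → ∀ x y z : E,
      ({(i, x), (j, y), (l, z)} : Finset (Fin 3 × E)) ∈ H := by
    intro i j l hij hil hjl x y z
    by_contra hcon
    have hlt : S H i j l < Fintype.card E ^ 3 := by
      have e : Fintype.card E ^ 3 = ∑ x : E, ∑ y : E, ∑ z : E, 1 := by
        simp [pow_succ, mul_assoc]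
      rw [e]
      unfold S
      have hle : ∀ x y z : E, (if ({(i, x), (j, y), (l, z)} : Finset (Fin 3 × E)) ∈ H
          then 1 else 0) ≤ 1 := by intro x y z; split_ifs <;> simp
      refine Finset.sum_lt_sum (fun x _ => Finset.sum_le_sum fun y _ =>
        Finset.sum_le_sum fun z _ => hle x y z) ⟨x, Finset.mem_univ x, ?_⟩
      refine Finset.sum_lt_sum (fun y _ => Finset.sum_le_sum fun z _ => hle x y z)
        ⟨y, Finset.mem_univ y, ?_⟩
      refine Finset.sum_lt_sum (fun z _ => hle x y z) ⟨z, Finset.mem_univ z, ?_⟩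
      rw [if_neg hcon]; exact Nat.one_pos
    rw [hS i j l hij hil hjl] at hlt
    exact lt_irrefl _ hlt
  obtain ⟨δ, hδ, hst⟩ := extremal_struct h2 h3 hK hT hX hR
  -- membership for triples with two vertices in one layer
  have hmem2 : ∀ (i l : Fin 3) (x y z : E), x ≠ y → i ≠ l →
      ((({(i, x), (i, y), (l, z)} : Finset (Fin 3 × E)) ∈ H) ↔ psi δ i i l) := by
    intro i l x y z hxy hil
    rw [A_iff h2 hT]
    have hu : x + y ≠ 0 := by
      intro h0
      apply hxy
      have : x = -y := eq_neg_of_add_eq_zero_left h0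
      rw [this, neg_eq_of_add_eq_zero_left (h2 y)]
    have hl : l = i + δ ∨ l = i + 2 * δ :=
      (by decide : ∀ δ i l : Fin 3, δ ≠ 0 → i ≠ l → l = i + δ ∨ l = i + 2 * δ) δ i l hδ hil
    rcases hl with rfl | rfl
    · exact iff_of_true (hst _ hu i _).1
        ((by decide : ∀ δ i : Fin 3, δ ≠ 0 → psi δ i i (i + δ)) δ i hδ)
    · exact iff_of_false (hst _ hu i _).2
        ((by decide : ∀ δ i : Fin 3, δ ≠ 0 → ¬ psi δ i i (i + 2 * δ)) δ i hδ)
  have hmem : ∀ a b c : Fin 3 × E, a ≠ b → a ≠ c → b ≠ c →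
      ((({a, b, c} : Finset (Fin 3 × E)) ∈ H) ↔ psi δ a.1 b.1 c.1) := by
    rintro ⟨i, x⟩ ⟨j, y⟩ ⟨l, z⟩ hab hac hbc
    by_cases hij : i = j
    · subst hij
      by_cases hil : i = l
      · subst hil
        exact iff_of_false (indep_two h2 h3 hK hT i x y z)
          ((by decide : ∀ δ i : Fin 3, ¬ psi δ i i i) δ i)
      · exact hmem2 i l x y z (fun h => hab (by rw [h])) hil
    · by_cases hil : i = l
      · subst hil
        rw [swap23, hmem2 i j x z y (fun h => hac (by rw [h])) hij]
        exact (by decide : ∀ δ i j : Fin 3, psi δ i i j ↔ psi δ i j i) δ i j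
      · by_cases hjl : j = l
        · subst hjl
          have e : ({(i, x), (j, y), (j, z)} : Finset (Fin 3 × E)) = {(j, y), (j, z), (i, x)} := by
            rw [swap12, swap23]
          rw [e, hmem2 j i y z x (fun h => hbc (by rw [h])) (Ne.symm hij)]
          exact (by decide : ∀ δ i j : Fin 3, psi δ j j i ↔ psi δ i j j) δ i j
        · exact iff_of_true (hR i j l hij hil hjl x y z)
            ((by decide : ∀ δ i j l : Fin 3, i ≠ j → i ≠ l → j ≠ l → psi δ i j l) δ i j l hij hil
              hjl)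
  have hHt : H = turan E δ := by
    ext e
    by_cases he : e.card = 3
    · obtain ⟨a, b, c, hab, hac, hbc, rfl⟩ := Finset.card_eq_three.1 he
      rw [hmem a b c hab hac hbc, mem_turan δ hab hac hbc]
    · exact iff_of_false (fun hh => he (h3 e hh)) (fun hh => he (turan_three δ e hh))
  have hcase : δ = 1 ∨ δ = 2 := (by decide : ∀ δ : Fin 3, δ ≠ 0 → δ = 1 ∨ δ = 2) δ hδ
  rcases hcase with rfl | rfl
  · exact Or.inl hHt
  · exact Or.inr hHt

end Two

end Main


section Action

variable {V : Type} [Fintype V] [DecidableEq V] {E : Type} [AddCommGroup E] [Fintype E]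
  [DecidableEq E] [AddAction E V]

lemma exists_coords (hfree : ∀ (g : E) (v : V), g +ᵥ v = v → g = 0)
    (horb : Nat.card (AddAction.orbitRel.Quotient E V) = 3) :
    ∃ φ : Fin 3 × E ≃ V, ∀ (i : Fin 3) (x g : E), φ (i, g + x) = g +ᵥ φ (i, x) := by
  have : Finite (AddAction.orbitRel.Quotient E V) := Nat.finite_of_card_ne_zero (by omega)
  have e0 : AddAction.orbitRel.Quotient E V ≃ Fin 3 := Finite.equivFinOfCardEq horb
  let b : Fin 3 → V := fun i => Quotient.out (e0.symm i)
  have hb : ∀ i, (Quotient.mk'' (b i) : AddAction.orbitRel.Quotient E V) = e0.symm i :=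
    fun i => Quotient.out_eq' (e0.symm i)
  let f : Fin 3 × E → V := fun p => p.2 +ᵥ b p.1
  have horbit : ∀ (g : E) (v : V), (Quotient.mk'' (g +ᵥ v) : AddAction.orbitRel.Quotient E V) =
      Quotient.mk'' v := by
    intro g v
    apply Quotient.sound'
    exact ⟨g, rfl⟩
  have hinj : Function.Injective f := by
    rintro ⟨i, x⟩ ⟨j, y⟩ h
    have h' : x +ᵥ b i = y +ᵥ b j := h
    have h1 := congrArg (fun v => (Quotient.mk'' v : AddAction.orbitRel.Quotient E V)) h'
    simp only [horbit, hb] at h1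
    have hij : i = j := e0.symm.injective h1
    subst hij
    have h2 : (-y + x) +ᵥ b i = b i := by
      rw [add_vadd, h', ← add_vadd]; simp
    have h3 := hfree _ _ h2
    have : x = y := by
      have := congrArg (fun z => y + z) h3
      simpa using this
    rw [this]
  have hsurj : Function.Surjective f := by
    intro v
    have h1 : (Quotient.mk'' (b (e0 (Quotient.mk'' v))) : AddAction.orbitRel.Quotient E V) =
        Quotient.mk'' v := by rw [hb]; simp
    have h2 : (AddAction.orbitRel E V) (b (e0 (Quotient.mk'' v))) v := Quotient.exact' h1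
    obtain ⟨g, hg⟩ := h2
    refine ⟨(e0 (Quotient.mk'' v), -g), ?_⟩
    change -g +ᵥ b (e0 (Quotient.mk'' v)) = v
    rw [← hg]
    simp
  refine ⟨Equiv.ofBijective f ⟨hinj, hsurj⟩, ?_⟩
  intro i x g
  change (g + x) +ᵥ b i = g +ᵥ (x +ᵥ b i)
  rw [add_vadd]

/-- Turan's bound, with uniqueness, for free actions of elementary abelian 2-groups with three
orbits. -/
theorem free_action (h2 : ∀ x : E, x + x = 0) (hfree : ∀ (g : E) (v : V), g +ᵥ v = v → g = 0)
    (horb : Nat.card (AddAction.orbitRel.Quotient E V) = 3) {H : Finset (Finset V)}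
    (h3 : ThreeGraph H) (hK : K43Free H)
    (hinv : ∀ g : E, ∀ e ∈ H, e.image (fun v => g +ᵥ v) ∈ H) :
    2 * H.card ≤ Fintype.card E ^ 2 * (5 * Fintype.card E - 3) ∧
    (2 * H.card = Fintype.card E ^ 2 * (5 * Fintype.card E - 3) →
      ∃ π : V → Fin 3, (∀ i, (Finset.univ.filter fun v => π v = i).card = Fintype.card E) ∧
        (∀ (g : E) (v : V), π (g +ᵥ v) = π v) ∧
        ∀ e : Finset V, e ∈ H ↔ e.card = 3 ∧
          ((∀ i, (e.filter fun v => π v = i).card = 1) ∨
            ∃ i, (e.filter fun v => π v = i).card = 2 ∧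
              (e.filter fun v => π v = i + 1).card = 1)) := by
  obtain ⟨φ, hφ⟩ := exists_coords hfree horb
  let H' : Finset (Finset (Fin 3 × E)) := H.map (Equiv.finsetCongr φ.symm).toEmbedding
  have hmem : ∀ e : Finset (Fin 3 × E), e ∈ H' ↔ e.map φ.toEmbedding ∈ H := by
    intro e
    simp only [H', Finset.mem_map_equiv]
    rfl
  have hcardH : H'.card = H.card := Finset.card_map _
  have h3' : ThreeGraph H' := by
    intro e he
    have := h3 _ ((hmem e).1 he)
    rwa [Finset.card_map] at this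
  have hK' : K43Free H' := by
    intro T hT
    obtain ⟨e, heT, he3, heH⟩ := hK (T.map φ.toEmbedding) (by rw [Finset.card_map, hT])
    refine ⟨e.map φ.symm.toEmbedding, ?_, by rw [Finset.card_map, he3], ?_⟩
    · intro p hp
      obtain ⟨v, hv, rfl⟩ := Finset.mem_map.1 hp
      obtain ⟨q, hq, hqv⟩ := Finset.mem_map.1 (heT hv)
      have : φ.symm v = q := by rw [← hqv]; simp
      simpa [this] using hq
    · rw [hmem]
      have : (e.map φ.symm.toEmbedding).map φ.toEmbedding = e := by
        ext v; simp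
      rwa [this]
  have hT' : HalfTurnInvariant H' := by
    intro s e he
    rw [hmem]
    have h4 := hinv s _ ((hmem e).1 he)
    convert h4 using 1
    ext v
    simp only [Finset.mem_map, Finset.mem_image, Equiv.coe_toEmbedding]
    constructor
    · rintro ⟨q, ⟨p, hp, rfl⟩, rfl⟩
      refine ⟨φ p, ⟨p, hp, rfl⟩, ?_⟩
      rcases p with ⟨i, x⟩
      change s +ᵥ φ (i, x) = φ (i, s - x)
      rw [sub_eq h2, hφ]
    · rintro ⟨w, ⟨p, hp, rfl⟩, rfl⟩
      refine ⟨halfTurn s p, ⟨p, hp, rfl⟩, ?_⟩
      rcases p with ⟨i, x⟩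
      change φ (i, s - x) = s +ᵥ φ (i, x)
      rw [sub_eq h2, hφ]
  refine ⟨by rw [← hcardH]; exact exact_bound h2 h3' hK' hT', fun heq => ?_⟩
  rw [← hcardH] at heq
  have hlayer : ∀ (e : Finset V) (i : Fin 3),
      (e.filter fun v => (φ.symm v).1 = i).card = layerCount (e.map φ.symm.toEmbedding) i := by
    intro e i
    unfold layerCount
    rw [Finset.filter_map, Finset.card_map]
    rfl
  have hHmem : ∀ e : Finset V, e ∈ H ↔ e.map φ.symm.toEmbedding ∈ H' := by
    intro e
    rw [hmem]
    have : (e.map φ.symm.toEmbedding).map φ.toEmbedding = e := by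
      ext v; simp
    rw [this]
  have hfib : ∀ i : Fin 3, (Finset.univ.filter fun v => (φ.symm v).1 = i).card =
      Fintype.card E := by
    intro i
    have hinjx : Function.Injective (fun x : E => φ (i, x)) := fun x y h =>
      (Prod.mk.inj (φ.injective h)).2
    have : (Finset.univ.filter fun v => (φ.symm v).1 = i) =
        (Finset.univ : Finset E).map ⟨fun x => φ (i, x), hinjx⟩ := by
      ext v
      simp only [Finset.mem_filter, Finset.mem_univ, true_and, Finset.mem_map,
        Function.Embedding.coeFn_mk]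
      constructor
      · intro h
        refine ⟨(φ.symm v).2, ?_⟩
        rw [← h]; simp
      · rintro ⟨x, rfl⟩; simp
    rw [this, Finset.card_map, Finset.card_univ]
  have hinvπ : ∀ (g : E) (v : V), (φ.symm (g +ᵥ v)).1 = (φ.symm v).1 := by
    intro g v
    obtain ⟨⟨i, x⟩, rfl⟩ := φ.surjective v
    rw [← hφ]; simp
  rcases unique h2 h3' hK' hT' heq with h | h
  · refine ⟨fun v => (φ.symm v).1, hfib, hinvπ, fun e => ?_⟩
    rw [hHmem, h]
    unfold turan
    simp only [Finset.mem_filter, Finset.mem_univ, true_and, Finset.card_map, hlayer]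
  · have hneg : ∀ i j : Fin 3, -i = j ↔ i = -j := by decide
    refine ⟨fun v => -(φ.symm v).1, ?_,
      fun g v => by change -(φ.symm (g +ᵥ v)).1 = -(φ.symm v).1; rw [hinvπ], fun e => ?_⟩
    · intro i
      simp only [hneg]
      exact hfib (-i)
    · rw [hHmem, h]
      unfold turan
      simp only [Finset.mem_filter, Finset.mem_univ, true_and, Finset.card_map, hneg, hlayer]
      refine and_congr_right fun _ => or_congr ?_ ?_
      · constructor
        · intro h5 i; exact h5 (-i)
        · intro h5 i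
          have := h5 (-i)
          rwa [neg_neg] at this
      · constructor
        · rintro ⟨i, h5, h6⟩
          refine ⟨-i, by rwa [neg_neg], ?_⟩
          have : -(-i + 1) = i + 2 := (by decide : ∀ i : Fin 3, -(-i + 1) = i + 2) i
          rwa [this]
        · rintro ⟨i, h5, h6⟩
          refine ⟨-i, h5, ?_⟩
          have : -i + 2 = -(i + 1) := (by decide : ∀ i : Fin 3, -i + 2 = -(i + 1)) i
          rwa [this]

end Action


end Pool.Agent.N910.HalfTurn
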