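import Mathlib

set_option autoImplicit false

/-!
Definitions: 3-graphs on `k` layers `Fin k × E`, each layer a copy of the finite abelian group `E`,
half-turns `(i, x) ↦ (i, s - x)`, and Turan's 3-graph on three layers.
-/

namespace Pool.Agent.N910.HalfTurn

section Basic

variable {V : Type} [DecidableEq V]

/-- Every edge has three vertices. -/
def ThreeGraph (H : Finset (Finset V)) : Prop := ∀ e ∈ H, e.card = 3

/-- No four vertices span all four triples. -/
def K43Free (H : Finset (Finset V)) : Prop :=
  ∀ S : Finset V, S.card = 4 → ∃ e ⊆ S, e.card = 3 ∧ e ∉ H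

variable [Fintype V] {k : ℕ}

/-- The class `i` of the partition `π` of the vertex set. -/
def cl (π : V → Fin k) (i : Fin k) : Finset V := Finset.univ.filter fun v => π v = i

/-- A family of involutions `g t` of the vertex set which preserve the classes of `π`, such that the
link of every pair `x, g t x` is closed under `g t`, and such that any two vertices of the same
class are exchanged by at least `c` members of the family. -/
structure InvFamily {ι : Type} [Fintype ι] (H : Finset (Finset V)) (π : V → Fin k)
    (g : ι → V → V) (c : ℕ) : Prop where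
  invol : ∀ t x, g t (g t x) = x
  cls : ∀ t x, π (g t x) = π x
  link : ∀ t x y, ({x, g t x, y} : Finset V) ∈ H → ({x, g t x, g t y} : Finset V) ∈ H
  exch : ∀ x x', x ≠ x' → π x = π x' → c ≤ (Finset.univ.filter fun t => g t x = x').card

/-- The edges of Turan's 3-graph with classes given by `π`: one vertex in each class, or two
vertices in a class `i` and one in class `i + δ`. -/
def TuranEdge (π : V → Fin 3) (δ : Fin 3) (e : Finset V) : Prop :=
  e.card = 3 ∧ ((∀ i, (e.filter fun v => π v = i).card = 1) ∨
    ∃ i, (e.filter fun v => π v = i).card = 2 ∧ (e.filter fun v => π v = i + δ).card = 1)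

end Basic

section Layers

variable {k : ℕ} {E : Type} [AddCommGroup E] [Fintype E] [DecidableEq E]

/-- The half-turn `(i, x) ↦ (i, s - x)`. -/
def halfTurn (s : E) (p : Fin k × E) : Fin k × E := (p.1, s - p.2)

/-- Invariance under all half-turns. -/
def HalfTurnInvariant (H : Finset (Finset (Fin k × E))) : Prop :=
  ∀ s : E, ∀ e ∈ H, e.image (halfTurn s) ∈ H

/-- No edge lies inside a layer. -/
def IndependentLayers (H : Finset (Finset (Fin k × E))) : Prop :=
  ∀ i : Fin k, ∀ e ∈ H, ∃ p ∈ e, p.1 ≠ i

/-- The number of vertices of `e` in layer `i`. -/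
def layerCount (e : Finset (Fin 3 × E)) (i : Fin 3) : ℕ := (e.filter fun p => p.1 = i).card

/-- Turan's 3-graph on the three layers: all triples with one vertex in each layer, and all triples
with two vertices in a layer `i` and one in layer `i + δ`. -/
def turan (E : Type) [AddCommGroup E] [Fintype E] [DecidableEq E] (δ : Fin 3) :
    Finset (Finset (Fin 3 × E)) :=
  Finset.univ.filter fun e => e.card = 3 ∧
    ((∀ i, layerCount e i = 1) ∨ ∃ i, layerCount e i = 2 ∧ layerCount e (i + δ) = 1)

end Layers

end Pool.Agent.N910.HalfTurn
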