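import Pool.Agent.N910.HalfTurn

set_option autoImplicit false
set_option linter.unusedSectionVars false

/-!
`K_4^3`-free 3-graphs with a family of involutory automorphisms exchanging any two vertices of the
same class equally often.
-/

namespace Pool.Agent.N910.HalfTurn

open Finset

section Family

variable {V : Type} [Fintype V] [DecidableEq V] {k : ℕ} {ι : Type} [Fintype ι]

/-- The number of ordered edges with classes `i, j, l`. -/
def T (H : Finset (Finset V)) (π : V → Fin k) (i j l : Fin k) : ℕ :=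
  ∑ x ∈ cl π i, ∑ y ∈ cl π j, ∑ z ∈ cl π l, if ({x, y, z} : Finset V) ∈ H then 1 else 0

lemma sum_cl (π : V → Fin k) (f : V → ℕ) : ∑ v : V, f v = ∑ i : Fin k, ∑ v ∈ cl π i, f v := by
  unfold cl
  rw [Finset.sum_fiberwise]

lemma sum_classes (H : Finset (Finset V)) (π : V → Fin k) :
    (∑ a : V, ∑ b : V, ∑ c : V, if ({a, b, c} : Finset V) ∈ H then 1 else 0) =
      ∑ i : Fin k, ∑ j : Fin k, ∑ l : Fin k, T H π i j l := by
  rw [sum_cl π]
  refine Finset.sum_congr rfl fun i _ => ?_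
  have h : ∀ a : V, (∑ b : V, ∑ c : V, if ({a, b, c} : Finset V) ∈ H then 1 else 0) =
      ∑ j : Fin k, ∑ l : Fin k, ∑ b ∈ cl π j, ∑ c ∈ cl π l,
        if ({a, b, c} : Finset V) ∈ H then 1 else 0 := by
    intro a
    rw [sum_cl π]
    refine Finset.sum_congr rfl fun j _ => ?_
    have h1 : ∀ b : V, (∑ c : V, if ({a, b, c} : Finset V) ∈ H then 1 else 0) =
        ∑ l : Fin k, ∑ c ∈ cl π l, if ({a, b, c} : Finset V) ∈ H then 1 else 0 := fun b =>
      sum_cl π _
    rw [Finset.sum_congr rfl (fun b _ => h1 b), Finset.sum_comm]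
  rw [Finset.sum_congr rfl (fun a _ => h a), Finset.sum_comm]
  refine Finset.sum_congr rfl fun j _ => ?_
  rw [Finset.sum_comm]
  rfl

lemma T_swap12 (H : Finset (Finset V)) (π : V → Fin k) (i j l : Fin k) :
    T H π i j l = T H π j i l := by
  unfold T
  rw [Finset.sum_comm]
  refine Finset.sum_congr rfl fun y _ => Finset.sum_congr rfl fun x _ =>
    Finset.sum_congr rfl fun z _ => ?_
  rw [swap12]

lemma T_swap23 (H : Finset (Finset V)) (π : V → Fin k) (i j l : Fin k) :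
    T H π i j l = T H π i l j := by
  unfold T
  refine Finset.sum_congr rfl fun x _ => ?_
  rw [Finset.sum_comm]
  refine Finset.sum_congr rfl fun z _ => Finset.sum_congr rfl fun y _ => ?_
  rw [swap23]

lemma T_le (H : Finset (Finset V)) (π : V → Fin k) (m : ℕ) (hm : ∀ i, (cl π i).card = m)
    (i j l : Fin k) : T H π i j l ≤ m ^ 3 := by
  unfold T
  calc _ ≤ ∑ x ∈ cl π i, ∑ y ∈ cl π j, ∑ z ∈ cl π l, 1 := by
        refine Finset.sum_le_sum fun x _ => Finset.sum_le_sum fun y _ =>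
          Finset.sum_le_sum fun z _ => ?_
        split_ifs <;> simp
    _ = _ := by simp [hm, pow_succ, mul_assoc]

variable {H : Finset (Finset V)} {π : V → Fin k} {g : ι → V → V} {c : ℕ}

lemma fam_pt (h3 : ThreeGraph H) (hK : K43Free H) (hg : InvFamily H π g c) (t : ι) (x y : V)
    (h1 : ({x, g t x, y} : Finset V) ∈ H) (h2 : ({y, g t y, x} : Finset V) ∈ H) : False := by
  have h1' := hg.link t _ _ h1
  have h2' := hg.link t _ _ h2
  apply noK4 h3 hK (a := x) (b := g t x) (c := y) (d := g t y) h1 h1'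
  · rw [swap12, swap23]; exact h2
  · rw [swap12, swap23]; exact h2'

lemma fam_low (h3 : ThreeGraph H) (hg : InvFamily H π g c) (i j : Fin k) :
    c * T H π i i j ≤ ∑ x ∈ cl π i, ∑ y ∈ cl π j, ∑ t : ι,
      if ({x, g t x, y} : Finset V) ∈ H then 1 else 0 := by
  unfold T
  rw [Finset.mul_sum]
  refine Finset.sum_le_sum fun x hx => ?_
  rw [Finset.sum_comm, Finset.mul_sum]
  refine Finset.sum_le_sum fun y hy => ?_
  have hxi : π x = i := (Finset.mem_filter.1 hx).2
  -- group the members of the family by the image of `x`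
  have h1 : (∑ t : ι, if ({x, g t x, y} : Finset V) ∈ H then 1 else 0) =
      ∑ x' ∈ cl π i, ∑ t ∈ Finset.univ.filter (fun t => g t x = x'),
        if ({x, x', y} : Finset V) ∈ H then 1 else 0 := by
    rw [← Finset.sum_fiberwise_of_maps_to (s := Finset.univ) (t := cl π i) (g := fun t => g t x)]
    · refine Finset.sum_congr rfl fun x' _ => Finset.sum_congr rfl fun t ht => ?_
      rw [(Finset.mem_filter.1 ht).2]
    · intro t _
      exact Finset.mem_filter.2 ⟨Finset.mem_univ _, by rw [hg.cls, hxi]⟩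
  rw [h1, Finset.mul_sum]
  refine Finset.sum_le_sum fun x' hx' => ?_
  have hxi' : π x' = i := (Finset.mem_filter.1 hx').2
  by_cases hm : ({x, x', y} : Finset V) ∈ H
  · have hne := (ne_of_mem h3 hm).1
    simp only [if_pos hm, Finset.sum_const, smul_eq_mul, mul_one]
    exact hg.exch x x' hne (by rw [hxi, hxi'])
  · simp [hm]

lemma fam_add (h3 : ThreeGraph H) (hK : K43Free H) (hg : InvFamily H π g c) (m : ℕ)
    (hm : ∀ i, (cl π i).card = m) (i j : Fin k) :
    c * (T H π i i j + T H π j j i) ≤ Fintype.card ι * m ^ 2 := by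
  have h1 := fam_low h3 hg i j
  have h2 := fam_low h3 hg j i
  rw [Finset.sum_comm] at h2
  calc c * (T H π i i j + T H π j j i) = c * T H π i i j + c * T H π j j i := by ring
    _ ≤ _ := add_le_add h1 h2
    _ = ∑ x ∈ cl π i, ∑ y ∈ cl π j, ∑ t : ι,
          ((if ({x, g t x, y} : Finset V) ∈ H then 1 else 0) +
            if ({y, g t y, x} : Finset V) ∈ H then 1 else 0) := by
        simp only [← Finset.sum_add_distrib]
    _ ≤ ∑ x ∈ cl π i, ∑ y ∈ cl π j, ∑ t : ι, 1 := by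
        refine Finset.sum_le_sum fun x _ => Finset.sum_le_sum fun y _ =>
          Finset.sum_le_sum fun t _ => ?_
        have := fam_pt h3 hK hg t x y
        split_ifs with h1 h2 <;> first | omega | exact (this h1 h2).elim
    _ = _ := by simp [hm, pow_succ]; ring

lemma fam_bound (h3 : ThreeGraph H) (hK : K43Free H) (hg : InvFamily H π g c) (hc : 0 < c)
    (m q : ℕ) (hm : ∀ i, (cl π i).card = m) (hι : Fintype.card ι ≤ c * q) (i j : Fin k) :
    T H π i i j + T H π j j i ≤ q * m ^ 2 := by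
  have h := fam_add h3 hK hg m hm i j
  have h1 : Fintype.card ι * m ^ 2 ≤ c * q * m ^ 2 := Nat.mul_le_mul_right _ hι
  have h2 : c * (T H π i i j + T H π j j i) ≤ c * (q * m ^ 2) := by
    calc _ ≤ _ := h.trans h1
      _ = _ := by ring
  exact Nat.le_of_mul_le_mul_left h2 hc

/-- One or two classes. -/
theorem fam_few (h3 : ThreeGraph H) (hK : K43Free H) (hg : InvFamily H π g c) (hc : 0 < c)
    (m : ℕ) (hm : ∀ i, (cl π i).card = m) (hι : Fintype.card ι ≤ c * m) (hk : k ≤ 2) :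
    12 * H.card ≤ (k * m) ^ 3 := by
  have h := six_card h3
  rw [sum_classes H π] at h
  have hb := fam_bound h3 hK hg hc m m hm hι
  have e0 : m * m ^ 2 = m ^ 3 := by ring
  rw [e0] at hb
  have hk' : k = 0 ∨ k = 1 ∨ k = 2 := by omega
  rcases hk' with rfl | rfl | rfl
  · simp at h
    simp [h]
  · simp only [Fin.sum_univ_one] at h
    have := hb 0 0
    have e : (1 * m) ^ 3 = m ^ 3 := by ring
    rw [e]
    change T H π 0 0 0 = _ at h
    omega
  · simp only [Fin.sum_univ_two] at h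
    have a1 : T H π 0 1 0 = T H π 0 0 1 := T_swap23 H π 0 1 0
    have a2 : T H π 1 0 0 = T H π 0 0 1 := by rw [T_swap12, a1]
    have a3 : T H π 1 0 1 = T H π 1 1 0 := T_swap23 H π 1 0 1
    have a4 : T H π 0 1 1 = T H π 1 1 0 := by rw [T_swap12, a3]
    rw [a1, a2, a3, a4] at h
    have b1 := hb 0 0
    have b2 := hb 1 1
    have b3 := hb 0 1
    have e : (2 * m) ^ 3 = 8 * m ^ 3 := by ring
    rw [e]
    omega

end Family

section Three

variable {V : Type} [Fintype V] [DecidableEq V] {ι : Type} [Fintype ι]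
  {H : Finset (Finset V)} {π : V → Fin 3} {g : ι → V → V} {c : ℕ}

lemma T_indep (hI : ∀ i, ∀ e ∈ H, ∃ p ∈ e, π p ≠ i) (i : Fin 3) : T H π i i i = 0 := by
  unfold T
  refine Finset.sum_eq_zero fun x hx => Finset.sum_eq_zero fun y hy =>
    Finset.sum_eq_zero fun z hz => ?_
  rw [if_neg]
  intro hm
  obtain ⟨p, hp, hpi⟩ := hI i _ hm
  simp only [mem_insert, mem_singleton] at hp
  rcases hp with rfl | rfl | rfl
  · exact hpi (Finset.mem_filter.1 hx).2
  · exact hpi (Finset.mem_filter.1 hy).2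
  · exact hpi (Finset.mem_filter.1 hz).2

lemma fam_total (h3 : ThreeGraph H) (h0 : ∀ i, T H π i i i = 0) :
    6 * H.card = 3 * (T H π 0 0 1 + T H π 1 1 0) + 3 * (T H π 1 1 2 + T H π 2 2 1) +
      3 * (T H π 2 2 0 + T H π 0 0 2) + 6 * T H π 0 1 2 := by
  rw [← six_card h3, sum_classes H π]
  simp only [Fin.sum_univ_three]
  rw [h0 0, h0 1, h0 2]
  have a1 : T H π 0 1 0 = T H π 0 0 1 := T_swap23 H π 0 1 0
  have a2 : T H π 1 0 0 = T H π 0 0 1 := by rw [T_swap12, a1]
  have a3 : T H π 1 0 1 = T H π 1 1 0 := T_swap23 H π 1 0 1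
  have a4 : T H π 0 1 1 = T H π 1 1 0 := by rw [T_swap12, a3]
  have b1 : T H π 0 2 0 = T H π 0 0 2 := T_swap23 H π 0 2 0
  have b2 : T H π 2 0 0 = T H π 0 0 2 := by rw [T_swap12, b1]
  have b3 : T H π 2 0 2 = T H π 2 2 0 := T_swap23 H π 2 0 2
  have b4 : T H π 0 2 2 = T H π 2 2 0 := by rw [T_swap12, b3]
  have c1 : T H π 1 2 1 = T H π 1 1 2 := T_swap23 H π 1 2 1
  have c2 : T H π 2 1 1 = T H π 1 1 2 := by rw [T_swap12, c1]
  have c3 : T H π 2 1 2 = T H π 2 2 1 := T_swap23 H π 2 1 2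
  have c4 : T H π 1 2 2 = T H π 2 2 1 := by rw [T_swap12, c3]
  have d1 : T H π 0 2 1 = T H π 0 1 2 := T_swap23 H π 0 2 1
  have d2 : T H π 1 0 2 = T H π 0 1 2 := T_swap12 H π 1 0 2
  have d3 : T H π 1 2 0 = T H π 0 1 2 := by rw [T_swap23, d2]
  have d4 : T H π 2 0 1 = T H π 0 1 2 := by rw [T_swap12, d1]
  have d5 : T H π 2 1 0 = T H π 0 1 2 := by rw [T_swap12, d3]
  rw [a1, a2, a3, a4, b1, b2, b3, b4, c1, c2, c3, c4, d1, d2, d3, d4, d5]
  ring

/-- Three classes without inner edges. -/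
theorem fam_three (h3 : ThreeGraph H) (hK : K43Free H) (hg : InvFamily H π g c) (hc : 0 < c)
    (hI : ∀ i, ∀ e ∈ H, ∃ p ∈ e, π p ≠ i)
    (m : ℕ) (hm : ∀ i, (cl π i).card = m) (hι : Fintype.card ι ≤ c * m) :
    54 * H.card ≤ 5 * (3 * m) ^ 3 := by
  have h := fam_total h3 (T_indep hI)
  have hb := fam_bound h3 hK hg hc m m hm hι
  have e0 : m * m ^ 2 = m ^ 3 := by ring
  rw [e0] at hb
  have b1 := hb 0 1
  have b2 := hb 1 2
  have b3 := hb 2 0
  have b4 := T_le H π m hm 0 1 2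
  have e : (3 * m) ^ 3 = 27 * m ^ 3 := by ring
  rw [e]
  omega

/-- Three classes without inner edges, the family being as small as possible. -/
theorem fam_exact (h3 : ThreeGraph H) (hK : K43Free H) (hg : InvFamily H π g c) (hc : 0 < c)
    (hI : ∀ i, ∀ e ∈ H, ∃ p ∈ e, π p ≠ i)
    (m : ℕ) (hm : ∀ i, (cl π i).card = m) (hι : Fintype.card ι ≤ c * (m - 1)) :
    2 * H.card ≤ m ^ 2 * (5 * m - 3) := by
  have h := fam_total h3 (T_indep hI)
  have hb := fam_bound h3 hK hg hc m (m - 1) hm hι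
  have e0 : (m - 1) * m ^ 2 = m ^ 2 * (m - 1) := by ring
  rw [e0] at hb
  have b1 := hb 0 1
  have b2 := hb 1 2
  have b3 := hb 2 0
  have b4 := T_le H π m hm 0 1 2
  have ha := arith m
  omega

lemma T_full (m : ℕ) (hm : ∀ i, (cl π i).card = m) {i j l : Fin 3}
    (h : T H π i j l = m ^ 3) {x y z : V} (hx : π x = i) (hy : π y = j) (hz : π z = l) :
    ({x, y, z} : Finset V) ∈ H := by
  by_contra hcon
  have hlt : T H π i j l < m ^ 3 := by
    have e : m ^ 3 = ∑ x ∈ cl π i, ∑ y ∈ cl π j, ∑ z ∈ cl π l, 1 := by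
      simp [hm, pow_succ, mul_assoc]
    rw [e]
    unfold T
    have hle : ∀ x y z : V, (if ({x, y, z} : Finset V) ∈ H then 1 else 0) ≤ 1 := by
      intro x y z; split_ifs <;> simp
    have hx' : x ∈ cl π i := Finset.mem_filter.2 ⟨Finset.mem_univ _, hx⟩
    have hy' : y ∈ cl π j := Finset.mem_filter.2 ⟨Finset.mem_univ _, hy⟩
    have hz' : z ∈ cl π l := Finset.mem_filter.2 ⟨Finset.mem_univ _, hz⟩
    refine Finset.sum_lt_sum (fun x _ => Finset.sum_le_sum fun y _ =>
      Finset.sum_le_sum fun z _ => hle x y z) ⟨x, hx', ?_⟩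
    refine Finset.sum_lt_sum (fun y _ => Finset.sum_le_sum fun z _ => hle x y z)
      ⟨y, hy', ?_⟩
    refine Finset.sum_lt_sum (fun z _ => hle x y z) ⟨z, hz', ?_⟩
    rw [if_neg hcon]; exact Nat.one_pos
  rw [h] at hlt
  exact lt_irrefl _ hlt

lemma fam_eq (h3 : ThreeGraph H) (hK : K43Free H) (hg : InvFamily H π g c)
    (m : ℕ) (hm : ∀ i, (cl π i).card = m) (hι : Fintype.card ι ≤ c * (m - 1)) (i j : Fin 3)
    (h : T H π i i j + T H π j j i = m ^ 2 * (m - 1)) (t : ι) {x y : V} (hx : π x = i)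
    (hy : π y = j) :
    (({x, g t x, y} : Finset V) ∈ H ↔ ¬ ({y, g t y, x} : Finset V) ∈ H) := by
  have h1 := fam_low h3 hg i j
  have h2 := fam_low h3 hg j i
  rw [Finset.sum_comm] at h2
  have h4 : Fintype.card ι * m ^ 2 ≤ c * (T H π i i j + T H π j j i) := by
    rw [h]
    calc _ ≤ c * (m - 1) * m ^ 2 := Nat.mul_le_mul_right _ hι
      _ = _ := by ring
  have h5 : (∑ x ∈ cl π i, ∑ y ∈ cl π j, ∑ t : ι, 1) = Fintype.card ι * m ^ 2 := by
    simp [hm, pow_succ]; ring
  have hle : ∀ (x y : V) (t : ι), ((if ({x, g t x, y} : Finset V) ∈ H then 1 else 0) +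
      if ({y, g t y, x} : Finset V) ∈ H then 1 else 0) ≤ 1 := by
    intro x y t
    have := fam_pt h3 hK hg t x y
    split_ifs with h1 h2 <;> first | omega | exact (this h1 h2).elim
  have h6 : (∑ x ∈ cl π i, ∑ y ∈ cl π j, ∑ t : ι,
      ((if ({x, g t x, y} : Finset V) ∈ H then 1 else 0) +
        if ({y, g t y, x} : Finset V) ∈ H then 1 else 0)) =
      ∑ x ∈ cl π i, ∑ y ∈ cl π j, ∑ t : ι, 1 := by
    apply le_antisymm
    · exact Finset.sum_le_sum fun x _ => Finset.sum_le_sum fun y _ =>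
        Finset.sum_le_sum fun t _ => hle x y t
    · rw [h5]
      simp only [Finset.sum_add_distrib]
      have : c * (T H π i i j + T H π j j i) = c * T H π i i j + c * T H π j j i := by ring
      omega
  have hx' : x ∈ cl π i := Finset.mem_filter.2 ⟨Finset.mem_univ _, hx⟩
  have hy' : y ∈ cl π j := Finset.mem_filter.2 ⟨Finset.mem_univ _, hy⟩
  have a1 := (Finset.sum_eq_sum_iff_of_le (fun x _ => Finset.sum_le_sum fun y _ =>
    Finset.sum_le_sum fun t _ => hle x y t)).1 h6 x hx'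
  have a2 := (Finset.sum_eq_sum_iff_of_le (fun y _ =>
    Finset.sum_le_sum fun t _ => hle x y t)).1 a1 y hy'
  have a3 := (Finset.sum_eq_sum_iff_of_le (fun t _ => hle x y t)).1 a2 t (Finset.mem_univ t)
  constructor
  · intro h7 h8
    rw [if_pos h7, if_pos h8] at a3
    omega
  · intro h8
    by_contra h7
    rw [if_neg h7, if_neg h8] at a3
    omega

lemma card_filter_triple {a b c : V} (hab : a ≠ b) (hac : a ≠ c) (hbc : b ≠ c)
    (i : Fin 3) : (({a, b, c} : Finset V).filter fun v => π v = i).card =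
      cnt (π a) (π b) (π c) i := by
  unfold cnt
  rw [Finset.card_filter, Finset.sum_insert (by simp [hab, hac]), Finset.sum_insert (by simp [hbc]),
    Finset.sum_singleton]
  ring

/-- Uniqueness. -/
theorem fam_unique (h3 : ThreeGraph H) (hK : K43Free H) (hg : InvFamily H π g c) (hc : 0 < c)
    (hI : ∀ i, ∀ e ∈ H, ∃ p ∈ e, π p ≠ i)
    (m : ℕ) (hm : ∀ i, (cl π i).card = m) (hι : Fintype.card ι ≤ c * (m - 1))
    (heq : 2 * H.card = m ^ 2 * (5 * m - 3)) :
    ∃ δ : Fin 3, δ ≠ 0 ∧ ∀ e : Finset V, e ∈ H ↔ TuranEdge π δ e := by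
  have h := fam_total h3 (T_indep hI)
  have hb := fam_bound h3 hK hg hc m (m - 1) hm hι
  have e0 : (m - 1) * m ^ 2 = m ^ 2 * (m - 1) := by ring
  rw [e0] at hb
  have b1 := hb 0 1
  have b2 := hb 1 2
  have b3 := hb 2 0
  have b4 := T_le H π m hm 0 1 2
  have ha := arith m
  have c1 : T H π 0 0 1 + T H π 1 1 0 = m ^ 2 * (m - 1) := by omega
  have c2 : T H π 1 1 2 + T H π 2 2 1 = m ^ 2 * (m - 1) := by omega
  have c3 : T H π 2 2 0 + T H π 0 0 2 = m ^ 2 * (m - 1) := by omega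
  have c4 : T H π 0 1 2 = m ^ 3 := by omega
  have hpair : ∀ i j : Fin 3, i ≠ j → T H π i i j + T H π j j i = m ^ 2 * (m - 1) := by
    intro i j hij
    have hc := (by decide : ∀ i j : Fin 3, i ≠ j → (i = 0 ∧ j = 1) ∨ (i = 1 ∧ j = 0) ∨
      (i = 1 ∧ j = 2) ∨ (i = 2 ∧ j = 1) ∨ (i = 2 ∧ j = 0) ∨ (i = 0 ∧ j = 2)) i j hij
    rcases hc with ⟨rfl, rfl⟩ | ⟨rfl, rfl⟩ | ⟨rfl, rfl⟩ | ⟨rfl, rfl⟩ | ⟨rfl, rfl⟩ | ⟨rfl, rfl⟩
    · exact c1
    · rw [add_comm]; exact c1
    · exact c2
    · rw [add_comm]; exact c2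
    · exact c3
    · rw [add_comm]; exact c3
  have hT : ∀ i j l : Fin 3, i ≠ j → i ≠ l → j ≠ l → T H π i j l = m ^ 3 := by
    have d1 : T H π 0 2 1 = T H π 0 1 2 := T_swap23 H π 0 2 1
    have d2 : T H π 1 0 2 = T H π 0 1 2 := T_swap12 H π 1 0 2
    have d3 : T H π 1 2 0 = T H π 0 1 2 := by rw [T_swap23, d2]
    have d4 : T H π 2 0 1 = T H π 0 1 2 := by rw [T_swap12, d1]
    have d5 : T H π 2 1 0 = T H π 0 1 2 := by rw [T_swap12, d3]
    intro i j l hij hil hjl
    have hc := (by decide : ∀ i j l : Fin 3, i ≠ j → i ≠ l → j ≠ l →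
      (i = 0 ∧ j = 1 ∧ l = 2) ∨ (i = 0 ∧ j = 2 ∧ l = 1) ∨ (i = 1 ∧ j = 0 ∧ l = 2) ∨
      (i = 1 ∧ j = 2 ∧ l = 0) ∨ (i = 2 ∧ j = 0 ∧ l = 1) ∨ (i = 2 ∧ j = 1 ∧ l = 0))
      i j l hij hil hjl
    rcases hc with ⟨rfl, rfl, rfl⟩ | ⟨rfl, rfl, rfl⟩ | ⟨rfl, rfl, rfl⟩ | ⟨rfl, rfl, rfl⟩ |
      ⟨rfl, rfl, rfl⟩ | ⟨rfl, rfl, rfl⟩
    · exact c4
    · exact d1.trans c4
    · exact d2.trans c4
    · exact d3.trans c4
    · exact d4.trans c4
    · exact d5.trans c4
  have hR : ∀ x y z : V, π x ≠ π y → π x ≠ π z → π y ≠ π z → ({x, y, z} : Finset V) ∈ H :=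
    fun x y z hxy hxz hyz => T_full m hm (hT _ _ _ hxy hxz hyz) rfl rfl rfl
  have hX : ∀ (t : ι) (x y : V), π x ≠ π y →
      (({x, g t x, y} : Finset V) ∈ H ↔ ¬ ({y, g t y, x} : Finset V) ∈ H) :=
    fun t x y hxy => fam_eq h3 hK hg m hm hι _ _ (hpair _ _ hxy) t rfl rfl
  -- the link of a pair inside a class meets only one other class
  have hY : ∀ x x' y z : V, π x' = π x → π x ≠ π y → π x ≠ π z → π y ≠ π z →
      ({x, x', y} : Finset V) ∈ H → ({x, x', z} : Finset V) ∉ H := by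
    intro x x' y z hxx hxy hxz hyz h4 h5
    exact noK4 h3 hK h4 h5 (hR x y z hxy hxz hyz)
      (hR x' y z (by rwa [hxx]) (by rwa [hxx]) hyz)
  have f1 : ∀ i : Fin 3, i ≠ i + 1 := by decide
  have f2 : ∀ i : Fin 3, i ≠ i + 2 := by decide
  have f3 : ∀ i : Fin 3, i + 1 ≠ i + 2 := by decide
  have f4 : ∀ i : Fin 3, i + 2 + 1 = i := by decide
  have f5 : ∀ i : Fin 3, i + 1 + 1 = i + 2 := by decide
  have hstep : ∀ (t : ι) (x y : V), π y = π x + 1 → ({x, g t x, y} : Finset V) ∈ H →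
      ∀ u v : V, π v = π u + 1 → ({u, g t u, v} : Finset V) ∈ H := by
    intro t x y hxy hmem
    -- pairs in the class `π x + 2`
    have g1 : ∀ z : V, π z = π x + 2 → ({z, g t z, x} : Finset V) ∈ H := by
      intro z hz
      have h6 := hY x (g t x) y z (hg.cls t x) (by rw [hxy]; exact f1 _) (by rw [hz]; exact f2 _)
        (by rw [hxy, hz]; exact f3 _) hmem
      have h7 := (hX t x z (by rw [hz]; exact f2 _)).not.1 h6
      exact not_not.1 h7
    have g2 : ∀ w z : V, π w = π x + 1 → π z = π x + 2 → ({w, g t w, z} : Finset V) ∈ H := by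
      intro w z hw hz
      have h6 := hY z (g t z) x w (hg.cls t z) (by rw [hz]; exact (f2 _).symm)
        (by rw [hz, hw]; exact (f3 _).symm) (by rw [hw]; exact f1 _) (g1 z hz)
      have h7 := (hX t z w (by rw [hz, hw]; exact (f3 _).symm)).not.1 h6
      exact not_not.1 h7
    -- a vertex of class `π x + 2`
    have hne : ∀ i : Fin 3, ∃ z : V, π z = i := by
      intro i
      have hpos : 0 < (cl π i).card := by
        rw [hm i, ← hm (π x)]
        exact Finset.card_pos.2 ⟨x, Finset.mem_filter.2 ⟨Finset.mem_univ _, rfl⟩⟩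
      obtain ⟨z, hz⟩ := Finset.card_pos.1 hpos
      exact ⟨z, (Finset.mem_filter.1 hz).2⟩
    obtain ⟨z0, hz0⟩ := hne (π x + 2)
    have g3 : ∀ u w : V, π u = π x → π w = π x + 1 → ({u, g t u, w} : Finset V) ∈ H := by
      intro u w hu hw
      have h6 := hY w (g t w) z0 u (hg.cls t w) (by rw [hw, hz0]; exact f3 _)
        (by rw [hw, hu]; exact (f1 _).symm) (by rw [hz0, hu]; exact (f2 _).symm) (g2 w z0 hw hz0)
      have h7 := (hX t w u (by rw [hw, hu]; exact (f1 _).symm)).not.1 h6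
      exact not_not.1 h7
    obtain ⟨w0, hw0⟩ := hne (π x + 1)
    have g4 : ∀ z u : V, π z = π x + 2 → π u = π x → ({z, g t z, u} : Finset V) ∈ H := by
      intro z u hz hu
      have h6 := hY u (g t u) w0 z (hg.cls t u) (by rw [hu, hw0]; exact f1 _)
        (by rw [hu, hz]; exact f2 _) (by rw [hw0, hz]; exact f3 _) (g3 u w0 hu hw0)
      have h7 := (hX t u z (by rw [hu, hz]; exact f2 _)).not.1 h6
      exact not_not.1 h7
    intro u v huv
    have hcase := (by decide : ∀ i j : Fin 3, j = i ∨ j = i + 1 ∨ j = i + 2) (π x) (π u)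
    rcases hcase with hu | hu | hu
    · exact g3 u v hu (by rw [huv, hu])
    · exact g2 u v hu (by rw [huv, hu]; exact f5 _)
    · exact g4 u v hu (by rw [huv, hu]; exact f4 _)
  have hor : ∀ t : ι, (∀ u v : V, π v = π u + 1 → ({u, g t u, v} : Finset V) ∈ H) ∨
      (∀ u v : V, π v = π u + 2 → ({u, g t u, v} : Finset V) ∈ H) := by
    intro t
    by_cases hex : ∃ x y : V, π y = π x + 1 ∧ ({x, g t x, y} : Finset V) ∈ H
    · obtain ⟨x, y, hxy, hmem⟩ := hex
      exact Or.inl (hstep t x y hxy hmem)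
    · right
      push Not at hex
      intro u v huv
      have h6 := hex v u (by rw [huv]; exact (f4 _).symm)
      have h7 := (hX t v u (by rw [huv]; exact (f2 _).symm)).not.1 h6
      exact not_not.1 h7
  have hglob : (∀ (t : ι) (u v : V), π v = π u + 1 → ({u, g t u, v} : Finset V) ∈ H) ∨
      (∀ (t : ι) (u v : V), π v = π u + 2 → ({u, g t u, v} : Finset V) ∈ H) := by
    by_contra hcon
    push Not at hcon
    obtain ⟨⟨t, u, v, huv, hv⟩, ⟨s, w, z, hwz, hz⟩⟩ := hcon
    have ht := (hor t).resolve_left (fun h => hv (h u v huv))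
    have hs := (hor s).resolve_right (fun h => hz (h w z hwz))
    -- `s` points from the class of `u` to the class of `v'`, `t` back
    have hne : ∃ y : V, π y = π u + 1 := by
      have hpos : 0 < (cl π (π u + 1)).card := by
        rw [hm, ← hm (π u)]
        exact Finset.card_pos.2 ⟨u, Finset.mem_filter.2 ⟨Finset.mem_univ _, rfl⟩⟩
      obtain ⟨y, hy⟩ := Finset.card_pos.1 hpos
      exact ⟨y, (Finset.mem_filter.1 hy).2⟩
    obtain ⟨y, hy⟩ := hne
    have k1 : ({u, g s u, y} : Finset V) ∈ H := hs u y hy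
    have k2 : ({u, g s u, g t y} : Finset V) ∈ H := hs u (g t y) (by rw [hg.cls, hy])
    have f6 : ∀ i : Fin 3, i = i + 1 + 2 := by decide
    have k3 : ({y, g t y, u} : Finset V) ∈ H := ht y u (by rw [hy]; exact f6 _)
    have k4 : ({y, g t y, g s u} : Finset V) ∈ H := ht y (g s u) (by rw [hg.cls, hy]; exact f6 _)
    refine noK4 h3 hK k1 k2 ?_ ?_
    · rw [swap12, swap23]; exact k3
    · rw [swap12, swap23]; exact k4
  obtain ⟨δ, hδ, hst⟩ : ∃ δ : Fin 3, δ ≠ 0 ∧
      ∀ (t : ι) (u v : V), π v = π u + δ → ({u, g t u, v} : Finset V) ∈ H := by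
    rcases hglob with h | h
    · exact ⟨1, by decide, h⟩
    · exact ⟨2, by decide, h⟩
  refine ⟨δ, hδ, ?_⟩
  have hmem2 : ∀ a b c' : V, a ≠ b → π a = π b → π a ≠ π c' →
      ((({a, b, c'} : Finset V) ∈ H) ↔ psi δ (π a) (π a) (π c')) := by
    intro a b c' hab hπ hac
    have hex := hg.exch a b hab hπ
    obtain ⟨t, ht⟩ := Finset.card_pos.1 (lt_of_lt_of_le hc hex)
    have hgt : g t a = b := (Finset.mem_filter.1 ht).2
    have hl := (by decide : ∀ δ i l : Fin 3, δ ≠ 0 → i ≠ l → l = i + δ ∨ l = i + 2 * δ) δ _ _ hδ hac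
    rcases hl with hl | hl
    · refine iff_of_true ?_ (by
        rw [hl]; exact (by decide : ∀ δ i : Fin 3, δ ≠ 0 → psi δ i i (i + δ)) δ _ hδ)
      have := hst t a c' hl
      rwa [hgt] at this
    · refine iff_of_false ?_ (by
        rw [hl]; exact (by decide : ∀ δ i : Fin 3, δ ≠ 0 → ¬ psi δ i i (i + 2 * δ)) δ _ hδ)
      have hne : ∃ y : V, π y = π a + δ := by
        have hpos : 0 < (cl π (π a + δ)).card := by
          rw [hm, ← hm (π a)]
          exact Finset.card_pos.2 ⟨a, Finset.mem_filter.2 ⟨Finset.mem_univ _, rfl⟩⟩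
        obtain ⟨y, hy⟩ := Finset.card_pos.1 hpos
        exact ⟨y, (Finset.mem_filter.1 hy).2⟩
      obtain ⟨y, hy⟩ := hne
      have h8 := hst t a y hy
      rw [hgt] at h8
      exact hY a b y c' hπ.symm
        (by rw [hy]; exact (by decide : ∀ δ i : Fin 3, δ ≠ 0 → i ≠ i + δ) δ _ hδ) hac
        (by rw [hy, hl]; exact (by decide : ∀ δ i : Fin 3, δ ≠ 0 → i + δ ≠ i + 2 * δ) δ _ hδ) h8
  have hmem : ∀ a b c' : V, a ≠ b → a ≠ c' → b ≠ c' →
      ((({a, b, c'} : Finset V) ∈ H) ↔ psi δ (π a) (π b) (π c')) := by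
    intro a b c' hab hac hbc
    by_cases hij : π a = π b
    · by_cases hil : π a = π c'
      · rw [← hij, ← hil]
        refine iff_of_false ?_ ((by decide : ∀ δ i : Fin 3, ¬ psi δ i i i) δ _)
        intro hmm
        obtain ⟨p, hp, hpi⟩ := hI (π a) _ hmm
        simp only [mem_insert, mem_singleton] at hp
        rcases hp with rfl | rfl | rfl
        · exact hpi rfl
        · exact hpi hij.symm
        · exact hpi hil.symm
      · rw [hmem2 a b c' hab hij hil, ← hij]
    · by_cases hil : π a = π c'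
      · rw [swap23, hmem2 a c' b hac hil hij, ← hil]
        exact (by decide : ∀ δ i j : Fin 3, psi δ i i j ↔ psi δ i j i) δ _ _
      · by_cases hjl : π b = π c'
        · have e : ({a, b, c'} : Finset V) = {b, c', a} := by rw [swap12, swap23]
          rw [e, hmem2 b c' a hbc hjl (Ne.symm hij), ← hjl]
          exact (by decide : ∀ δ i j : Fin 3, psi δ j j i ↔ psi δ i j j) δ _ _
        · exact iff_of_true (hR a b c' hij hil hjl)
            ((by decide : ∀ δ i j l : Fin 3, i ≠ j → i ≠ l → j ≠ l → psi δ i j l) δ _ _ _ hij hil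
              hjl)
  intro e
  by_cases he : e.card = 3
  · obtain ⟨a, b, c', hab, hac, hbc, rfl⟩ := Finset.card_eq_three.1 he
    rw [hmem a b c' hab hac hbc]
    unfold TuranEdge psi
    simp only [card_filter_triple hab hac hbc, he, true_and]
  · exact iff_of_false (fun hh => he (h3 e hh)) (fun hh => he hh.1)

end Three


/-! ### Turan's 3-graph -/

section TuranSet

variable {V : Type} [Fintype V] [DecidableEq V] {H : Finset (Finset V)} {π : V → Fin 3}

lemma turanEdge_iff (δ : Fin 3) {a b c : V} (hab : a ≠ b) (hac : a ≠ c) (hbc : b ≠ c) :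
    TuranEdge π δ {a, b, c} ↔ psi δ (π a) (π b) (π c) := by
  unfold TuranEdge psi
  simp only [card_filter_triple hab hac hbc, card_triple hab hac hbc, true_and]

lemma T_zero_of (δ i j l : Fin 3) (hH : ∀ e, e ∈ H ↔ TuranEdge π δ e) (h : ¬ psi δ i j l) :
    T H π i j l = 0 := by
  have h3 : ThreeGraph H := fun e he => ((hH e).1 he).1
  unfold T
  refine Finset.sum_eq_zero fun x hx => Finset.sum_eq_zero fun y hy =>
    Finset.sum_eq_zero fun z hz => ?_
  rw [if_neg]
  intro hm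
  obtain ⟨hab, hac, hbc⟩ := ne_of_mem h3 hm
  have := (turanEdge_iff δ hab hac hbc).1 ((hH _).1 hm)
  rw [(Finset.mem_filter.1 hx).2, (Finset.mem_filter.1 hy).2, (Finset.mem_filter.1 hz).2] at this
  exact h this

lemma T_rainbow (δ i j l : Fin 3) (hH : ∀ e, e ∈ H ↔ TuranEdge π δ e) (h : psi δ i j l)
    (hij : i ≠ j) (hil : i ≠ l) (hjl : j ≠ l) (m : ℕ) (hm : ∀ i, (cl π i).card = m) :
    T H π i j l = m ^ 3 := by
  unfold T
  have h1 : ∀ x ∈ cl π i, ∀ y ∈ cl π j, ∀ z ∈ cl π l,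
      (if ({x, y, z} : Finset V) ∈ H then 1 else 0) = 1 := by
    intro x hx y hy z hz
    have ex := (Finset.mem_filter.1 hx).2
    have ey := (Finset.mem_filter.1 hy).2
    have ez := (Finset.mem_filter.1 hz).2
    rw [if_pos]
    rw [hH, turanEdge_iff δ (fun h => hij (by rw [← ex, ← ey, h]))
      (fun h => hil (by rw [← ex, ← ez, h])) (fun h => hjl (by rw [← ey, ← ez, h])), ex, ey, ez]
    exact h
  rw [Finset.sum_congr rfl fun x hx => Finset.sum_congr rfl fun y hy =>
    Finset.sum_congr rfl fun z hz => h1 x hx y hy z hz]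
  simp [hm, pow_succ, mul_assoc]

lemma T_two (δ i l : Fin 3) (hH : ∀ e, e ∈ H ↔ TuranEdge π δ e) (h : psi δ i i l)
    (hil : i ≠ l) (m : ℕ) (hm : ∀ i, (cl π i).card = m) :
    T H π i i l = m ^ 2 * (m - 1) := by
  have h3 : ThreeGraph H := fun e he => ((hH e).1 he).1
  unfold T
  have h1 : ∀ x ∈ cl π i, (∑ y ∈ cl π i, ∑ z ∈ cl π l,
      if ({x, y, z} : Finset V) ∈ H then 1 else 0) = m * (m - 1) := by
    intro x hx
    have ex := (Finset.mem_filter.1 hx).2
    have h2 : ∀ y ∈ cl π i, (∑ z ∈ cl π l, if ({x, y, z} : Finset V) ∈ H then 1 else 0) =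
        if y ≠ x then m else 0 := by
      intro y hy
      have ey := (Finset.mem_filter.1 hy).2
      by_cases hxy : y = x
      · subst hxy
        rw [if_neg (by simp)]
        refine Finset.sum_eq_zero fun z _ => ?_
        rw [if_neg (fun hm => (ne_of_mem h3 hm).1 rfl)]
      · rw [if_pos hxy]
        have h4 : ∀ z ∈ cl π l, (if ({x, y, z} : Finset V) ∈ H then 1 else 0) = 1 := by
          intro z hz
          have ez := (Finset.mem_filter.1 hz).2
          rw [if_pos]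
          rw [hH, turanEdge_iff δ (Ne.symm hxy) (fun h => hil (by rw [← ex, ← ez, h]))
            (fun h => hil (by rw [← ey, ← ez, h])), ex, ey, ez]
          exact h
        rw [Finset.sum_congr rfl h4]
        simp [hm]
    rw [Finset.sum_congr rfl h2, ← Finset.sum_filter, Finset.sum_const, Finset.filter_ne',
      Finset.card_erase_of_mem hx, hm, smul_eq_mul, mul_comm]
  rw [Finset.sum_congr rfl h1, Finset.sum_const, hm, smul_eq_mul]
  ring

lemma turanEdge_indep (δ : Fin 3) (hH : ∀ e, e ∈ H ↔ TuranEdge π δ e) :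
    ∀ i, ∀ e ∈ H, ∃ p ∈ e, π p ≠ i := by
  intro i e he
  obtain ⟨h3, h4⟩ := (hH e).1 he
  by_contra hcon
  push Not at hcon
  have hc : ∀ j, (e.filter fun v => π v = j).card = if j = i then 3 else 0 := by
    intro j
    by_cases hj : j = i
    · subst hj
      rw [if_pos rfl, Finset.filter_true_of_mem hcon, h3]
    · rw [if_neg hj, Finset.card_eq_zero, Finset.filter_eq_empty_iff]
      intro p hp hpj
      exact hj (by rw [← hpj, hcon p hp])
  rcases h4 with h | ⟨j, h, -⟩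
  · have := h i
    rw [hc, if_pos rfl] at this
    omega
  · rw [hc] at h
    split_ifs at h; omega

lemma turanEdge_card (δ : Fin 3) (hδ : δ ≠ 0) (hH : ∀ e, e ∈ H ↔ TuranEdge π δ e)
    (m : ℕ) (hm : ∀ i, (cl π i).card = m) : 2 * H.card = m ^ 2 * (5 * m - 3) := by
  have h3 : ThreeGraph H := fun e he => ((hH e).1 he).1
  have h := fam_total h3 (T_indep (turanEdge_indep δ hH))
  have ha := arith m
  have hR : T H π 0 1 2 = m ^ 3 := T_rainbow δ 0 1 2 hH
    ((by decide : ∀ δ : Fin 3, psi δ 0 1 2) δ) (by decide) (by decide) (by decide) m hm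
  have hcase : δ = 1 ∨ δ = 2 := (by decide : ∀ δ : Fin 3, δ ≠ 0 → δ = 1 ∨ δ = 2) δ hδ
  rcases hcase with rfl | rfl
  · rw [hR, T_two 1 0 1 hH (by decide) (by decide) m hm, T_zero_of 1 1 1 0 hH (by decide),
      T_two 1 1 2 hH (by decide) (by decide) m hm, T_zero_of 1 2 2 1 hH (by decide),
      T_two 1 2 0 hH (by decide) (by decide) m hm, T_zero_of 1 0 0 2 hH (by decide)] at h
    omega
  · rw [hR, T_zero_of 2 0 0 1 hH (by decide), T_two 2 1 0 hH (by decide) (by decide) m hm,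
      T_zero_of 2 1 1 2 hH (by decide), T_two 2 2 1 hH (by decide) (by decide) m hm,
      T_zero_of 2 2 2 0 hH (by decide), T_two 2 0 2 hH (by decide) (by decide) m hm] at h
    omega

end TuranSet

end Pool.Agent.N910.HalfTurn
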