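import Pool.Agent.N894.WF.Defs

set_option autoImplicit false

/-!
# Project WF, leaf C3: assembly of the Nikolov-Segal part
-/

namespace Pool.Agent.N910.WF

open N894.WF

/-- a conjugation invariant length function -/
structure Len {H : Type} [Group H] (ell : H → ℝ) : Prop where
  one : ell 1 = 0
  nn : ∀ a, 0 ≤ ell a
  mul : ∀ a b, ell (a * b) ≤ ell a + ell b
  inv : ∀ a, ell a⁻¹ = ell a
  conj : ∀ x a, ell (x * a * x⁻¹) = ell a

theorem Len.of_dist {H : Type} [Group H] (d : H → H → ℝ) (h0 : ∀ a b, d a b = 0 ↔ a = b)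
    (hs : ∀ a b, d a b = d b a) (ht : ∀ a b c, d a c ≤ d a b + d b c)
    (hl : ∀ x a b, d (x * a) (x * b) = d a b) (hr : ∀ x a b, d (a * x) (b * x) = d a b) :
    Len (fun h => d h 1) where
  one := (h0 1 1).2 rfl
  nn a := by
    have h1 := ht 1 a 1
    have h2 : d 1 1 = 0 := (h0 1 1).2 rfl
    have h3 := hs 1 a
    show 0 ≤ d a 1
    linarith
  mul a b := by
    show d (a * b) 1 ≤ d a 1 + d b 1
    have h1 := ht (a * b) b 1
    have h2 := hr b a 1
    rw [one_mul] at h2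
    linarith
  inv a := by
    show d a⁻¹ 1 = d a 1
    have h1 := hl a a⁻¹ 1
    rw [mul_inv_cancel, mul_one] at h1
    rw [← h1, hs]
  conj x a := by
    show d (x * a * x⁻¹) 1 = d a 1
    have h1 := hr x⁻¹ (x * a) x
    rw [mul_inv_cancel] at h1
    have h2 := hl x a 1
    rw [mul_one] at h2
    rw [h1, h2]

theorem Len.pow {H : Type} [Group H] {ell : H → ℝ} (h : Len ell) (a : H) (n : ℕ) :
    ell (a ^ n) ≤ n * ell a := by
  induction n with
  | zero => simp [h.one]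
  | succ n ih =>
    have h1 := h.mul (a ^ n) a
    rw [pow_succ]
    push_cast
    linarith

theorem Len.zpow {H : Type} [Group H] {ell : H → ℝ} (h : Len ell) (a : H) (n : ℤ) :
    ell (a ^ n) ≤ |(n : ℝ)| * ell a := by
  obtain ⟨k, rfl | rfl⟩ := n.eq_nat_or_neg
  · have := h.pow a k
    simpa using this
  · have := h.pow a k
    rw [zpow_neg, h.inv]
    simpa using this

theorem Len.list {H : Type} [Group H] {ell : H → ℝ} (h : Len ell) (l : List H) (ε : ℝ)
    (hl : ∀ y ∈ l, ell y ≤ ε) : ell l.prod ≤ l.length * ε := by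
  induction l with
  | nil => simp [h.one]
  | cons y l ih =>
    have h1 := h.mul y l.prod
    have h2 := hl y (by simp)
    have h3 := ih fun z hz => hl z (by simp [hz])
    rw [List.prod_cons, List.length_cons]
    push_cast
    linarith

/-- the points -/
def pt {H S ι : Type} [Group H] (φ : S → H) (k : ι → H) (a b p : ι → S) (g : S) :
    Unit ⊕ ι ⊕ ι ⊕ ι → H × S
  | Sum.inl _ => (1, g)
  | Sum.inr (Sum.inl i) => (k i, a i)
  | Sum.inr (Sum.inr (Sum.inl i)) => (k i * φ (a i), b i)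
  | Sum.inr (Sum.inr (Sum.inr i)) => (k i * φ (a i) * φ (b i) * (φ (p i))⁻¹, p i)

theorem ind_eq {H S : Type} [Group H] (C : Subgroup H) (x x' : H) (s : S) (hx : x * x'⁻¹ ∈ C)
    (y : H) (s' : S) : ind C x s y s' = ind C x' s y s' := by
  unfold ind
  congr 1
  apply propext
  constructor
  · rintro ⟨h1, h2⟩
    refine ⟨h1, ?_⟩
    have := C.mul_mem h2 hx
    simpa [mul_assoc] using this
  · rintro ⟨h1, h2⟩
    refine ⟨h1, ?_⟩
    have := C.mul_mem h2 (C.inv_mem hx)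
    simpa [mul_assoc] using this

theorem ind_abs {H S : Type} [Group H] (C : Subgroup H) (x : H) (s : S) (y : H) (s' : S) :
    |ind C x s y s'| ≤ 1 := by
  unfold ind
  split_ifs <;> simp

theorem rel_abs {H S : Type} [Group H] (C : Subgroup H) (φ : S → H) (x : H) (s : S) (k : H)
    (a b p : S) : |rel C φ x s k a b p| ≤ 3 := by
  unfold rel
  have h1 := ind_abs C x s k a
  have h2 := ind_abs C x s (k * φ a) b
  have h3 := ind_abs C x s (k * φ a * φ b * (φ p)⁻¹) p
  rw [abs_le] at *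
  constructor <;> linarith [h1.1, h1.2, h2.1, h2.2, h3.1, h3.2]

/-- exact linear relation -/
theorem exact_rel {K m L : ℕ}
    (hLIN : ∀ (ι X : Type) [Fintype ι], Fintype.card ι ≤ K →
      ∀ (A : ι → X → ℤ) (v : X → ℤ) (Y : Finset X), Y.card ≤ 3 * K + 1 →
      (∀ x, x ∉ Y → v x = 0 ∧ ∀ i, A i x = 0) →
      (∀ x, |v x| ≤ (3 : ℕ) ∧ ∀ i, |A i x| ≤ (3 : ℕ)) →
      (∃ e : ι → ℤ, ∀ x, (m : ℤ) ∣ (∑ i, e i * A i x) - v x) →
      ∃ lam : ι → ℤ, (∀ i, |lam i| ≤ L) ∧ ∀ x, ∑ i, lam i * A i x = v x)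
    {H S ι : Type} [Group H] [Fintype ι] (hι : Fintype.card ι ≤ K) (φ : S → H) (C : Subgroup H)
    (k : ι → H) (a b p : ι → S) (g : S)
    (he : ∃ e : ι → ℤ, ∀ (y : H) (s : S), (m : ℤ) ∣
      (∑ i, e i * rel C φ y s (k i) (a i) (b i) (p i)) - ind C y s 1 g) :
    ∃ lam : ι → ℤ, (∀ i, |lam i| ≤ L) ∧
      ∀ (x : H) (s : S), ∑ i, lam i * rel C φ x s (k i) (a i) (b i) (p i) = ind C x s 1 g := by
  classical
  obtain ⟨e, he⟩ := he
  obtain ⟨lam, h1, h2⟩ := hLIN ι (Unit ⊕ ι ⊕ ι ⊕ ι) hι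
    (fun i x => rel C φ (pt φ k a b p g x).1 (pt φ k a b p g x).2 (k i) (a i) (b i) (p i))
    (fun x => ind C (pt φ k a b p g x).1 (pt φ k a b p g x).2 1 g) Finset.univ
    (by
      rw [Finset.card_univ]
      simp only [Fintype.card_sum, Fintype.card_unit]
      omega)
    (fun x hx => absurd (Finset.mem_univ x) hx)
    (fun x => ⟨(ind_abs _ _ _ _ _).trans (by norm_num), fun i =>
      (rel_abs _ _ _ _ _ _ _ _).trans (by norm_num)⟩)
    ⟨e, fun x => he _ _⟩
  refine ⟨lam, h1, fun x s => ?_⟩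
  by_cases hx : ∃ z, (pt φ k a b p g z).2 = s ∧ x * (pt φ k a b p g z).1⁻¹ ∈ C
  · obtain ⟨z, hz1, hz2⟩ := hx
    have h3 := h2 z
    simp only [hz1] at h3
    rw [ind_eq C x _ s hz2, ← h3]
    refine Finset.sum_congr rfl fun i _ => ?_
    unfold rel
    rw [ind_eq C x _ s hz2, ind_eq C x _ s hz2, ind_eq C x _ s hz2]
  · have key : ∀ z, ind C x s (pt φ k a b p g z).1 (pt φ k a b p g z).2 = 0 := by
      intro z
      unfold ind
      rw [if_neg]
      rintro ⟨h3, h4⟩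
      apply hx
      refine ⟨z, h3, ?_⟩
      have := C.inv_mem h4
      simpa using this
    have e0 : ind C x s 1 g = 0 := key (Sum.inl ())
    rw [e0]
    refine Finset.sum_eq_zero fun i _ => ?_
    have e1 : ind C x s (k i) (a i) = 0 := key (Sum.inr (Sum.inl i))
    have e2 : ind C x s (k i * φ (a i)) (b i) = 0 := key (Sum.inr (Sum.inr (Sum.inl i)))
    have e3 : ind C x s (k i * φ (a i) * φ (b i) * (φ (p i))⁻¹) (p i) = 0 :=
      key (Sum.inr (Sum.inr (Sum.inr i)))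
    unfold rel
    rw [e1, e2, e3]
    simp

/-- the estimate -/
theorem core {K m L f : ℕ}
    (hLIN : ∀ (ι X : Type) [Fintype ι], Fintype.card ι ≤ K →
      ∀ (A : ι → X → ℤ) (v : X → ℤ) (Y : Finset X), Y.card ≤ 3 * K + 1 →
      (∀ x, x ∉ Y → v x = 0 ∧ ∀ i, A i x = 0) →
      (∀ x, |v x| ≤ (3 : ℕ) ∧ ∀ i, |A i x| ≤ (3 : ℕ)) →
      (∃ e : ι → ℤ, ∀ x, (m : ℤ) ∣ (∑ i, e i * A i x) - v x) →
      ∃ lam : ι → ℤ, (∀ i, |lam i| ≤ L) ∧ ∀ x, ∑ i, lam i * A i x = v x)
    (hC1 : LeafC1)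
    (hNS : ∀ (C : Type) (_ : Group C) (_ : Finite C) (T : Finset C), T.card ≤ K →
      Subgroup.closure (T : Set C) = ⊤ →
      ∀ x ∈ commutator C, ∃ l : List C, l.length ≤ f ∧
        (∀ y ∈ l, ∃ t ∈ T, ∃ z : C, y = z * t * z⁻¹ ∨ y = z * t⁻¹ * z⁻¹) ∧ l.prod = x)
    {H S ι : Type} [Group H] [Finite H] [Fintype ι] (hι : Fintype.card ι ≤ K) (φ : S → H)
    (k : ι → H) (a b p : ι → S) (g : S) (ell : H → ℝ) (hell : Len ell) (ε : ℝ) (hε : 0 ≤ ε)
    (hc : ∀ i, ell (k i * (φ (a i) * φ (b i) * (φ (p i))⁻¹) * (k i)⁻¹) ≤ ε)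
    (C : Subgroup H)
    (hC : C = Subgroup.closure
      (Set.range fun i => k i * (φ (a i) * φ (b i) * (φ (p i))⁻¹) * (k i)⁻¹))
    (hg : φ g ∈ C)
    (he : ∃ e : ι → ℤ, ∀ (y : H) (s : S), (m : ℤ) ∣
      (∑ i, e i * rel C φ y s (k i) (a i) (b i) (p i)) - ind C y s 1 g) :
    ell (φ g) ≤ (f + K * L) * ε := by
  classical
  obtain ⟨lam, hlam, hid⟩ := exact_rel hLIN hι φ C k a b p g he
  have hcC : ∀ i, k i * (φ (a i) * φ (b i) * (φ (p i))⁻¹) * (k i)⁻¹ ∈ C := by
    intro i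
    rw [hC]
    exact Subgroup.subset_closure ⟨i, rfl⟩
  have h1 := hC1 H S φ C (Abelianization C) Abelianization.of ι k a b p g lam hcC hg hid
  set c : ι → C := fun i => ⟨_, hcC i⟩ with hcdef
  set Pl : List C := (Finset.univ : Finset ι).toList.map fun i => c i ^ lam i with hPl
  set x : C := ⟨φ g, hg⟩ * Pl.prod⁻¹ with hx
  have hxc : x ∈ commutator C := by
    rw [← Abelianization.ker_of, MonoidHom.mem_ker, hx, map_mul, map_inv, h1, hPl, map_list_prod,
      List.map_map, mul_inv_eq_one]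
    have e1 : (⇑(Abelianization.of : C →* Abelianization C) ∘ fun i => c i ^ lam i) =
        fun i => (Abelianization.of (c i)) ^ lam i := by
      funext i
      simp
    rw [e1, Finset.prod_map_toList]
  obtain ⟨l, hl1, hl2, hl3⟩ := hNS C inferInstance inferInstance (Finset.univ.image c)
    ((Finset.card_image_le).trans (by rw [Finset.card_univ]; exact hι))
    (by
      subst hC
      rw [← Subgroup.closure_closure_coe_preimage]
      congr 1
      ext y
      simp only [Finset.coe_image, Finset.coe_univ, Set.image_univ, Set.mem_range, Set.mem_preimage]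
      constructor
      · rintro ⟨i, rfl⟩
        exact ⟨i, rfl⟩
      · rintro ⟨i, hi⟩
        exact ⟨i, Subtype.ext hi⟩)
    x hxc
  have hci : ∀ i, ell (c i : H) ≤ ε := fun i => hc i
  have h2 : ell (x : H) ≤ f * ε := by
    have e1 : (x : H) = (l.map (C.subtype)).prod := by
      rw [← hl3, ← map_list_prod]
      rfl
    rw [e1]
    refine (hell.list _ ε ?_).trans ?_
    · intro y hy
      rw [List.mem_map] at hy
      obtain ⟨y', hy', rfl⟩ := hy
      obtain ⟨t, ht, z, hz⟩ := hl2 y' hy'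
      rw [Finset.mem_image] at ht
      obtain ⟨i, -, rfl⟩ := ht
      rcases hz with rfl | rfl
      · have : C.subtype (z * c i * z⁻¹) = (z : H) * (c i : H) * (z : H)⁻¹ := rfl
        rw [this, hell.conj]
        exact hci i
      · have : C.subtype (z * (c i)⁻¹ * z⁻¹) = (z : H) * (c i : H)⁻¹ * (z : H)⁻¹ := rfl
        rw [this, hell.conj, hell.inv]
        exact hci i
    · rw [List.length_map]
      have : (l.length : ℝ) ≤ f := by exact_mod_cast hl1
      exact mul_le_mul_of_nonneg_right this hε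
  have h3 : ell (Pl.prod : H) ≤ K * L * ε := by
    have e1 : (Pl.prod : H) = (Pl.map (C.subtype)).prod := by
      rw [← map_list_prod]
      rfl
    rw [e1]
    refine (hell.list _ (L * ε) ?_).trans ?_
    · intro y hy
      rw [List.mem_map] at hy
      obtain ⟨y', hy', rfl⟩ := hy
      rw [hPl, List.mem_map] at hy'
      obtain ⟨i, -, rfl⟩ := hy'
      have e2 : C.subtype (c i ^ lam i) = (c i : H) ^ lam i := by simp
      rw [e2]
      refine (hell.zpow _ _).trans ?_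
      have e3 : |((lam i : ℤ) : ℝ)| ≤ L := by
        have := hlam i
        exact_mod_cast this
      exact mul_le_mul e3 (hci i) (hell.nn _) (by positivity)
    · rw [List.length_map, hPl, List.length_map, Finset.length_toList, Finset.card_univ]
      have : (Fintype.card ι : ℝ) ≤ K := by exact_mod_cast hι
      have h4 : (0 : ℝ) ≤ L * ε := by positivity
      calc (Fintype.card ι : ℝ) * (L * ε) ≤ K * (L * ε) := mul_le_mul_of_nonneg_right this h4
        _ = K * L * ε := by ring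
  have h4 : φ g = (x : H) * (Pl.prod : H) := by
    rw [hx]
    simp
  rw [h4]
  have h5 := hell.mul (x : H) (Pl.prod : H)
  linarith

theorem t_C3 : LeafC3 := by
  classical
  intro hLIN hC1 hC2 hNS G _ hW F K
  obtain ⟨f, hf⟩ := hNS K
  obtain ⟨m, L, hm, hL⟩ := hLIN K (3 * K + 1) 3
  set F' : Finset G := F ∪ (F ×ˢ F).image fun x => x.1 * x.2 with hF'
  have hFF' : ∀ g ∈ F, g ∈ F' := fun g hg => Finset.mem_union_left _ hg
  have hmul : ∀ g ∈ F, ∀ h ∈ F, g * h ∈ F' := fun g hg h hh =>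
    Finset.mem_union_right _ (Finset.mem_image.2 ⟨(g, h), Finset.mem_product.2 ⟨hg, hh⟩, rfl⟩)
  set ε : ℝ := 1 / ((f + K * L : ℝ) + 1) with hε
  have hpos : (0 : ℝ) < (f + K * L : ℝ) + 1 := by positivity
  have hε0 : 0 < ε := by positivity
  have hε1 : (f + K * L : ℝ) * ε < 1 := by
    rw [hε, mul_one_div, div_lt_one hpos]
    linarith
  obtain ⟨H, _, _, d, φ0, h0, hs, ht, hl, hr, hφ1, hφ2⟩ := hW F' ε hε0
  obtain ⟨P, _, hP, π, ψ, hπ, hmain⟩ := hC2 H F' (fun s => φ0 s) m hm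
  refine ⟨P, inferInstance, hP, fun g => if h : g ∈ F' then ψ ⟨g, h⟩ else 1, ?_⟩
  intro T hT hErr g hg hg1 hmem
  have hlen := Len.of_dist d h0 hs ht hl hr
  have hErr' : ∀ t : T, ∃ x : P, ∃ a b p : F', (a : G) ∈ F ∧ (b : G) ∈ F ∧ (p : G) = a * b ∧
      (t : P) = x * (ψ a * ψ b * (ψ p)⁻¹) * x⁻¹ := by
    rintro ⟨t, ht⟩
    obtain ⟨x, a, ha, b, hb, h⟩ := hErr t ht
    refine ⟨x, ⟨a, hFF' a ha⟩, ⟨b, hFF' b hb⟩, ⟨a * b, hmul a ha b hb⟩, ha, hb, rfl, ?_⟩
    simp only [dif_pos (hFF' a ha), dif_pos (hFF' b hb), dif_pos (hmul a ha b hb)] at h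
    exact h
  choose x a b p ha hb hp ht' using hErr'
  have hrange : (T : Set P) = Set.range fun i : T => x i * (ψ (a i) * ψ (b i) * (ψ (p i))⁻¹) * (x i)⁻¹ := by
    ext t
    constructor
    · intro h
      exact ⟨⟨t, h⟩, (ht' ⟨t, h⟩).symm⟩
    · rintro ⟨i, rfl⟩
      have : (i : P) ∈ (T : Set P) := i.2
      rw [ht' i] at this
      exact this
  simp only [dif_pos (hFF' g hg)] at hmem
  rw [hrange] at hmem
  have he := hmain T x a b p ⟨g, hFF' g hg⟩ hmem
  have hgC : φ0 g ∈ Subgroup.closure (Set.range fun i : T =>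
      π (x i) * (φ0 (a i) * φ0 (b i) * (φ0 (p i))⁻¹) * (π (x i))⁻¹) := by
    have h1 := Subgroup.mem_map_of_mem π hmem
    rw [MonoidHom.map_closure, hπ, ← Set.range_comp] at h1
    convert h1 using 3
    funext i
    simp [hπ]
  have h2 := core (ε := ε) hL hC1 hf (ι := T) (by simpa using hT) (fun s : F' => φ0 s) (fun i => π (x i))
    a b p ⟨g, hFF' g hg⟩ (fun h => d h 1) hlen hε0.le (by
      intro i
      have h3 := hlen.conj (π (x i)) (φ0 (a i) * φ0 (b i) * (φ0 (p i))⁻¹)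
      beta_reduce at h3 ⊢
      rw [h3]
      have h4 := hr (φ0 (p i)) (φ0 (a i) * φ0 (b i) * (φ0 (p i))⁻¹) 1
      rw [inv_mul_cancel_right, one_mul] at h4
      rw [← h4, hs, hp i]
      exact hφ1 _ (a i).2 _ (b i).2 (by rw [← hp i]; exact (p i).2))
    _ rfl hgC he
  have h3 := hφ2 g (hFF' g hg) hg1
  beta_reduce at h2
  linarith

end Pool.Agent.N910.WF
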